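import Pool.Agent.Lib.MP_6e5bed_ag_SP.RepC
import Pool.Agent.Lib.MP_6e5bed_ag_BC.BcDefs

set_option autoImplicit false

/-!
# Comparison of extensions of scalars
-/

namespace Pool.Agent.MP_6e5bed_ag_SP

open Pool.Agent.MP_6e5bed_ag_NC

attribute [local instance] Alg.iR Alg.iA Cf.iG Cf.iM Rs.iG Rs.iM

universe u

variable {k K A A' : Type u} [CommRing k] [CommRing K] [Algebra k K] [Ring A] [Algebra k A]
  [Ring A'] [Algebra k A'] [Algebra K A'] [IsScalarTower k K A'] {X : DG k A} {X' : DG K A'}

/-- A bijective map is compatible with the gradings if its inverse preserves degrees. -/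
private theorem RepBc_mem {V V' : Type u} [AddCommGroup V] [Module K V] [AddCommGroup V']
    [Module K V'] (Z : Cx K V) (Z' : Dg K V') (e : V ≃ₗ[K] V')
    (h : ∀ (n : ℤ) (y : V'), Z'.IsDeg n y → e.symm y ∈ Z.gr n) (n : ℤ) (v : V) :
    v ∈ Z.gr n ↔ Z'.IsDeg n (e v) := by
  constructor
  · intro hv
    have h1 : ∀ {m : ℤ} {y : V'}, Z'.IsDeg m y → Z.toDg.IsDeg (m + 0) (e.symm y) := by
      intro m y hy
      rw [add_zero]
      exact (Z.toDg_rep.mem m _).mp (h m y hy)
    have h2 : ∀ (y : V') (j : ℤ), Z.toDg.ρ (e.symm y) (j + 0) = e.symm (Z'.ρ y j) :=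
      (Dg.degMap_iff (X := Z') (Y := Z.toDg) (n := 0) (e.symm : V' →ₗ[K] V)).mp
        (fun _ _ hy => h1 hy)
    have h3 : Z.toDg.ρ v = Finsupp.single n v := (Z.toDg_rep.mem n v).mp hv
    change Z'.ρ (e v) = Finsupp.single n (e v)
    ext m
    apply e.symm.injective
    rw [← h2, add_zero, e.symm_apply_apply, h3, Finsupp.single_apply, Finsupp.single_apply]
    split_ifs
    · rw [e.symm_apply_apply]
    · rw [map_zero]
  · intro hv
    have := h n (e v) hv
    rwa [e.symm_apply_apply] at this

theorem IsBc.exists_rep {i : A →ₐ[k] A'} (h : IsBc X X' i) {B : DGA k} (r : Rep X B) :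
    Nonempty (Rep X' (B.bc K)) := by
  letI : Module k (B.bc K).A := Module.compHom _ (algebraMap k K)
  have hsm : ∀ (c : k) (x : (B.bc K).A), c • x = algebraMap k K c • x := fun c x => rfl
  haveI : IsScalarTower k K (B.bc K).A := ⟨fun a s x => by
    rw [Algebra.smul_def, mul_smul, hsm]⟩
  let g : A →ₗ[k] (B.bc K).A :=
    { toFun := fun a => B.ι K (r.e a)
      map_add' := fun a b => by rw [map_add, map_add]
      map_smul' := fun c a => by rw [map_smul, DGA.ι_smul, hsm]; rfl }
  let E : A' →ₗ[K] (B.bc K).A := h.bij.lift g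
  have hE : ∀ a : A, E (i a) = B.ι K (r.e a) := fun a => h.bij.lift_eq g a
  let φ : (B.bc K).A →ₗ[K] A' := DGA.lift
    (i.toLinearMap.toAddMonoidHom.comp r.e.symm.toLinearMap.toAddMonoidHom) (fun c b => by
      change i (r.e.symm (c • b)) = algebraMap k K c • i (r.e.symm b)
      rw [map_smul, map_smul, algebraMap_smul])
  have hφ : ∀ b : B.A, φ (B.ι K b) = i (r.e.symm b) := fun b => DGA.lift_ι _ _ b
  have hl : ∀ x, φ (E x) = x := by
    intro x
    refine h.bij.inductionOn x (fun x => φ (E x) = x) ?_ ?_ ?_ ?_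
    · rw [map_zero, map_zero]
    · intro a
      change φ (E (i a)) = i a
      rw [hE, hφ, LinearEquiv.symm_apply_apply]
    · intro s x hx
      rw [map_smul, map_smul, hx]
    · intro x y hx hy
      rw [map_add, map_add, hx, hy]
  have hr : ∀ y, E (φ y) = y := by
    intro y
    have : E.comp φ = LinearMap.id := DGA.ι_ext (fun b => by
      rw [LinearMap.comp_apply, hφ, hE, LinearEquiv.apply_symm_apply, LinearMap.id_apply])
    exact LinearMap.congr_fun this y
  let e : A' ≃ₗ[K] (B.bc K).A := LinearEquiv.ofLinearMap E φ (LinearMap.ext hr) (LinearMap.ext hl)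
  have he : ∀ a : A, e (i a) = B.ι K (r.e a) := hE
  have key : ∀ (y : (B.bc K).A) (n : ℤ), φ ((B.bc K).dg.ρ y n) ∈ X'.gr n := by
    intro y n
    refine DGA.ι_ind (P := fun y => φ ((B.bc K).dg.ρ y n) ∈ X'.gr n) ?_ ?_ ?_ y
    · rw [map_zero]
      exact (congrArg (fun z => z ∈ X'.gr n) (map_zero φ)).mpr (Submodule.zero_mem _)
    · intro x y hx hy
      rw [map_add, Finsupp.add_apply, map_add]
      exact Submodule.add_mem _ hx hy
    · intro s a
      rw [map_smul, Finsupp.smul_apply, map_smul]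
      refine Submodule.smul_mem _ _ ?_
      have h1 : (B.bc K).dg.ρ (B.ι K a) n = B.ι K (B.dg.ρ a n) := Dg.cf_ρ a n
      rw [h1, hφ]
      refine h.mem n _ ((r.rep.mem n _).mpr ?_)
      rw [LinearEquiv.apply_symm_apply]
      exact B.dg.isDeg_ρ a n
  refine ⟨{ e := e, one := ?_, mul := ?_, rep := ⟨?_, ?_⟩ }⟩
  · rw [← map_one i, he, r.one, DGA.ι_one]
  · intro a b
    refine h.bij.inductionOn a (fun a => e (a * b) = (B.bc K).mul (e a) (e b)) ?_ ?_ ?_ ?_
    · rw [zero_mul, map_zero, map_zero, LinearMap.zero_apply]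
    · intro a
      change e (i a * b) = (B.bc K).mul (e (i a)) (e b)
      refine h.bij.inductionOn b (fun b => e (i a * b) = (B.bc K).mul (e (i a)) (e b)) ?_ ?_ ?_ ?_
      · rw [mul_zero, map_zero, map_zero]
      · intro b
        change e (i a * i b) = (B.bc K).mul (e (i a)) (e (i b))
        rw [← map_mul, he, he, he, r.mul, DGA.ι_mul]
      · intro s x hx
        rw [mul_smul_comm, map_smul, map_smul, map_smul, hx]
      · intro x y hx hy
        rw [mul_add, map_add, map_add, map_add, hx, hy]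
    · intro s x hx
      rw [smul_mul_assoc, map_smul, map_smul, map_smul, LinearMap.smul_apply, hx]
    · intro x y hx hy
      rw [add_mul, map_add, map_add, map_add, LinearMap.add_apply, hx, hy]
  · intro n v
    refine RepBc_mem X'.toCx (B.bc K).dg e (fun n y hy => ?_) n v
    have h1 := key y n
    rw [show (B.bc K).dg.ρ y = Finsupp.single n y from hy, Finsupp.single_eq_same] at h1
    exact h1
  · intro v
    refine h.bij.inductionOn v (fun v => e (X'.d v) = (B.bc K).dg.d (e v)) ?_ ?_ ?_ ?_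
    · rw [map_zero, map_zero, map_zero]
    · intro a
      change e (X'.d (i a)) = (B.bc K).dg.d (e (i a))
      rw [h.d, he, he, DGA.ι_d, r.rep.d]
    · intro s x hx
      rw [map_smul, map_smul, map_smul, map_smul, hx]
    · intro x y hx hy
      rw [map_add, map_add, map_add, map_add, hx, hy]

end Pool.Agent.MP_6e5bed_ag_SP
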