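import Pool.Agent.Lib.MP_6e5bed_ag_SP.MMon
import Pool.Agent.Lib.MP_6e5bed_ag_SP.RepBc
import Pool.Agent.Lib.MP_6e5bed_ag_BC.BCFinal
import Pool.Agent.Lib.MP_6e5bed_ag_NC.NFinal

set_option autoImplicit false

/-!
# Kimura-finiteness in a model
-/

namespace Pool.Agent.MP_6e5bed_ag_SP

open CategoryTheory MonoidalCategory Pool.Agent.MP_6e5bed_ag Pool.Agent.MP_6e5bed_ag_NC

universe u

variable {k : Type u} [Field k] {C : Type (u + 1)} [Category.{u + 1} C] [MonoidalCategory C]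
  [SymmetricCategory C] [Preadditive C] [MonoidalPreadditive C] [Linear ℚ C] (H : NCMot k C)

theorem NCMot.kimuraFinite_iff {A : Type u} [Ring A] [Algebra k A] {X : DG k A} (hX : SmPr X)
    (B : SP k) (r : Rep X B.alg) : KimuraFinite (H.U X hX) ↔ KimuraFinite (U B) := by
  obtain ⟨φ⟩ := H.exists_iso hX r
  have _ := H.karoubi
  rw [kimuraFinite_U_iff, ← opKF_iff_of_full (F := H.F) B]
  exact ⟨fun h => OpKF.of_iso φ (opKF_of_kimuraFinite h),
    fun h => kimuraFinite_of_opKF (OpKF.of_iso φ.symm h)⟩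

theorem NCMot.isZero_iff {A : Type u} [Ring A] [Algebra k A] {X : DG k A} (hX : SmPr X)
    (B : SP k) (r : Rep X B.alg) : Limits.IsZero (H.U X hX) ↔ Limits.IsZero (U B) := by
  obtain ⟨φ⟩ := H.exists_iso hX r
  have h1 : 𝟙 (H.F.obj B) = 0 ↔ 𝟙 B = 0 := by
    rw [← H.F.map_id B, ← H.F.map_zero B B]
    exact H.F.map_injective.eq_iff
  have h2 : 𝟙 (U B) = 0 ↔ 𝟙 B = 0 := by
    have h := (Idempotents.toKaroubi (SP k)).map_id B
    have h0 := (Idempotents.toKaroubi (SP k)).map_zero B B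
    rw [show 𝟙 (U B) = (Idempotents.toKaroubi (SP k)).map (𝟙 B) from h.symm, ← h0]
    exact (Idempotents.toKaroubi (SP k)).map_injective.eq_iff
  rw [Limits.IsZero.iff_id_eq_zero (U B), h2, ← h1, ← Limits.IsZero.iff_id_eq_zero]
  exact φ.isZero_iff

end Pool.Agent.MP_6e5bed_ag_SP
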