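import Pool.Agent.Lib.MP_6e5bed_ag_SP.MMon
import Pool.Agent.Lib.MP_6e5bed_ag_NC.EndOne
import Pool.Agent.Lib.MP_6e5bed_ag_NC.Rigid
import Pool.Agent.Lib.MP_6e5bed_ag_NC.HalfDual

set_option autoImplicit false

/-!
# Duals and the unit in a model
-/

namespace Pool.Agent.MP_6e5bed_ag_SP

open CategoryTheory MonoidalCategory Pool.Agent.MP_6e5bed_ag_NC

universe u

section half

universe v v' w w'

open Functor.LaxMonoidal Functor.OplaxMonoidal in
/-- The half duality datum is preserved by monoidal functors. -/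
private theorem mdual_map {C : Type w} [Category.{v} C] [MonoidalCategory C] {D : Type w'}
    [Category.{v'} D] [MonoidalCategory D] [IsIdempotentComplete D] (F : C ⥤ D) [F.Monoidal]
    {A B : C} (e : 𝟙_ C ⟶ B ⊗ A) (p : A ⊗ B ⟶ 𝟙_ C)
    (h : (A ◁ e) ≫ (α_ A B A).inv ≫ (p ▷ A) = (ρ_ A).hom ≫ (λ_ A).inv) :
    ∃ M : D, Nonempty (ExactPairing M (F.obj A)) := by
  refine exists_exactPairing (A := F.obj A) (B := F.obj B) (ε F ≫ F.map e ≫ δ F B A)
    (μ F A B ≫ F.map p ≫ η F) ?_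
  have h := congrArg F.map h
  simp only [Functor.map_comp, Functor.Monoidal.map_whiskerLeft,
    Functor.Monoidal.map_whiskerRight, Functor.Monoidal.map_associator_inv,
    Functor.Monoidal.map_rightUnitor, Functor.Monoidal.map_leftUnitor_inv, Category.assoc,
    Functor.Monoidal.μ_δ_assoc] at h
  have h1 := (cancel_epi (δ F A (𝟙_ C))).mp h
  have h2 : F.obj A ◁ F.map e ≫ F.obj A ◁ δ F B A ≫ (α_ _ _ _).inv ≫
      μ F A B ▷ F.obj A ≫ F.map p ▷ F.obj A =
      F.obj A ◁ η F ≫ (ρ_ (F.obj A)).hom ≫ (λ_ (F.obj A)).inv ≫ ε F ▷ F.obj A := by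
    rw [← cancel_mono (μ F (𝟙_ C) A)]
    simpa only [Category.assoc] using h1
  simp only [MonoidalCategory.whiskerLeft_comp, comp_whiskerRight, Category.assoc]
  have h3 := congrArg (fun z => F.obj A ◁ ε F ≫ z ≫ η F ▷ F.obj A) h2
  simp only [Category.assoc, Functor.Monoidal.whiskerRight_ε_η, Category.comp_id,
    Functor.Monoidal.whiskerLeft_ε_η_assoc] at h3
  exact h3

end half

variable {k : Type u} [Field k] {C : Type (u + 1)} [Category.{u + 1} C] [MonoidalCategory C]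
  [SymmetricCategory C] [Preadditive C] [MonoidalPreadditive C] [Linear ℚ C] (H : NCMot k C)

theorem NCMot.exists_dual {A : Type u} [Ring A] [Algebra k A] {X : DG k A} (hX : SmPr X) :
    ∃ M : C, Nonempty (ExactPairing M (H.U X hX)) := by
  obtain ⟨B, r⟩ : Σ' B : SP k, Rep X B.alg :=
    ⟨⟨X.toDGA, hX.smooth X.toRep, hX.proper X.toRep⟩, X.toRep⟩
  obtain ⟨i⟩ := H.exists_iso hX r
  have hC : IsIdempotentComplete C := H.karoubi
  obtain ⟨M, ⟨h⟩⟩ := mdual_map H.F B.eta B.eps B.zigzag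
  exact ⟨M, ⟨@exactPairingCongrRight _ _ _ _ _ _ h i⟩⟩

include H in
theorem NCMot.end_unit (f : 𝟙_ C ⟶ 𝟙_ C) : ∃ c : ℚ, f = c • 𝟙 (𝟙_ C) := by
  obtain ⟨a, ha⟩ := (H.fhom (SP.base k) (SP.base k)).surjective (H.fε.inv ≫ f ≫ H.fε.hom)
  obtain ⟨c, hc⟩ := MP_6e5bed_ag_NC.end_unit (k := k) a
  refine ⟨c, ?_⟩
  have h1 : H.fhom (SP.base k) (SP.base k) a = c • 𝟙 (H.fobj (SP.base k)) := by
    rw [← H.fhom_id, ← map_smul]
    exact congrArg _ hc
  rw [h1] at ha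
  have h2 : f = H.fε.hom ≫ (H.fε.inv ≫ f ≫ H.fε.hom) ≫ H.fε.inv := by simp
  rw [h2, ← ha]
  simp

end Pool.Agent.MP_6e5bed_ag_SP
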