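import Pool.Agent.Lib.MP_6e5bed_ag_SP.NCMot

set_option autoImplicit false

/-!
# Transport of the data of a model along a functor
-/

namespace Pool.Agent.MP_6e5bed_ag_SP

open CategoryTheory MonoidalCategory

universe u

variable {k : Type u} [Field k] {C D : Type (u + 1)} [Category.{u + 1} C] [Category.{u + 1} D]
  [MonoidalCategory C] [MonoidalCategory D]

/-- Transport along a monoidal functor. -/
noncomputable def NCData.push (H : NCData k C) (F : C ⥤ D) [F.Monoidal] : NCData k D where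
  U X hX := F.obj (H.U X hX)
  cl hX hY Z h := F.map (H.cl hX hY Z h)
  unit hX h := Functor.Monoidal.εIso F ≪≫ F.mapIso (H.unit hX h)
  tens {A A' AA _ _ _ _ _ _ X X' E} hX hX' hE i i' T :=
    Functor.Monoidal.μIso F _ _ ≪≫ F.mapIso (H.tens hX hX' hE T)

variable {H : NCData k C} (F : C ⥤ D)

section mon

variable [F.Monoidal]

theorem NCData.ClOne.push (h : H.ClOne) : (H.push F).ClOne := by
  intro A M _ _ _ _ _ _ X hX Z hZ hr
  exact (congrArg F.map (h hX Z hZ hr)).trans (F.map_id _)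

theorem NCData.ClComp.push (h : H.ClComp) : (H.push F).ClComp := by
  intro A B D' M N P _ _ _ _ _ _ _ _ _ _ _ _ _ _ _ _ _ _ X Y W hX hY hW Z Z' T h1 h2 h3 t ht
  exact (F.map_comp _ _).symm.trans (congrArg F.map (h hX hY hW Z Z' T h1 h2 h3 t ht))

theorem NCData.ClTens.push (h : H.ClTens) : (H.push F).ClTens := by
  intro A A' AA B B' BB M M' MM _ _ _ _ _ _ _ _ _ _ _ _ _ _ _ _ _ _ _ _ _ _ _ _ X X' E Y Y' G
    hX hX' hE hY hY' hF i i' j j' T T' Z Z' ZZ h1 h2 h3 t ht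
  have h4 := congrArg F.map (h hX hX' hE hY hY' hF T T' Z Z' ZZ h1 h2 h3 t ht)
  rw [F.map_comp, F.map_comp] at h4
  have h5 := Functor.LaxMonoidal.μ_natural F (H.cl hX hY Z h1) (H.cl hX' hY' Z' h2)
  change (F.map _ ⊗ₘ F.map _) ≫ (Functor.LaxMonoidal.μ F _ _ ≫ F.map _) =
    (Functor.LaxMonoidal.μ F _ _ ≫ F.map _) ≫ F.map _
  rw [← Category.assoc, h5, Category.assoc, h4, Category.assoc]

theorem NCData.Assoc.push (h : H.Assoc) : (H.push F).Assoc := by
  intro A B D' AB BD ABD _ _ _ _ _ _ _ _ _ _ _ _ X Y W XY YW XYW hX hY hW hXY hYW h1 i i' j j' p q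
    H₁ H₂ T T' hpq
  have h4 := congrArg F.map (h hX hY hW hXY hYW h1 H₁ H₂ T T' hpq)
  rw [F.map_comp, F.map_comp, F.map_comp] at h4
  change ((Functor.LaxMonoidal.μ F _ _ ≫ F.map _) ▷ F.obj _) ≫
      (Functor.LaxMonoidal.μ F _ _ ≫ F.map _) =
    (α_ _ _ _).hom ≫ (F.obj _ ◁ (Functor.LaxMonoidal.μ F _ _ ≫ F.map _)) ≫
      (Functor.LaxMonoidal.μ F _ _ ≫ F.map _)
  have h5 := Functor.LaxMonoidal.associativity F (H.U X hX) (H.U Y hY) (H.U W hW)
  rw [comp_whiskerRight, MonoidalCategory.whiskerLeft_comp, Category.assoc,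
    Functor.LaxMonoidal.μ_natural_left_assoc, h4, Category.assoc,
    Functor.LaxMonoidal.μ_natural_right_assoc, reassoc_of% h5]

theorem NCData.LeftUnit.push (h : H.LeftUnit) : (H.push F).LeftUnit := by
  intro A B _ _ _ _ X Y hX hY i hA T
  have h4 := congrArg F.map (h hX hY hA T)
  rw [F.map_comp] at h4
  change ((Functor.LaxMonoidal.ε F ≫ F.map _) ▷ F.obj _) ≫
      (Functor.LaxMonoidal.μ F _ _ ≫ F.map _) = (λ_ (F.obj _)).hom
  rw [comp_whiskerRight, Category.assoc, Functor.LaxMonoidal.μ_natural_left_assoc, h4,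
    Functor.LaxMonoidal.left_unitality]

theorem NCData.HomK0.push [Preadditive C] [Linear ℚ C] [Preadditive D] [Linear ℚ D]
    [F.Additive] [F.Full] [F.Faithful] (h : H.HomK0) : (H.push F).HomK0 := by
  intro A B _ _ _ _ X Y hX hY
  obtain ⟨h1, h2⟩ := h hX hY
  have hbij : Function.Bijective (F.mapAddHom : (H.U X hX ⟶ H.U Y hY) →+ _) :=
    ⟨F.map_injective, F.map_surjective⟩
  let e0 : (H.U X hX ⟶ H.U Y hY) ≃+ (F.obj (H.U X hX) ⟶ F.obj (H.U Y hY)) :=
    AddEquiv.ofBijective F.mapAddHom hbij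
  let e : (H.U X hX ⟶ H.U Y hY) →ₗ[ℚ] (F.obj (H.U X hX) ⟶ F.obj (H.U Y hY)) :=
    e0.toAddMonoidHom.toRatLinearMap
  let e' : (F.obj (H.U X hX) ⟶ F.obj (H.U Y hY)) →ₗ[ℚ] (H.U X hX ⟶ H.U Y hY) :=
    e0.symm.toAddMonoidHom.toRatLinearMap
  have he : ∀ f, e f = F.map f := fun f => rfl
  have he' : ∀ f, e' (F.map f) = f := fun f => e0.symm_apply_apply f
  have he'' : ∀ g, e (e' g) = g := fun g => e0.apply_symm_apply g
  refine ⟨⟨?_, ?_⟩, ?_⟩
  · intro M N P _ _ _ _ _ _ _ _ _ _ _ _ Z W Z' k1 k2 k3 k4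
    exact (congrArg F.map (h1.ext Z W Z' k1 k2 k3 k4)).trans F.map_add
  · intro M _ _ _ _ Z k1 k2
    exact (congrArg F.map (h1.contr Z k1 k2)).trans (F.map_zero _ _)
  · intro V' _ _ φ' hφ'
    obtain ⟨G, hG, hG'⟩ := h2 V' φ' hφ'
    refine ⟨G ∘ₗ e', ?_, ?_⟩
    · intro M _ _ _ _ Z k1
      exact (congrArg G (he' _)).trans (hG Z k1)
    · intro G1 hG1
      have h3 := hG' (G1 ∘ₗ e) (fun {M} _ _ _ _ Z k1 => hG1 Z k1)
      refine LinearMap.ext fun g => ?_
      exact (congrArg G1 (he'' g)).symm.trans (LinearMap.congr_fun h3 (e' g))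

end mon

theorem NCData.Braid.push [SymmetricCategory C] [SymmetricCategory D] [F.Braided]
    (h : H.Braid) : (H.push F).Braid := by
  intro A A' AA _ _ _ _ _ _ X X' E hX hX' hE i i' T T'
  have h4 := congrArg F.map (h hX hX' hE T T')
  rw [F.map_comp] at h4
  change Functor.LaxMonoidal.μ F _ _ ≫ F.map _ =
    (β_ _ _).hom ≫ (Functor.LaxMonoidal.μ F _ _ ≫ F.map _)
  rw [h4, ← Category.assoc, Functor.LaxBraided.braided, Category.assoc]

end Pool.Agent.MP_6e5bed_ag_SP
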