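import Pool.Agent.Lib.MP_6e5bed_ag_SP.ModelB
import Pool.Agent.Lib.MP_6e5bed_ag_SP.Push
import Pool.Agent.Lib.MP_6e5bed_ag_BC.SpKF

set_option autoImplicit false

/-!
# The category `NChow k` is a model
-/

namespace Pool.Agent.MP_6e5bed_ag_SP

open CategoryTheory MonoidalCategory Idempotents Pool.Agent.MP_6e5bed_ag_NC

universe u

variable {k : Type u} [Field k]

noncomputable instance : (toKaroubi (SP k)).Braided := spKF_brd

theorem nchow_retracts : ((spData k).push (toKaroubi (SP k))).Retracts := by
  intro P
  obtain ⟨A, i1, i2, X, hX, i, r, h⟩ := sp_retracts (k := k) P.X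
  refine ⟨A, i1, i2, X, hX, Karoubi.decompId_i P ≫ (toKaroubi (SP k)).map i,
    (toKaroubi (SP k)).map r ≫ Karoubi.decompId_p P, ?_⟩
  have h2 : (toKaroubi (SP k)).map i ≫ (toKaroubi (SP k)).map r =
      𝟙 ((toKaroubi (SP k)).obj P.X) := by
    rw [← Functor.map_comp, h, CategoryTheory.Functor.map_id]
  calc (Karoubi.decompId_i P ≫ (toKaroubi (SP k)).map i) ≫
        (toKaroubi (SP k)).map r ≫ Karoubi.decompId_p P
      = Karoubi.decompId_i P ≫ ((toKaroubi (SP k)).map i ≫ (toKaroubi (SP k)).map r) ≫
        Karoubi.decompId_p P := by simp only [Category.assoc]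
    _ = Karoubi.decompId_i P ≫ Karoubi.decompId_p P := by
        rw [h2]; exact congrArg (Karoubi.decompId_i P ≫ ·) (Category.id_comp _)
    _ = 𝟙 P := (Karoubi.decompId P).symm

/-- The category `NChow k` is a model of the category of noncommutative Chow motives. -/
noncomputable def nchowMot (k : Type u) [Field k] : NCMot k (NChow k) where
  toNCData := (spData k).push (toKaroubi (SP k))
  hom_k0 := sp_homK0.push _
  cl_one := sp_clOne.push _
  cl_comp := sp_clComp.push _
  cl_tens := sp_clTens.push _
  assoc := sp_assoc.push _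
  left_unit := sp_leftUnit.push _
  braid := sp_braid.push _
  retracts := nchow_retracts
  karoubi := inferInstance

end Pool.Agent.MP_6e5bed_ag_SP
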