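import Pool.Agent.Lib.MP_6e5bed_ag_SP.MMain
import Pool.Agent.Lib.MP_6e5bed_ag_SP.MDual
import Pool.Agent.Lib.MP_6e5bed_ag_SP.ModelC

set_option autoImplicit false

/-!
# Kimura-finiteness of noncommutative Chow motives
-/

namespace Pool.Agent.MP_6e5bed_ag_SP

open CategoryTheory MonoidalCategory Pool.Agent.MP_6e5bed_ag Pool.Agent.MP_6e5bed_ag_NC

universe u

theorem hasModel (k : Type u) [Field k] : HasModel k :=
  ⟨NChow k, inferInstance, inferInstance, inferInstance, inferInstance, inferInstance,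
    inferInstance, ⟨nchowMot k⟩⟩

section

variable {k : Type u} [Field k] {C : Type (u + 1)} [Category.{u + 1} C] [MonoidalCategory C]
  [SymmetricCategory C] [Preadditive C] [MonoidalPreadditive C] [Linear ℚ C] (H : NCMot k C)

include H in
theorem NCMot.exists_leftDual (M : C) : Nonempty (HasLeftDual M) := by
  obtain ⟨A, _, _, X, hX, i, r, hir⟩ := H.retracts M
  obtain ⟨M', ⟨hM⟩⟩ := H.exists_dual hX
  let _ : HasLeftDual (H.U X hX) := ⟨M'⟩
  have _ := H.karoubi
  exact exists_dual_retract i r hir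

include H in
theorem NCMot.cancellation {M N : C} (h0 : ¬ Limits.IsZero (M ⊗ N))
    (h : KimuraFinite (M ⊗ N)) : KimuraFinite M ∧ KimuraFinite N := by
  obtain ⟨hM⟩ := H.exists_leftDual M
  obtain ⟨hN⟩ := H.exists_leftDual N
  have _ := H.karoubi
  exact kimuraFinite_of_tensor H.end_unit (M' := ᘁM) (N' := ᘁN)
    (fun h1 => h0 ((Limits.IsZero.iff_id_eq_zero _).2 h1)) h

include H in
theorem NCMot.schur {M B : C} {n : ℕ} (hn : 0 < n)
    (z : MonoidAlgebra ℚ (Equiv.Perm (Fin n))) (i : B ⟶ tpow M n) (r : tpow M n ⟶ B)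
    (hir : i ≫ r = 𝟙 B) (hri : r ≫ i = za M z) (h0 : ¬ Limits.IsZero B)
    (h : KimuraFinite B) : KimuraFinite M := by
  obtain ⟨hM⟩ := H.exists_leftDual M
  have _ := H.karoubi
  have hB : 𝟙 B ≠ 0 := fun h1 => h0 ((Limits.IsZero.iff_id_eq_zero _).2 h1)
  have hne : 𝟙 (𝟙_ C) ≠ 0 := by
    intro h1
    apply hB
    have h2 : 𝟙 (𝟙_ C ⊗ B) = 0 := by
      rw [← id_tensorHom_id, h1, MonoidalPreadditive.zero_tensor]
    rw [← cancel_epi (λ_ B).hom, Category.comp_id, Limits.comp_zero,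
      ← Category.id_comp (λ_ B).hom, h2, Limits.zero_comp]
  have _ : RatUnit C := ⟨H.end_unit, hne⟩
  exact kimuraFinite_of_opKF (opKF_of_schur_dual hn z i r hir hri (opKF_of_kimuraFinite h) hB)

end

/-- An extension of scalars of a smooth proper dg algebra is smooth and proper. -/
theorem IsBc.smPr {k K A A' : Type u} [CommRing k] [Field K] [Algebra k K] [Ring A]
    [Algebra k A] [Ring A'] [Algebra k A'] [Algebra K A'] [IsScalarTower k K A'] {X : DG k A}
    {X' : DG K A'} {i : A →ₐ[k] A'} (hi : IsBc X X' i) (hX : SmPr X) : SmPr X' := by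
  obtain ⟨S, hS⟩ : ∃ S : SP k, S = ⟨X.toDGA, hX.smooth X.toRep, hX.proper X.toRep⟩ := ⟨_, rfl⟩
  have hS' : Nonempty (Rep X S.alg) := by
    rw [hS]
    exact ⟨X.toRep⟩
  obtain ⟨r⟩ := hS'
  obtain ⟨r'⟩ := hi.exists_rep r
  exact SmPr.of r' (S.bc K).smooth (S.bc K).proper

theorem kimuraFinite_bc {k K : Type u} [Field k] [Field K] [Algebra k K]
    {C : Type (u + 1)} [Category.{u + 1} C] [MonoidalCategory C] [SymmetricCategory C]
    [Preadditive C] [MonoidalPreadditive C] [Linear ℚ C] (H : NCMot k C)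
    {C' : Type (u + 1)} [Category.{u + 1} C'] [MonoidalCategory C'] [SymmetricCategory C']
    [Preadditive C'] [MonoidalPreadditive C'] [Linear ℚ C'] (H' : NCMot K C')
    {A A' : Type u} [Ring A] [Algebra k A] [Ring A'] [Algebra k A'] [Algebra K A']
    [IsScalarTower k K A'] {X : DG k A} {X' : DG K A'} (hX : SmPr X) (hX' : SmPr X')
    {i : A →ₐ[k] A'} (hi : IsBc X X' i) :
    KimuraFinite (H'.U X' hX') ↔ KimuraFinite (H.U X hX) := by
  obtain ⟨r⟩ := hi.exists_rep X.toRep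
  rw [H.kimuraFinite_iff hX (toSP X hX) X.toRep, ← kimuraFinite_bc_iff (K := K) (toSP X hX)]
  exact H'.kimuraFinite_iff hX' ((toSP X hX).bc K) r

theorem kimuraFinite_generic {R : Type u} [CommRing R] [IsDomain R] {A : Type u} [Ring A]
    [Algebra R A] {X : DG R A} (hX : SmPr X) {A' : Type u} [Ring A'] [Algebra R A']
    [Algebra (FractionRing R) A'] [IsScalarTower R (FractionRing R) A']
    {X' : DG (FractionRing R) A'} (hX' : SmPr X') {i : A →ₐ[R] A'} (hi : IsBc X X' i)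
    {C : Type (u + 1)} [Category.{u + 1} C] [MonoidalCategory C] [SymmetricCategory C]
    [Preadditive C] [MonoidalPreadditive C] [Linear ℚ C] (H : NCMot (FractionRing R) C)
    (h : KimuraFinite (H.U X' hX')) : ∃ f : R, f ≠ 0 ∧ ∀ (L : Type u) [Field L] [Algebra R L],
      algebraMap R L f ≠ 0 → ∀ (B : Type u) [Ring B] [Algebra R B] [Algebra L B]
        [IsScalarTower R L B] (Y : DG L B) (j : A →ₐ[R] B), IsBc X Y j → ∃ hY : SmPr Y,
        ∀ (D : Type (u + 1)) [Category.{u + 1} D] [MonoidalCategory D] [SymmetricCategory D]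
        [Preadditive D] [MonoidalPreadditive D] [Linear ℚ D] (H' : NCMot L D),
        KimuraFinite (H'.U Y hY) := by
  obtain ⟨S, hS⟩ : ∃ S : SP R, S = ⟨X.toDGA, hX.smooth X.toRep, hX.proper X.toRep⟩ := ⟨_, rfl⟩
  have hS' : Nonempty (Rep X S.alg) := by
    rw [hS]
    exact ⟨X.toRep⟩
  obtain ⟨r⟩ := hS'
  obtain ⟨r'⟩ := hi.exists_rep r
  obtain ⟨f, hf, hL⟩ := exists_kimuraFinite_bc S
    ((H.kimuraFinite_iff hX' (S.bc (FractionRing R)) r').1 h)
  refine ⟨f, hf, fun L _ _ hfL B _ _ _ _ Y j hj => ⟨hj.smPr hX, fun D _ _ _ _ _ _ H' => ?_⟩⟩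
  obtain ⟨s⟩ := hj.exists_rep r
  exact (H'.kimuraFinite_iff _ (S.bc L) s).2 (hL L hfL)

end Pool.Agent.MP_6e5bed_ag_SP
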