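import Pool.Agent.Lib.MP_6e5bed_ag_SP.RepC

set_option autoImplicit false

/-!
# Comparison of dg algebras
-/

namespace Pool.Agent.MP_6e5bed_ag_SP

open Pool.Agent.MP_6e5bed_ag_NC

universe u

variable {k : Type u} [CommRing k] {A : Type u} [Ring A] [Algebra k A]

/-- The dg algebra `X` in terms of bilinear maps. -/
noncomputable def DG.toDGA (X : DG k A) : DGA k where
  A := A
  dg := X.toCx.toDg
  mul := LinearMap.mul k A
  one := 1
  one_mul := fun a => _root_.one_mul a
  mul_one := fun a => _root_.mul_one a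
  mul_assoc := fun a b c => _root_.mul_assoc a b c
  one_deg := ((Cx.toDg_rep X.toCx).mem 0 1).1 X.one_mem
  mul_deg := fun {i j a b} ha hb => ((Cx.toDg_rep X.toCx).mem (i + j) (a * b)).1
    (X.mul_mem i j a b (((Cx.toDg_rep X.toCx).mem i a).2 ha)
      (((Cx.toDg_rep X.toCx).mem j b).2 hb))
  leibniz := by
    intro a b
    have hd : ∀ v : A, X.toCx.toDg.d v = X.d v := fun v => ((Cx.toDg_rep X.toCx).d v).symm
    have hs : ∀ (n : ℤ) (v : A), v ∈ X.gr n → X.toCx.toDg.s v = n.negOnePow • v :=
      fun n v hv => (Cx.toDg_rep X.toCx).s hv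
    simp only [LinearMap.mul_apply', hd]
    refine (Cx.toDg_rep X.toCx).ind
      (P := fun a => X.d (a * b) = X.d a * b + X.toCx.toDg.s a * X.d b) ?_ ?_ ?_ a
    · simp only [zero_mul, map_zero, add_zero]
    · intro v w hv hw
      rw [add_mul, map_add, hv, hw, map_add, map_add, add_mul, add_mul]
      abel
    · intro n v hv
      rw [X.leibniz n v b hv, hs n v hv, Units.smul_def, Units.smul_def, smul_mul_assoc]

noncomputable def DG.toRep (X : DG k A) : Rep X X.toDGA where
  e := LinearEquiv.refl k A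
  one := rfl
  mul := fun _ _ => rfl
  rep := Cx.toDg_rep X.toCx

/-- The underlying `k`-algebra of `A'`. -/
def RA (A' : DGA k) : Type u := A'.A

instance (A' : DGA k) : Ring (RA A') :=
  letI g : AddCommGroup (RA A') := A'.grp
  { g with
    mul := fun a b => A'.mul a b
    one := A'.one
    left_distrib := fun a b c => map_add (A'.mul a) b c
    right_distrib := fun a b c => LinearMap.map_add₂ A'.mul a b c
    zero_mul := fun a => LinearMap.map_zero₂ A'.mul a
    mul_zero := fun a => map_zero (A'.mul a)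
    mul_assoc := fun a b c => A'.mul_assoc a b c
    one_mul := fun a => A'.one_mul a
    mul_one := fun a => A'.mul_one a }


instance (A' : DGA k) : Algebra k (RA A') :=
  letI : Module k (RA A') := A'.mod
  Algebra.ofModule (fun c a b => LinearMap.map_smul₂ A'.mul c a b)
    (fun c a b => map_smul (A'.mul a) c b)

private theorem ofDg_leib (A' : DGA k) (i : ℤ) (a b : A'.A) (ha : a ∈ (Cx.ofDg A'.dg).gr i) :
    (Cx.ofDg A'.dg).d (A'.mul a b) =
      A'.mul ((Cx.ofDg A'.dg).d a) b + i.negOnePow • A'.mul a ((Cx.ofDg A'.dg).d b) := by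
  have hd : ∀ v : A'.A, (Cx.ofDg A'.dg).d v = A'.dg.d v := fun v => (Cx.ofDg_rep A'.dg).d v
  have hs : A'.dg.s a = i.negOnePow • a := (Cx.ofDg_rep A'.dg).s ha
  rw [hd, hd, hd, A'.leibniz, hs, Units.smul_def, Units.smul_def, map_zsmul,
    LinearMap.smul_apply]

/-- The dg algebra `A'` in terms of the algebra `RA A'`. -/
noncomputable def DG.of (A' : DGA k) : DG k (RA A') where
  toCx := (Cx.ofDg A'.dg : Cx k A'.A)
  one_mem := ((Cx.ofDg_rep A'.dg).mem 0 A'.one).2 A'.one_deg
  mul_mem := fun i j a b ha hb => ((Cx.ofDg_rep A'.dg).mem (i + j) (A'.mul a b)).2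
    (A'.mul_deg (((Cx.ofDg_rep A'.dg).mem i a).1 ha) (((Cx.ofDg_rep A'.dg).mem j b).1 hb))
  leibniz := fun i a b ha => ofDg_leib A' i a b ha

noncomputable def repOf (A' : DGA k) : Rep (DG.of A') A' where
  e :=
    { toFun := fun a => (a : A'.A)
      invFun := fun a => (a : A'.A)
      left_inv := fun _ => rfl
      right_inv := fun _ => rfl
      map_add' := fun _ _ => rfl
      map_smul' := fun _ _ => rfl }
  one := rfl
  mul := fun _ _ => rfl
  rep :=
    { mem := fun n v => (Cx.ofDg_rep A'.dg).mem n v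
      d := fun v => (Cx.ofDg_rep A'.dg).d v }

private theorem repA_eq {X : DG k A} {A' : DGA k} (r : Rep X A') (a : A'.A) :
    r.e (r.e.symm a) = a := r.e.apply_symm_apply a

private theorem repA_deg {X : DG k A} {A' B' : DGA k} (r : Rep X A') (s : Rep X B') {i : ℤ}
    {a : A'.A} (ha : A'.dg.IsDeg i a) : B'.dg.IsDeg i (s.e (r.e.symm a)) := by
  rw [← s.rep.mem i, r.rep.mem i, repA_eq]
  exact ha

/-- The homomorphism of dg algebras given by two representations. -/
private noncomputable def repA_hom {X : DG k A} {A' B' : DGA k} (r : Rep X A') (s : Rep X B') :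
    DHom A' B' where
  f := (r.e.symm.trans s.e).toLinearMap
  deg := fun {_ _} ha => repA_deg r s ha
  d := by
    intro a
    change B'.dg.d (s.e (r.e.symm a)) = s.e (r.e.symm (A'.dg.d a))
    rw [← s.rep.d]
    congr 1
    apply r.e.injective
    rw [r.rep.d, repA_eq, repA_eq]
  one := by
    change s.e (r.e.symm A'.one) = B'.one
    rw [← r.one, r.e.symm_apply_apply, s.one]
  mul := by
    intro a b
    change s.e (r.e.symm (A'.mul a b)) = B'.mul (s.e (r.e.symm a)) (s.e (r.e.symm b))
    rw [← s.mul]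
    congr 1
    apply r.e.injective
    rw [r.mul, repA_eq, repA_eq, repA_eq]

/-- Two dg algebras with the same representation are isomorphic. -/
noncomputable def Rep.diso {X : DG k A} {A' B' : DGA k} (r : Rep X A') (s : Rep X B') :
    DIso A' B' where
  hom := repA_hom r s
  inv := repA_hom s r
  hom_inv := by
    intro a
    change r.e (s.e.symm (s.e (r.e.symm a))) = a
    rw [s.e.symm_apply_apply, repA_eq]
  inv_hom := by
    intro a
    change s.e (r.e.symm (r.e (s.e.symm a))) = a
    rw [r.e.symm_apply_apply, repA_eq]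

theorem Rep.diso_hom {X : DG k A} {A' B' : DGA k} (r : Rep X A') (s : Rep X B') (a : A) :
    (r.diso s).hom.f (r.e a) = s.e a := by
  change s.e (r.e.symm (r.e a)) = s.e a
  rw [r.e.symm_apply_apply]

end Pool.Agent.MP_6e5bed_ag_SP
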