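import Pool.Agent.Lib.MP_6e5bed_ag_BC.BCFinal
import Pool.Agent.Lib.MP_6e5bed_ag_BC.RsDefs

set_option autoImplicit false

/-!
# Transitivity of the extension of scalars
-/

namespace Pool.Agent.MP_6e5bed_ag_NC

attribute [local instance] Alg.iR Alg.iA Cf.iG Cf.iM Rs.iG Rs.iM

open CategoryTheory MonoidalCategory Pool.Agent.MP_6e5bed_ag

universe u

section

variable {k : Type u} [CommRing k] (S T : Type u) [CommRing S] [Algebra k S] [CommRing T]
  [Algebra k T] [Algebra S T] [IsScalarTower k S T] (A : DGA k)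

private noncomputable def bcTransF : ((A.bc S).bc T).A →ₗ[T] (A.bc T).A :=
  DGA.lift (A := A.bc S) (S := T) (push (IsScalarTower.toAlgHom k S T) A)
    (fun s x => push_smul (IsScalarTower.toAlgHom k S T) s x)

private theorem bcTransF_ι (x : (A.bc S).A) :
    bcTransF S T A ((A.bc S).ι T x) = push (IsScalarTower.toAlgHom k S T) A x :=
  DGA.lift_ι _ _ x

private noncomputable def bcTransHom : DHom ((A.bc S).bc T) (A.bc T) :=
  DHom.ofBc (A := A.bc S) (bcTransF S T A)
    (fun ha => by
      rw [bcTransF_ι]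
      exact push_deg _ ha)
    (fun a => by
      rw [bcTransF_ι, bcTransF_ι, push_d])
    (by rw [bcTransF_ι, push_one])
    (fun a b => by
      rw [bcTransF_ι, bcTransF_ι, bcTransF_ι, push_mul])

private noncomputable def bcTransG : (A.bc T).A →ₗ[T] ((A.bc S).bc T).A :=
  DGA.lift (A := A) (S := T) (((A.bc S).ι T).comp (A.ι S))
    (fun r a => by
      change (A.bc S).ι T (A.ι S (r • a)) = algebraMap k T r • (A.bc S).ι T (A.ι S a)
      rw [DGA.ι_smul, DGA.ι_smul, ← IsScalarTower.algebraMap_apply k S T])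

private theorem bcTransG_ι (a : A.A) :
    bcTransG S T A (A.ι T a) = (A.bc S).ι T (A.ι S a) :=
  DGA.lift_ι _ _ a

private noncomputable def bcTransInv : DHom (A.bc T) ((A.bc S).bc T) :=
  DHom.ofBc (A := A) (bcTransG S T A)
    (fun ha => by
      rw [bcTransG_ι]
      exact DGA.ι_deg (DGA.ι_deg ha))
    (fun a => by
      rw [bcTransG_ι, bcTransG_ι, DGA.ι_d, DGA.ι_d])
    (by rw [bcTransG_ι, DGA.ι_one, DGA.ι_one])
    (fun a b => by
      rw [bcTransG_ι, bcTransG_ι, bcTransG_ι, DGA.ι_mul, DGA.ι_mul])

/-- The extension of scalars to `S` and then to `T` is the extension of scalars to `T`. -/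
noncomputable def bcTrans : DIso ((A.bc S).bc T) (A.bc T) where
  hom := bcTransHom S T A
  inv := bcTransInv S T A
  hom_inv := fun x => by
    have h : (bcTransG S T A).comp (bcTransF S T A) = LinearMap.id :=
      DGA.ι_ext (A := A.bc S) (fun y => by
        rw [LinearMap.comp_apply, bcTransF_ι, LinearMap.id_apply]
        refine DGA.ι_ind (P := fun y => bcTransG S T A
          (push (IsScalarTower.toAlgHom k S T) A y) = (A.bc S).ι T y) ?_ ?_ ?_ y
        · rw [map_zero, map_zero, map_zero]
        · intro y y' hy hy'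
          rw [map_add, map_add, hy, hy', map_add]
        · intro s a
          rw [push_smul, push_ι, map_smul, bcTransG_ι, DGA.ι_smul]
          rfl)
    exact LinearMap.congr_fun h x
  inv_hom := fun x => by
    have h : (bcTransF S T A).comp (bcTransG S T A) = LinearMap.id :=
      DGA.ι_ext (A := A) (fun a => by
        rw [LinearMap.comp_apply, bcTransG_ι, bcTransF_ι, push_ι, LinearMap.id_apply])
    exact LinearMap.congr_fun h x

end

theorem kimuraFinite_bcTrans {k : Type u} [CommRing k] (S T : Type u) [CommRing S] [Algebra k S]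
    [Field T] [Algebra k T] [Algebra S T] [IsScalarTower k S T] (A : SP k) :
    KimuraFinite (U ((A.bc S).bc T)) ↔ KimuraFinite (U (A.bc T)) := by
  rw [kimuraFinite_U_iff, kimuraFinite_U_iff]
  exact ⟨OpKF.of_iso (mkIso (A := (A.bc S).bc T) (B := A.bc T) (bcTrans S T A.alg)),
    OpKF.of_iso (mkIso (A := (A.bc S).bc T) (B := A.bc T) (bcTrans S T A.alg)).symm⟩

end Pool.Agent.MP_6e5bed_ag_NC
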