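import Mathlib

set_option autoImplicit false

/-!
# dg algebras, dg bimodules, perfect bimodules, noncommutative Chow motives

All conventions are cohomological: differentials have degree `1`, the Koszul sign rule is used.
The dg algebra `A` is a `k`-algebra `A` with a structure `X : DG k A` (a grading and a
differential). A dg `A`-`B`-bimodule is an `A`-`B`-bimodule `M` with a structure `Z : Bm X Y M`; the
right action of `B` is given as a left action of `Bᵐᵒᵖ`: `m b` is `op b • m`.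
-/

namespace Pool.Agent.MP_6e5bed_ag_SP

open CategoryTheory MonoidalCategory MulOpposite
open scoped TensorProduct

universe u

section defs

variable {k : Type u} [CommRing k]

/-- A complex of `k`-modules: a grading of `V` and a differential of degree `1`. -/
structure Cx (k V : Type u) [CommRing k] [AddCommGroup V] [Module k V] where
  gr : ℤ → Submodule k V
  d : V →ₗ[k] V
  internal : DirectSum.IsInternal gr
  d_mem : ∀ i v, v ∈ gr i → d v ∈ gr (i + 1)
  d_d : ∀ v, d (d v) = 0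

/-- The structure of a dg algebra on the `k`-algebra `A`. -/
structure DG (k A : Type u) [CommRing k] [Ring A] [Algebra k A] extends Cx k A where
  one_mem : (1 : A) ∈ gr 0
  mul_mem : ∀ i j a b, a ∈ gr i → b ∈ gr j → a * b ∈ gr (i + j)
  leibniz : ∀ i a b, a ∈ gr i → d (a * b) = d a * b + i.negOnePow • (a * d b)

variable {A B D M N P : Type u} [Ring A] [Algebra k A] [Ring B] [Algebra k B] [Ring D]
  [Algebra k D] [AddCommGroup M] [Module k M] [Module A M] [Module Bᵐᵒᵖ M]
  [AddCommGroup N] [Module k N] [Module A N] [Module Bᵐᵒᵖ N]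
  [AddCommGroup P] [Module k P] [Module A P] [Module Bᵐᵒᵖ P]

/-- The structure of a dg `A`-`B`-bimodule on `M`. -/
structure Bm (X : DG k A) (Y : DG k B) (M : Type u) [AddCommGroup M] [Module k M] [Module A M]
    [Module Bᵐᵒᵖ M] extends Cx k M where
  smul_l : ∀ (c : k) (a : A) (m : M), (c • a) • m = c • a • m
  smul_r : ∀ (c : k) (b : B) (m : M), op (c • b) • m = c • op b • m
  comm : ∀ (a : A) (b : B) (m : M), a • op b • m = op b • a • m
  mem_l : ∀ i j (a : A) (m : M), a ∈ X.gr i → m ∈ gr j → a • m ∈ gr (i + j)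
  mem_r : ∀ i j (b : B) (m : M), m ∈ gr i → b ∈ Y.gr j → op b • m ∈ gr (i + j)
  d_l : ∀ i (a : A) (m : M), a ∈ X.gr i → d (a • m) = X.d a • m + i.negOnePow • a • d m
  d_r : ∀ i (b : B) (m : M), m ∈ gr i → d (op b • m) = op b • d m + i.negOnePow • op (Y.d b) • m

variable {X : DG k A} {Y : DG k B}

/-- `f` is a map of degree `n` of graded bimodules, in the graded sense. -/
structure IsG (Z : Bm X Y M) (W : Bm X Y N) (n : ℤ) (f : M →ₗ[k] N) : Prop where
  mem : ∀ i m, m ∈ Z.gr i → f m ∈ W.gr (i + n)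
  l : ∀ i a m, a ∈ X.gr i → f (a • m) = (n * i).negOnePow • a • f m
  r : ∀ (b : B) m, f (op b • m) = op b • f m

/-- `f` is a homomorphism of dg bimodules (of degree `0`). -/
def IsHom (Z : Bm X Y M) (W : Bm X Y N) (f : M →ₗ[k] N) : Prop :=
  IsG Z W 0 f ∧ ∀ m, f (Z.d m) = W.d (f m)

/-- There is a short exact sequence `0 → M → N → P → 0` of dg bimodules, which splits as a
sequence of graded bimodules. -/
def IsExt (Z : Bm X Y M) (W : Bm X Y N) (V : Bm X Y P) : Prop :=
  ∃ (i : M →ₗ[k] N) (p : N →ₗ[k] P) (r : N →ₗ[k] M) (s : P →ₗ[k] N), IsHom Z W i ∧ IsHom W V p ∧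
    IsG W Z 0 r ∧ IsG V W 0 s ∧ (∀ m, r (i m) = m) ∧ (∀ m, p (s m) = m) ∧ (∀ m, p (i m) = 0) ∧
    ∀ m, i (r m) + s (p m) = m

/-- `M` is a direct summand of `N`. -/
def IsSummand (Z : Bm X Y M) (W : Bm X Y N) : Prop :=
  ∃ (i : M →ₗ[k] N) (r : N →ₗ[k] M), IsHom Z W i ∧ IsHom W Z r ∧ ∀ m, r (i m) = m

/-- `M` is contractible: its identity is homotopic to zero. -/
def Contractible (Z : Bm X Y M) : Prop :=
  ∃ h : M →ₗ[k] M, IsG Z Z (-1) h ∧ ∀ m, Z.d (h m) + h (Z.d m) = m

/-- `M` is free of rank one: `A ⊗ B → M`, `a ⊗ b ↦ a e b`, is bijective for a closed element `e`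
of degree `0`. -/
def IsFree (Z : Bm X Y M) : Prop :=
  ∃ (e : M) (f : A ⊗[k] B →ₗ[k] M), e ∈ Z.gr 0 ∧ Z.d e = 0 ∧
    (∀ (a : A) (b : B), f (a ⊗ₜ b) = a • op b • e) ∧ Function.Bijective f

/-- The perfect dg bimodules: the smallest class which contains the free bimodules of rank one and
the contractible ones and is closed under direct summands and under the two-out-of-three rule for
short exact sequences. -/
inductive Perf {A B : Type u} [Ring A] [Algebra k A] [Ring B] [Algebra k B] {X : DG k A}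
    {Y : DG k B} : ∀ {M : Type u} [AddCommGroup M] [Module k M] [Module A M] [Module Bᵐᵒᵖ M],
    Bm X Y M → Prop
  | free {M : Type u} [AddCommGroup M] [Module k M] [Module A M] [Module Bᵐᵒᵖ M]
      {Z : Bm X Y M} : IsFree Z → Perf Z
  | contr {M : Type u} [AddCommGroup M] [Module k M] [Module A M] [Module Bᵐᵒᵖ M]
      {Z : Bm X Y M} : Contractible Z → Perf Z
  | mid {M N P : Type u} [AddCommGroup M] [Module k M] [Module A M] [Module Bᵐᵒᵖ M]
      [AddCommGroup N] [Module k N] [Module A N] [Module Bᵐᵒᵖ N]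
      [AddCommGroup P] [Module k P] [Module A P] [Module Bᵐᵒᵖ P]
      {Z : Bm X Y M} {W : Bm X Y N} {V : Bm X Y P} : IsExt Z W V → Perf Z → Perf V → Perf W
  | left {M N P : Type u} [AddCommGroup M] [Module k M] [Module A M] [Module Bᵐᵒᵖ M]
      [AddCommGroup N] [Module k N] [Module A N] [Module Bᵐᵒᵖ N]
      [AddCommGroup P] [Module k P] [Module A P] [Module Bᵐᵒᵖ P]
      {Z : Bm X Y M} {W : Bm X Y N} {V : Bm X Y P} : IsExt Z W V → Perf W → Perf V → Perf Z
  | right {M N P : Type u} [AddCommGroup M] [Module k M] [Module A M] [Module Bᵐᵒᵖ M]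
      [AddCommGroup N] [Module k N] [Module A N] [Module Bᵐᵒᵖ N]
      [AddCommGroup P] [Module k P] [Module A P] [Module Bᵐᵒᵖ P]
      {Z : Bm X Y M} {W : Bm X Y N} {V : Bm X Y P} : IsExt Z W V → Perf Z → Perf W → Perf V
  | summand {M N : Type u} [AddCommGroup M] [Module k M] [Module A M] [Module Bᵐᵒᵖ M]
      [AddCommGroup N] [Module k N] [Module A N] [Module Bᵐᵒᵖ N]
      {Z : Bm X Y M} {W : Bm X Y N} : IsSummand Z W → Perf W → Perf Z

/-- The closed map `f` of degree `0` is a homotopy equivalence of complexes of `k`-modules. -/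
def IsHtpyEq {V W : Type u} [AddCommGroup V] [Module k V] [AddCommGroup W] [Module k W]
    (Z : Cx k V) (Z' : Cx k W) (f : V →ₗ[k] W) : Prop :=
  (∀ i v, v ∈ Z.gr i → f v ∈ Z'.gr i) ∧ (∀ v, f (Z.d v) = Z'.d (f v)) ∧
    ∃ (g : W →ₗ[k] V) (h : V →ₗ[k] V) (h' : W →ₗ[k] W), (∀ i w, w ∈ Z'.gr i → g w ∈ Z.gr i) ∧
      (∀ w, g (Z'.d w) = Z.d (g w)) ∧ (∀ i v, v ∈ Z.gr (i + 1) → h v ∈ Z.gr i) ∧
      (∀ i w, w ∈ Z'.gr (i + 1) → h' w ∈ Z'.gr i) ∧ (∀ v, g (f v) = v + Z.d (h v) + h (Z.d v)) ∧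
      ∀ w, f (g w) = w + Z'.d (h' w) + h' (Z'.d w)

/-- The diagonal bimodule `A`. -/
def diag (X : DG k A) : Bm X X A where
  toCx := X.toCx
  smul_l := fun c a m => smul_mul_assoc c a m
  smul_r := fun c b m => mul_smul_comm c m b
  comm := fun a b m => (mul_assoc a m b).symm
  mem_l := fun i j a m ha hm => X.mul_mem i j a m ha hm
  mem_r := fun i j b m hm hb => X.mul_mem i j m b hm hb
  d_l := fun i a m ha => X.leibniz i a m ha
  d_r := fun i b m hm => X.leibniz i m b hm

/-- `M` is a perfect resolution of the diagonal bimodule: `M` is perfect, with a closed map of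
bimodules `M → A` which is a homotopy equivalence of complexes of `k`-modules. -/
def IsRes {M : Type u} [AddCommGroup M] [Module k M] [Module A M] [Module Aᵐᵒᵖ M]
    (Z : Bm X X M) : Prop :=
  Perf Z ∧ ∃ f : M →ₗ[k] A, IsHom Z (diag X) f ∧ IsHtpyEq Z.toCx X.toCx f

/-- The dg algebra `A` is smooth and proper over `k`: the diagonal bimodule has a perfect
resolution, and the complex `A` is homotopy equivalent to a bounded complex of finitely
generated projective modules. -/
def SmPr (X : DG k A) : Prop :=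
  (∃ (M : Type u) (_ : AddCommGroup M) (_ : Module k M) (_ : Module A M) (_ : Module Aᵐᵒᵖ M)
    (Z : Bm X X M), IsRes Z) ∧
  ∃ (V : Type u) (_ : AddCommGroup V) (_ : Module k V) (Z : Cx k V) (f : V →ₗ[k] A),
    Module.Finite k V ∧ Module.Projective k V ∧ IsHtpyEq Z X.toCx f

/-- The bilinear map `t` makes the dg bimodule `P` a tensor product of `M` and `N` over `B`. -/
structure IsTb {W : DG k D} {M N P : Type u} [AddCommGroup M] [Module k M] [Module A M]
    [Module Bᵐᵒᵖ M] [AddCommGroup N] [Module k N] [Module B N] [Module Dᵐᵒᵖ N]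
    [AddCommGroup P] [Module k P] [Module A P] [Module Dᵐᵒᵖ P] (Z : Bm X Y M) (Z' : Bm Y W N)
    (T : Bm X W P) (t : M →ₗ[k] N →ₗ[k] P) : Prop where
  balanced : ∀ m (b : B) n, t (op b • m) n = t m (b • n)
  univ : ∀ (V : Type u) [AddCommGroup V] [Module k V] (β : M →ₗ[k] N →ₗ[k] V),
    (∀ m (b : B) n, β (op b • m) n = β m (b • n)) → ∃! h : P →ₗ[k] V, ∀ m n, h (t m n) = β m n
  l : ∀ (a : A) m n, t (a • m) n = a • t m n
  r : ∀ (c : D) m n, t m (op c • n) = op c • t m n
  mem : ∀ i j m n, m ∈ Z.gr i → n ∈ Z'.gr j → t m n ∈ T.gr (i + j)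
  d : ∀ i m n, m ∈ Z.gr i → T.d (t m n) = t (Z.d m) n + i.negOnePow • t m (Z'.d n)

end defs

section tensor

variable {k : Type u} [CommRing k] {A A' AA B B' BB M M' MM : Type u} [Ring A] [Algebra k A]
  [Ring A'] [Algebra k A'] [Ring AA] [Algebra k AA] [Ring B] [Algebra k B] [Ring B'] [Algebra k B']
  [Ring BB] [Algebra k BB]

/-- The dg algebra `AA` is the tensor product of `A` and `A'` over `k`, by means of the
homomorphisms `i : A → AA` and `i' : A' → AA`. -/
structure IsTens (X : DG k A) (X' : DG k A') (E : DG k AA) (i : A →ₐ[k] AA) (i' : A' →ₐ[k] AA) :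
    Prop where
  mem : ∀ n a, a ∈ X.gr n → i a ∈ E.gr n
  mem' : ∀ n a, a ∈ X'.gr n → i' a ∈ E.gr n
  d : ∀ a, E.d (i a) = i (X.d a)
  d' : ∀ a, E.d (i' a) = i' (X'.d a)
  comm : ∀ p q a a', a ∈ X.gr p → a' ∈ X'.gr q → i' a' * i a = (p * q).negOnePow • (i a * i' a')
  bij : Function.Bijective
    (LinearMap.mul' k AA ∘ₗ TensorProduct.map i.toLinearMap i'.toLinearMap : A ⊗[k] A' →ₗ[k] AA)

/-- The dg bimodule `MM` is the external tensor product of `M` and `M'`, by means of the bilinear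
map `t`. -/
structure IsBox {X : DG k A} {X' : DG k A'} {E : DG k AA} {Y : DG k B} {Y' : DG k B'}
    {F : DG k BB} (i : A →ₐ[k] AA) (i' : A' →ₐ[k] AA) (j : B →ₐ[k] BB) (j' : B' →ₐ[k] BB)
    {M M' MM : Type u} [AddCommGroup M] [Module k M] [Module A M] [Module Bᵐᵒᵖ M]
    [AddCommGroup M'] [Module k M'] [Module A' M'] [Module B'ᵐᵒᵖ M']
    [AddCommGroup MM] [Module k MM] [Module AA MM] [Module BBᵐᵒᵖ MM]
    (Z : Bm X Y M) (Z' : Bm X' Y' M') (T : Bm E F MM) (t : M →ₗ[k] M' →ₗ[k] MM) : Prop where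
  l : ∀ a m m', t (a • m) m' = i a • t m m'
  l' : ∀ p q a m m', m ∈ Z.gr p → a ∈ X'.gr q → t m (a • m') = (p * q).negOnePow • i' a • t m m'
  r : ∀ p q b m m', m' ∈ Z'.gr p → b ∈ Y.gr q →
    t (op b • m) m' = (p * q).negOnePow • op (j b) • t m m'
  r' : ∀ b m m', t m (op b • m') = op (j' b) • t m m'
  mem : ∀ p q m m', m ∈ Z.gr p → m' ∈ Z'.gr q → t m m' ∈ T.gr (p + q)
  d : ∀ p m m', m ∈ Z.gr p → T.d (t m m') = t (Z.d m) m' + p.negOnePow • t m (Z'.d m')
  bij : Function.Bijective (TensorProduct.lift t)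

end tensor

end Pool.Agent.MP_6e5bed_ag_SP
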