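import Pool.Agent.Lib.MP_6e5bed_ag_SP.BcTrans
import Pool.Agent.Lib.MP_6e5bed_ag_SP.Final

set_option autoImplicit false

/-!
# The Kimura-finite locus of a family of smooth proper dg algebras
-/

namespace Pool.Agent.MP_6e5bed_ag_NC

attribute [local instance] Alg.iR Alg.iA Cf.iG Cf.iM Rs.iG Rs.iM

open CategoryTheory MonoidalCategory Pool.Agent.MP_6e5bed_ag

universe u

variable {R : Type u} [CommRing R]

private theorem locus_field (A : SP R) (I : Ideal R) [I.IsPrime] (L : Type u) [Field L]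
    [Algebra R L] (h : RingHom.ker (algebraMap R L) = I) : KimuraFinite (U (A.bc L)) ↔
      KimuraFinite (U ((A.bc (R ⧸ I)).bc (FractionRing (R ⧸ I)))) := by
  have hI : ∀ a ∈ I, algebraMap R L a = 0 := fun a ha => by
    rw [← h] at ha
    exact ha
  let _ : Algebra (R ⧸ I) L := (Ideal.Quotient.lift I (algebraMap R L) hI).toAlgebra
  have _ : IsScalarTower R (R ⧸ I) L := IsScalarTower.of_algebraMap_eq (fun r => rfl)
  have _ : FaithfulSMul (R ⧸ I) L := by
    rw [faithfulSMul_iff_algebraMap_injective, injective_iff_map_eq_zero]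
    intro a ha
    obtain ⟨a, rfl⟩ := Ideal.Quotient.mk_surjective a
    rw [Ideal.Quotient.eq_zero_iff_mem, ← h]
    exact ha
  let _ : Algebra (FractionRing (R ⧸ I)) L := FractionRing.liftAlgebra (R ⧸ I) L
  have _ : IsScalarTower (R ⧸ I) (FractionRing (R ⧸ I)) L :=
    FractionRing.isScalarTower_liftAlgebra (R ⧸ I) L
  rw [← kimuraFinite_bcTrans (R ⧸ I) L A, ← kimuraFinite_bcTrans (FractionRing (R ⧸ I)) L,
    kimuraFinite_bc_iff]

/-- The locus of Kimura-finiteness of a family. -/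
theorem SP.exists_locus (A : SP R) : ∃ E : Set (PrimeSpectrum R),
    (∀ x ∈ E, ∃ f : R, f ∉ x.asIdeal ∧
      ∀ y : PrimeSpectrum R, x.asIdeal ≤ y.asIdeal → f ∉ y.asIdeal → y ∈ E) ∧
    ∀ (L : Type u) [Field L] [Algebra R L], KimuraFinite (U (A.bc L)) ↔
      PrimeSpectrum.comap (algebraMap R L) ⊥ ∈ E := by
  refine ⟨{x | KimuraFinite (U ((A.bc (R ⧸ x.asIdeal)).bc (FractionRing (R ⧸ x.asIdeal))))},
    fun x hx => ?_, fun L _ _ => locus_field A _ L rfl⟩
  obtain ⟨f, hf, h⟩ := exists_kimuraFinite_bc (A.bc (R ⧸ x.asIdeal)) hx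
  obtain ⟨f, rfl⟩ := Ideal.Quotient.mk_surjective f
  refine ⟨f, fun hf' => hf (Ideal.Quotient.eq_zero_iff_mem.2 hf'), fun y hxy hfy => ?_⟩
  let L := FractionRing (R ⧸ y.asIdeal)
  let _ : Algebra (R ⧸ x.asIdeal) L :=
    ((algebraMap (R ⧸ y.asIdeal) L).comp (Ideal.Quotient.factor hxy)).toAlgebra
  have _ : IsScalarTower R (R ⧸ x.asIdeal) L := IsScalarTower.of_algebraMap_eq (fun r => by
    rw [IsScalarTower.algebraMap_apply R (R ⧸ y.asIdeal) L]
    rfl)
  have hk : RingHom.ker (algebraMap R L) = y.asIdeal := by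
    ext r
    rw [RingHom.mem_ker, IsScalarTower.algebraMap_apply R (R ⧸ y.asIdeal) L,
      FaithfulSMul.algebraMap_eq_zero_iff]
    exact Ideal.Quotient.eq_zero_iff_mem
  have h1 : algebraMap (R ⧸ x.asIdeal) L (Ideal.Quotient.mk x.asIdeal f) ≠ 0 := by
    intro h2
    apply hfy
    rw [← hk]
    exact (IsScalarTower.algebraMap_apply R (R ⧸ x.asIdeal) L f).trans h2
  have h2 := h L h1
  rw [kimuraFinite_bcTrans] at h2
  exact (locus_field A y.asIdeal L hk).1 h2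

end Pool.Agent.MP_6e5bed_ag_NC

namespace Pool.Agent.MP_6e5bed_ag_SP

open CategoryTheory MonoidalCategory Pool.Agent.MP_6e5bed_ag Pool.Agent.MP_6e5bed_ag_NC

universe u

/-- The Kimura-finite locus of a family. -/
theorem exists_locus {R A : Type u} [CommRing R] [Ring A] [Algebra R A] {X : DG R A}
    (hX : SmPr X) : ∃ E : Set (PrimeSpectrum R),
      (∀ x ∈ E, ∃ f : R, f ∉ x.asIdeal ∧
        ∀ y : PrimeSpectrum R, x.asIdeal ≤ y.asIdeal → f ∉ y.asIdeal → y ∈ E) ∧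
      ∀ (L : Type u) [Field L] [Algebra R L] (B : Type u) [Ring B] [Algebra R B] [Algebra L B]
        [IsScalarTower R L B] (Y : DG L B) (j : A →ₐ[R] B), IsBc X Y j → ∃ hY : SmPr Y,
        ∀ (C : Type (u + 1)) [Category.{u + 1} C] [MonoidalCategory C] [SymmetricCategory C]
        [Preadditive C] [MonoidalPreadditive C] [Linear ℚ C] (H : NCMot L C),
        KimuraFinite (H.U Y hY) ↔ PrimeSpectrum.comap (algebraMap R L) ⊥ ∈ E := by
  obtain ⟨S, hS⟩ : ∃ S : SP R, S = ⟨X.toDGA, hX.smooth X.toRep, hX.proper X.toRep⟩ := ⟨_, rfl⟩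
  have hS' : Nonempty (Rep X S.alg) := by
    rw [hS]
    exact ⟨X.toRep⟩
  obtain ⟨r⟩ := hS'
  obtain ⟨E, hE, hE'⟩ := S.exists_locus
  refine ⟨E, hE, fun L _ _ B _ _ _ _ Y j hj => ⟨hj.smPr hX, fun C _ _ _ _ _ _ H => ?_⟩⟩
  obtain ⟨s⟩ := hj.exists_rep r
  exact (H.kimuraFinite_iff _ (S.bc L) s).trans (hE' L)


end Pool.Agent.MP_6e5bed_ag_SP
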