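import Pool.Agent.Lib.MP_6e5bed_ag_SP.RepPerf
import Pool.Agent.Lib.MP_6e5bed_ag_SP.RepA

set_option autoImplicit false

/-!
# Comparison of Grothendieck groups
-/

namespace Pool.Agent.MP_6e5bed_ag_SP

open MulOpposite Pool.Agent.MP_6e5bed_ag_NC

universe u

variable {k : Type u} [CommRing k] {A B : Type u} [Ring A] [Algebra k A] [Ring B] [Algebra k B]
  {X : DG k A} {Y : DG k B} {A' B' : DGA k} {r : Rep X A'} {s : Rep Y B'}
  {V : Type (u + 1)} [AddCommGroup V]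

/-- The value of an additive function on a contractible bimodule, and its invariance under
isomorphisms. -/
theorem IsAdd.iso {φ : ∀ {M : Type u} [AddCommGroup M] [Module k M] [Module A M]
    [Module Bᵐᵒᵖ M] (Z : Bm X Y M), Perf Z → V} (h : IsAdd X Y (fun Z h => φ Z h))
    {M N : Type u} [AddCommGroup M] [Module k M] [Module A M] [Module Bᵐᵒᵖ M]
    [AddCommGroup N] [Module k N] [Module A N] [Module Bᵐᵒᵖ N] {Z : Bm X Y M} {W : Bm X Y N}
    {M' : Bim A' B'} (ρ : RepB r s Z M') (σ : RepB r s W M') (hZ : Perf Z) (hW : Perf W) :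
    φ Z hZ = φ W hW := by
  obtain ⟨T, hT, hT0⟩ := contr_zero (A := A') (B := B')
  have h1 : MP_6e5bed_ag_NC.IsExt M' M' T := ⟨GMap.id M', 0, GMap.id M', 0,
    LinearMap.ext GMap.dd_id, LinearMap.ext (fun x => GMap.dd_zero x), fun _ => rfl,
    fun x => by rw [hT0 x]; rfl, fun _ => rfl, fun x => map_zero _, fun x => add_zero x⟩
  have h2 : Contractible (Bm.of r s T) := (Bm.ofRepB r s T).contr.2 hT
  have h3 : IsExt Z W (Bm.of r s T) := (RepB.isExt ρ σ (Bm.ofRepB r s T)).2 h1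
  have h4 := h.ext Z W (Bm.of r s T) hZ hW (Perf.contr h2) h3
  rw [h.contr (Bm.of r s T) (Perf.contr h2) h2, add_zero] at h4
  exact h4.symm

/-- The Grothendieck group `K0Q A' B'` is the Grothendieck group of the perfect bimodules over `X`
and `Y`. -/
theorem isK0_cls (r : Rep X A') (s : Rep Y B') : IsK0 X Y (V := K0Q A' B')
    (fun Z h => cls (Z.toBim r s) (h.to (Z.toRepB r s))) := by
  refine ⟨⟨?_, ?_⟩, ?_⟩
  · intro M N P _ _ _ _ _ _ _ _ _ _ _ _ Z W Z' h h' h'' hE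
    exact K0Q.cls_ext _ _ _
      ((RepB.isExt (Z.toRepB r s) (W.toRepB r s) (Z'.toRepB r s)).1 hE)
  · intro M _ _ _ _ Z h hc
    exact K0Q.cls_contr _ ((Z.toRepB r s).contr.1 hc)
  · intro V' _ _ φ' hφ'
    refine ⟨K0Q.lift (fun M' h => φ' (Bm.of r s M') (Perf.of h (Bm.ofRepB r s M')))
      (fun {M' M M''} h' h h'' hE => hφ'.ext _ _ _ _ _ _
        ((RepB.isExt (Bm.ofRepB r s M') (Bm.ofRepB r s M) (Bm.ofRepB r s M'')).2 hE))
      (fun {M} h hc => hφ'.contr _ _ ((Bm.ofRepB r s M).contr.2 hc)), ?_, ?_⟩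
    · intro M _ _ _ _ Z h
      rw [K0Q.lift_cls]
      exact hφ'.iso (Bm.ofRepB r s (Z.toBim r s)) (Z.toRepB r s) _ _
    · intro G hG
      refine K0Q.hom_ext (fun M' hM => ?_)
      rw [K0Q.lift_cls, ← hG (Bm.of r s M') (Perf.of hM (Bm.ofRepB r s M'))]
      congr 1
      exact K0Q.cls_iso ((Bm.ofRepB r s M').biso ((Bm.of r s M').toRepB r s)) _ _

section

variable [Module ℚ V] {φ : ∀ {M : Type u} [AddCommGroup M] [Module k M] [Module A M]
    [Module Bᵐᵒᵖ M] (Z : Bm X Y M), Perf Z → V} (h : IsK0 X Y (fun Z h => φ Z h))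

private theorem repCl_exf {φ : ∀ {M : Type u} [AddCommGroup M] [Module k M] [Module A M]
    [Module Bᵐᵒᵖ M] (Z : Bm X Y M), Perf Z → V} (h : IsK0 X Y (fun Z h => φ Z h))
    (r : Rep X A') (s : Rep Y B') : ∃ F : K0Q A' B' →ₗ[ℚ] V,
      ∀ {M : Type u} [AddCommGroup M] [Module k M] [Module A M] [Module Bᵐᵒᵖ M] (Z : Bm X Y M)
        (h : Perf Z), F (cls (Z.toBim r s) (h.to (Z.toRepB r s))) = φ Z h :=
  ((isK0_cls r s).2 V (fun Z h => φ Z h) h.1).exists

private theorem repCl_exg {φ : ∀ {M : Type u} [AddCommGroup M] [Module k M] [Module A M]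
    [Module Bᵐᵒᵖ M] (Z : Bm X Y M), Perf Z → V} (h : IsK0 X Y (fun Z h => φ Z h))
    (r : Rep X A') (s : Rep Y B') : ∃ F : V →ₗ[ℚ] K0Q A' B',
      ∀ {M : Type u} [AddCommGroup M] [Module k M] [Module A M] [Module Bᵐᵒᵖ M] (Z : Bm X Y M)
        (h : Perf Z), F (φ Z h) = cls (Z.toBim r s) (h.to (Z.toRepB r s)) :=
  (h.2 (K0Q A' B') (fun Z h => cls (Z.toBim r s) (h.to (Z.toRepB r s)))
    (isK0_cls r s).1).exists

/-- The map `K0Q A' B' → V`. -/
private noncomputable def repCl_f {φ : ∀ {M : Type u} [AddCommGroup M] [Module k M]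
    [Module A M] [Module Bᵐᵒᵖ M] (Z : Bm X Y M), Perf Z → V} (h : IsK0 X Y (fun Z h => φ Z h))
    (r : Rep X A') (s : Rep Y B') : K0Q A' B' →ₗ[ℚ] V := (repCl_exf h r s).choose

/-- The map `V → K0Q A' B'`. -/
private noncomputable def repCl_g {φ : ∀ {M : Type u} [AddCommGroup M] [Module k M]
    [Module A M] [Module Bᵐᵒᵖ M] (Z : Bm X Y M), Perf Z → V} (h : IsK0 X Y (fun Z h => φ Z h))
    (r : Rep X A') (s : Rep Y B') : V →ₗ[ℚ] K0Q A' B' := (repCl_exg h r s).choose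

private theorem repCl_f_cls {φ : ∀ {M : Type u} [AddCommGroup M] [Module k M]
    [Module A M] [Module Bᵐᵒᵖ M] (Z : Bm X Y M), Perf Z → V} (h : IsK0 X Y (fun Z h => φ Z h))
    (r : Rep X A') (s : Rep Y B') {M : Type u} [AddCommGroup M] [Module k M] [Module A M]
    [Module Bᵐᵒᵖ M] (Z : Bm X Y M) (hZ : Perf Z) :
    repCl_f h r s (cls (Z.toBim r s) (hZ.to (Z.toRepB r s))) = φ Z hZ :=
  (repCl_exf h r s).choose_spec Z hZ

private theorem repCl_g_cls {φ : ∀ {M : Type u} [AddCommGroup M] [Module k M]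
    [Module A M] [Module Bᵐᵒᵖ M] (Z : Bm X Y M), Perf Z → V} (h : IsK0 X Y (fun Z h => φ Z h))
    (r : Rep X A') (s : Rep Y B') {M : Type u} [AddCommGroup M] [Module k M] [Module A M]
    [Module Bᵐᵒᵖ M] (Z : Bm X Y M) (hZ : Perf Z) :
    repCl_g h r s (φ Z hZ) = cls (Z.toBim r s) (hZ.to (Z.toRepB r s)) :=
  (repCl_exg h r s).choose_spec Z hZ

private theorem repCl_fg {φ : ∀ {M : Type u} [AddCommGroup M] [Module k M]
    [Module A M] [Module Bᵐᵒᵖ M] (Z : Bm X Y M), Perf Z → V} (h : IsK0 X Y (fun Z h => φ Z h))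
    (r : Rep X A') (s : Rep Y B') : repCl_f h r s ∘ₗ repCl_g h r s = LinearMap.id := by
  refine (h.2 V (fun Z h => φ Z h) h.1).unique ?_ ?_
  · intro M _ _ _ _ Z hZ
    rw [LinearMap.comp_apply, repCl_g_cls h r s Z hZ, repCl_f_cls h r s Z hZ]
  · intro M _ _ _ _ Z hZ
    rfl

private theorem repCl_gf {φ : ∀ {M : Type u} [AddCommGroup M] [Module k M]
    [Module A M] [Module Bᵐᵒᵖ M] (Z : Bm X Y M), Perf Z → V} (h : IsK0 X Y (fun Z h => φ Z h))
    (r : Rep X A') (s : Rep Y B') : repCl_g h r s ∘ₗ repCl_f h r s = LinearMap.id := by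
  refine ((isK0_cls r s).2 (K0Q A' B') (fun Z h => cls (Z.toBim r s) (h.to (Z.toRepB r s)))
    (isK0_cls r s).1).unique ?_ ?_
  · intro M _ _ _ _ Z hZ
    rw [LinearMap.comp_apply, repCl_f_cls h r s Z hZ, repCl_g_cls h r s Z hZ]
  · intro M _ _ _ _ Z hZ
    rfl

/-- A Grothendieck group of the perfect bimodules over `X` and `Y` is isomorphic to
`K0Q A' B'`. -/
noncomputable def IsK0.equiv {φ : ∀ {M : Type u} [AddCommGroup M] [Module k M] [Module A M]
    [Module Bᵐᵒᵖ M] (Z : Bm X Y M), Perf Z → V} (h : IsK0 X Y (fun Z h => φ Z h))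
    (r : Rep X A') (s : Rep Y B') : K0Q A' B' ≃ₗ[ℚ] V :=
  LinearEquiv.ofLinearMap (repCl_f h r s) (repCl_g h r s) (repCl_fg h r s) (repCl_gf h r s)

theorem IsK0.equiv_cls {M : Type u} [AddCommGroup M] [Module k M] [Module A M]
    [Module Bᵐᵒᵖ M] {Z : Bm X Y M} (hZ : Perf Z) {M' : Bim A' B'} (ρ : RepB r s Z M')
    (hM : MP_6e5bed_ag_NC.Perf M') : h.equiv r s (cls M' hM) = φ Z hZ := by
  have h1 : cls M' hM = cls (Z.toBim r s) (hZ.to (Z.toRepB r s)) :=
    K0Q.cls_iso (ρ.biso (Z.toRepB r s)) _ _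
  rw [h1]
  exact repCl_f_cls h r s Z hZ

end

end Pool.Agent.MP_6e5bed_ag_SP
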