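import Pool.Agent.Lib.MP_6e5bed_ag_SP.RepMap
import Pool.Agent.Lib.MP_6e5bed_ag_NC.FTb

set_option autoImplicit false

/-!
# Comparison of tensor products over `B`
-/

namespace Pool.Agent.MP_6e5bed_ag_SP

open MulOpposite Pool.Agent.MP_6e5bed_ag_NC

universe u

variable {k : Type u} [CommRing k] {A B D M N P : Type u} [Ring A] [Algebra k A] [Ring B]
  [Algebra k B] [Ring D] [Algebra k D] [AddCommGroup M] [Module k M] [Module A M]
  [Module Bᵐᵒᵖ M] [AddCommGroup N] [Module k N] [Module B N] [Module Dᵐᵒᵖ N]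
  [AddCommGroup P] [Module k P] [Module A P] [Module Dᵐᵒᵖ P]
  {X : DG k A} {Y : DG k B} {W : DG k D} {A' B' D' : DGA k} {r : Rep X A'} {s : Rep Y B'}
  {w : Rep W D'} {Z : Bm X Y M} {Z' : Bm Y W N} {T : Bm X W P} {M' : Bim A' B'}
  {N' : Bim B' D'} {P' : Bim A' D'}

/-- The differential of `m ⊗ n` for homogeneous `m`. -/
private theorem repTb_d (ρ : RepB r s Z M') (σ : RepB s w Z' N') {i : ℤ} {m : M}
    (hm : m ∈ Z.gr i) (n : N) : (tb M' N').dg.d (tm (ρ.e m) (σ.e n)) =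
      tmB M' N' (ρ.e (Z.d m)) (σ.e n) +
        i.negOnePow • tmB M' N' (ρ.e m) (σ.e (Z'.d n)) := by
  rw [tb_d, ← ρ.rep.d, ← σ.rep.d, ρ.rep.s hm, negOnePow_smul, negOnePow_smul]
  congr 1

private theorem repTb_bal (ρ : RepB r s Z M') (σ : RepB s w Z' N') {V : Type u}
    [AddCommGroup V] [Module k V] {β : M →ₗ[k] N →ₗ[k] V}
    (hβ : ∀ m (b : B) n, β (op b • m) n = β m (b • n)) {β' : M'.M →ₗ[k] N'.M →ₗ[k] V}
    (h : ∀ m n, β' (ρ.e m) (σ.e n) = β m n) (m : M'.M) (b : B'.A) (n : N'.M) :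
    β' (M'.r b m) n = β' m (N'.l b n) := by
  obtain ⟨m, rfl⟩ := ρ.e.surjective m
  obtain ⟨b, rfl⟩ := s.e.surjective b
  obtain ⟨n, rfl⟩ := σ.e.surjective n
  rw [← ρ.r, ← σ.l, h, h, hβ]

/-- Balanced bilinear maps on the two sides. -/
private theorem repTb_lift (ρ : RepB r s Z M') (σ : RepB s w Z' N') {V : Type u}
    [AddCommGroup V] [Module k V] {β : M →ₗ[k] N →ₗ[k] V}
    (hβ : ∀ m (b : B) n, β (op b • m) n = β m (b • n)) :
    ∃ f : (tb M' N').M →ₗ[k] V, ∀ m n, f (tm (ρ.e m) (σ.e n)) = β m n := by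
  obtain ⟨β', hβ'⟩ : ∃ β' : M'.M →ₗ[k] N'.M →ₗ[k] V, ∀ m n, β' (ρ.e m) (σ.e n) = β m n :=
    ⟨β.compl₁₂ ρ.e.symm.toLinearMap σ.e.symm.toLinearMap, fun m n => by
      rw [LinearMap.compl₁₂_apply, LinearEquiv.coe_coe, LinearEquiv.coe_coe,
        LinearEquiv.symm_apply_apply, LinearEquiv.symm_apply_apply]⟩
  exact ⟨tlift β' (repTb_bal ρ σ hβ hβ'), fun m n => by rw [tlift_tm, hβ']⟩

private theorem repTb_ind (ρ : RepB r s Z M') (σ : RepB s w Z' N') {Q : (tb M' N').M → Prop}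
    (h0 : Q 0) (hadd : ∀ x y, Q x → Q y → Q (x + y)) (h : ∀ m n, Q (tm (ρ.e m) (σ.e n)))
    (x : (tb M' N').M) : Q x := by
  refine tb_ind h0 hadd (fun m n => ?_) x
  obtain ⟨m, rfl⟩ := ρ.e.surjective m
  obtain ⟨n, rfl⟩ := σ.e.surjective n
  exact h m n

/-- A tensor product of `M` and `N` is isomorphic to `tb M' N'`. -/
theorem IsTb.biso (ρ : RepB r s Z M') (σ : RepB s w Z' N') (τ : RepB r w T P')
    {t : M →ₗ[k] N →ₗ[k] P} (h : IsTb Z Z' T t) : BIso (tb M' N') P' := by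
  obtain ⟨f, hf⟩ := repTb_lift (V := P'.M) ρ σ (β := t.compr₂ τ.e.toLinearMap)
    (fun m b n => by rw [LinearMap.compr₂_apply, LinearMap.compr₂_apply, h.balanced])
  replace hf : ∀ m n, f (tm (ρ.e m) (σ.e n)) = τ.e (t m n) := fun m n => hf m n
  obtain ⟨g, hg, -⟩ := h.univ (tb M' N').M
    ((tmB M' N').compl₁₂ ρ.e.toLinearMap σ.e.toLinearMap) (fun m b n => by
      rw [LinearMap.compl₁₂_apply, LinearMap.compl₁₂_apply, LinearEquiv.coe_coe,
        LinearEquiv.coe_coe, ρ.r, σ.l, tmB_apply, tmB_apply, tm_r_l])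
  replace hg : ∀ m n, g (t m n) = tm (ρ.e m) (σ.e n) := fun m n => hg m n
  obtain ⟨φ, hφ⟩ : ∃ φ : GMap 0 (tb M' N') P', φ.f = f := by
    refine ⟨⟨f, fun {i x} hx => ?_, fun a x => ?_, fun c x => ?_⟩, rfl⟩
    · refine tb_degMap f (fun {i j v w'} hv hw => ?_) hx
      obtain ⟨m, rfl⟩ := ρ.e.surjective v
      obtain ⟨n, rfl⟩ := σ.e.surjective w'
      rw [hf, add_zero]
      exact (τ.rep.mem _ _).1 (h.mem _ _ _ _ ((ρ.rep.mem _ _).2 hv) ((σ.rep.mem _ _).2 hw))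
    · rw [Dg.sp_zero]
      obtain ⟨a, rfl⟩ := r.e.surjective a
      refine repTb_ind ρ σ (Q := fun x => f ((tb M' N').l (r.e a) x) = P'.l (r.e a) (f x))
        (by simp only [map_zero]) (fun x y hx hy => by simp only [map_add, hx, hy])
        (fun m n => ?_) x
      rw [tb_l, ← ρ.l, hf, hf, h.l, τ.l]
    · obtain ⟨c, rfl⟩ := w.e.surjective c
      refine repTb_ind ρ σ (Q := fun x => f ((tb M' N').r (w.e c) x) = P'.r (w.e c) (f x))
        (by simp only [map_zero]) (fun x y hx hy => by simp only [map_add, hx, hy])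
        (fun m n => ?_) x
      rw [tb_r, ← σ.r, hf, hf, h.r, τ.r]
  refine BIso.of_bij φ (LinearMap.ext fun x => ?_) ?_
  · rw [GMap.dd_apply, sg_zero, one_smul, hφ, LinearMap.zero_apply, sub_eq_zero]
    refine repTb_ind ρ σ (Q := fun x => P'.dg.d (f x) = f ((tb M' N').dg.d x))
      (by simp only [map_zero]) (fun x y hx hy => by simp only [map_add, hx, hy])
      (fun m n => ?_) x
    refine ρ.rep.ind (P := fun m => P'.dg.d (f (tm (ρ.e m) (σ.e n))) =
      f ((tb M' N').dg.d (tm (ρ.e m) (σ.e n)))) ?_ (fun m m' h1 h2 => ?_) (fun i m hm => ?_) m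
    · rw [map_zero, tm_zero_left]
      simp only [map_zero]
    · rw [map_add, tm_add_left]
      simp only [map_add, h1, h2]
    · rw [repTb_d ρ σ hm, map_add, negOnePow_smul, map_zsmul, tmB_apply, tmB_apply, hf, hf, hf,
        ← τ.rep.d, h.d i m n hm, map_add, negOnePow_smul, map_zsmul]
  · rw [hφ]
    refine Function.bijective_iff_has_inverse.2 ⟨fun y => g (τ.e.symm y), fun x => ?_, fun y => ?_⟩
    · refine repTb_ind ρ σ (Q := fun x => g (τ.e.symm (f x)) = x)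
        (by simp only [map_zero]) (fun x y hx hy => by simp only [map_add, hx, hy])
        (fun m n => ?_) x
      rw [hf, LinearEquiv.symm_apply_apply, hg]
    · obtain ⟨q, -, hq⟩ := h.univ P'.M (t.compr₂ τ.e.toLinearMap)
        (fun m b n => by rw [LinearMap.compr₂_apply, LinearMap.compr₂_apply, h.balanced])
      have h1 : f.comp g = τ.e.toLinearMap :=
        (hq _ (fun m n => by
          rw [LinearMap.comp_apply, hg, hf]
          rfl)).trans (hq _ (fun m n => rfl)).symm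
      have h2 := LinearMap.congr_fun h1 (τ.e.symm y)
      change f (g (τ.e.symm y)) = y
      rw [LinearMap.comp_apply] at h2
      rw [h2]
      exact τ.e.apply_symm_apply y

/-- `tb M' N'` is a tensor product of `M` and `N`. -/
theorem exists_isTb (ρ : RepB r s Z M') (σ : RepB s w Z' N') (τ : RepB r w T (tb M' N')) :
    ∃ t : M →ₗ[k] N →ₗ[k] P, IsTb Z Z' T t := by
  obtain ⟨t, ht⟩ : ∃ t : M →ₗ[k] N →ₗ[k] P, ∀ m n, τ.e (t m n) = tm (ρ.e m) (σ.e n) :=
    ⟨((tmB M' N').compl₁₂ ρ.e.toLinearMap σ.e.toLinearMap).compr₂ τ.e.symm.toLinearMap,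
      fun m n => by
        rw [LinearMap.compr₂_apply, LinearMap.compl₁₂_apply]
        exact τ.e.apply_symm_apply _⟩
  refine ⟨t, ⟨fun m b n => ?_, fun V _ _ β hβ => ?_, fun a m n => ?_, fun c m n => ?_,
    fun i j m n hm hn => ?_, fun i m n hm => ?_⟩⟩
  · refine τ.e.injective ?_
    rw [ht, ht, ρ.r, σ.l, tm_r_l]
  · obtain ⟨f, hf⟩ := repTb_lift ρ σ hβ
    refine ⟨f.comp τ.e.toLinearMap, fun m n => ?_, fun q hq => LinearMap.ext fun y => ?_⟩
    · rw [LinearMap.comp_apply, LinearEquiv.coe_coe, ht, hf]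
    · obtain ⟨x, rfl⟩ := τ.e.symm.surjective y
      rw [LinearMap.comp_apply, LinearEquiv.coe_coe, LinearEquiv.apply_symm_apply]
      refine repTb_ind ρ σ (Q := fun x => q (τ.e.symm x) = f x)
        (by simp only [map_zero]) (fun x y hx hy => by simp only [map_add, hx, hy])
        (fun m n => ?_) x
      rw [hf, ← ht, LinearEquiv.symm_apply_apply, hq]
  · refine τ.e.injective ?_
    rw [ht, ρ.l, τ.l, ht, tb_l]
  · refine τ.e.injective ?_
    rw [ht, σ.r, τ.r, ht, tb_r]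
  · rw [τ.rep.mem, ht]
    exact tb_deg ((ρ.rep.mem _ _).1 hm) ((σ.rep.mem _ _).1 hn)
  · refine τ.e.injective ?_
    rw [τ.rep.d, ht, repTb_d ρ σ hm, map_add, ht, negOnePow_smul, negOnePow_smul, map_zsmul, ht]
    rfl

end Pool.Agent.MP_6e5bed_ag_SP
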