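import Pool.Agent.Lib.MP_6e5bed_ag_SP.RepSm
import Pool.Agent.Lib.MP_6e5bed_ag_SP.RepCl
import Pool.Agent.Lib.MP_6e5bed_ag_SP.RepTb
import Pool.Agent.Lib.MP_6e5bed_ag_NC.Cat

set_option autoImplicit false

/-!
# The functor from `SP k` to a model
-/

namespace Pool.Agent.MP_6e5bed_ag_SP

open CategoryTheory MonoidalCategory MulOpposite Pool.Agent.MP_6e5bed_ag_NC

universe u

variable {k : Type u} [Field k] {C : Type (u + 1)} [Category.{u + 1} C] [MonoidalCategory C]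
  [SymmetricCategory C] [Preadditive C] [MonoidalPreadditive C] [Linear ℚ C] (H : NCMot k C)

theorem smPr_of (A : SP k) : SmPr (DG.of A.alg) := SmPr.of (repOf A.alg) A.smooth A.proper

namespace NCMot

/-- The motive of `A`. -/
noncomputable def fobj (A : SP k) : C := H.U (DG.of A.alg) (smPr_of A)

/-- The morphisms between the motives. -/
noncomputable def fhom (A B : SP k) : (A ⟶ B) ≃ₗ[ℚ] (H.fobj A ⟶ H.fobj B) :=
  IsK0.equiv (φ := fun Z h => H.cl (smPr_of A) (smPr_of B) Z h)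
    (H.hom_k0 (smPr_of A) (smPr_of B)) (repOf A.alg) (repOf B.alg)

theorem fhom_cls {A B : SP k} {M : Type u} [AddCommGroup M] [Module k M] [Module (RA A.alg) M]
    [Module (RA B.alg)ᵐᵒᵖ M] {Z : Bm (DG.of A.alg) (DG.of B.alg) M} (hZ : Perf Z)
    {M' : Bim A.alg B.alg} (ρ : RepB (repOf A.alg) (repOf B.alg) Z M')
    (hM : MP_6e5bed_ag_NC.Perf M') :
    H.fhom A B (cls M' hM) = H.cl (smPr_of A) (smPr_of B) Z hZ :=
  IsK0.equiv_cls (φ := fun Z h => H.cl (smPr_of A) (smPr_of B) Z h)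
    (H.hom_k0 (smPr_of A) (smPr_of B)) hZ ρ hM

/-- The value of `fhom` on the class of a bimodule of the tower. -/
theorem mfun_cls {A B : SP k} {M' : Bim A.alg B.alg} (hM : MP_6e5bed_ag_NC.Perf M') :
    H.fhom A B (cls M' hM) = H.cl (smPr_of A) (smPr_of B)
      (Bm.of (repOf A.alg) (repOf B.alg) M')
      (MP_6e5bed_ag_SP.Perf.of hM (Bm.ofRepB (repOf A.alg) (repOf B.alg) M')) :=
  H.fhom_cls _ (Bm.ofRepB (repOf A.alg) (repOf B.alg) M') hM

theorem fhom_id (A : SP k) : H.fhom A A (𝟙 A) = 𝟙 (H.fobj A) := by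
  obtain ⟨P, φ, hP, hφ⟩ := A.smooth
  have h1 : (𝟙 A : A ⟶ A) = cls P hP := K0Q.one_eq A.smooth A.proper hP hφ
  rw [h1]
  refine (H.mfun_cls hP).trans ?_
  exact H.cl_one (smPr_of A) _ _ (IsRes.of (Bm.ofRepB (repOf A.alg) (repOf A.alg) P) hP hφ)

theorem fhom_comp {A B D : SP k} (x : A ⟶ B) (y : B ⟶ D) :
    H.fhom A D (x ≫ y) = H.fhom A B x ≫ H.fhom B D y := by
  refine K0Q.ind (P := fun x : K0Q A.alg B.alg => H.fhom A D (K0Q.comp B.proper x y) =
    H.fhom A B x ≫ H.fhom B D y) ?_ ?_ ?_ ?_ x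
  · intro x x' hx hx'
    rw [map_add, LinearMap.add_apply]
    refine (map_add (H.fhom A D) _ _).trans ?_
    rw [hx, hx']
    refine Eq.trans ?_ (congrArg (· ≫ H.fhom B D y) (map_add (H.fhom A B) x x')).symm
    exact (Preadditive.add_comp _ _ _ _ _ _).symm
  · intro c x hx
    rw [map_smul, LinearMap.smul_apply]
    refine (map_smul (H.fhom A D) c _).trans ?_
    rw [hx]
    refine Eq.trans ?_ (congrArg (· ≫ H.fhom B D y) (map_smul (H.fhom A B) c x)).symm
    exact (Linear.smul_comp _ _ _ _ _ _).symm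
  · rw [map_zero, LinearMap.zero_apply]
    refine (map_zero (H.fhom A D)).trans ?_
    refine Eq.trans ?_ (congrArg (· ≫ H.fhom B D y) (map_zero (H.fhom A B))).symm
    exact (Limits.zero_comp).symm
  intro M hM
  refine K0Q.ind (P := fun y : K0Q B.alg D.alg => H.fhom A D (K0Q.comp B.proper (cls M hM) y) =
    H.fhom A B (cls M hM) ≫ H.fhom B D y) ?_ ?_ ?_ ?_ y
  · intro x x' hx hx'
    rw [map_add]
    refine (map_add (H.fhom A D) _ _).trans ?_
    rw [hx, hx']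
    refine Eq.trans ?_ (congrArg (H.fhom A B (cls M hM) ≫ ·) (map_add (H.fhom B D) x x')).symm
    exact (Preadditive.comp_add _ _ _ _ _ _).symm
  · intro c x hx
    rw [map_smul]
    refine (map_smul (H.fhom A D) c _).trans ?_
    rw [hx]
    refine Eq.trans ?_ (congrArg (H.fhom A B (cls M hM) ≫ ·) (map_smul (H.fhom B D) c x)).symm
    exact (Linear.comp_smul _ _ _ _ _ _).symm
  · rw [map_zero]
    refine (map_zero (H.fhom A D)).trans ?_
    refine Eq.trans ?_ (congrArg (H.fhom A B (cls M hM) ≫ ·) (map_zero (H.fhom B D))).symm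
    exact (Limits.comp_zero).symm
  intro N hN
  rw [K0Q.comp_cls]
  refine (H.mfun_cls (A := A) (B := D) (MP_6e5bed_ag_NC.Perf.tb B.proper hM hN)).trans ?_
  rw [H.mfun_cls hM, H.mfun_cls hN]
  obtain ⟨t, ht⟩ := exists_isTb (Bm.ofRepB (repOf A.alg) (repOf B.alg) M)
    (Bm.ofRepB (repOf B.alg) (repOf D.alg) N)
    (Bm.ofRepB (repOf A.alg) (repOf D.alg) (tb M N))
  exact (H.cl_comp (smPr_of A) (smPr_of B) (smPr_of D) _ _ _ _ _ _ t ht).symm

/-- The functor from `SP k` to the model. -/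
noncomputable def F : SP k ⥤ C where
  obj A := H.fobj A
  map {A B} x := H.fhom A B x
  map_id := H.fhom_id
  map_comp := H.fhom_comp

instance : H.F.Faithful where
  map_injective {A B _ _} h := (H.fhom A B).injective h

instance : H.F.Full where
  map_surjective {A B} := (H.fhom A B).surjective

instance : H.F.Additive where
  map_add {A B f g} := map_add (H.fhom A B) f g

/-- The tensor product of two resolutions of the diagonal is a resolution. -/
theorem mfun_res {B : DGA k} {P : Bim B B} {φ : GMap 0 P (MP_6e5bed_ag_NC.diag B)}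
    (hP : MP_6e5bed_ag_NC.Perf P) (hφ : RQIso φ) :
    ∃ ψ : GMap 0 (tb P P) (MP_6e5bed_ag_NC.diag B), RQIso ψ := by
  obtain ⟨α, β, h0, h1, h2⟩ := tb_diag_left P
  exact ⟨((φ.tbR P).comp α (add_zero 0)).comp φ (add_zero 0),
    ((RQIso.tbR hφ hP).comp (RQIso.of_inv h0 h1 h2)).comp hφ⟩

/-- The motive of a represented dg algebra. -/
theorem exists_iso {A : Type u} [Ring A] [Algebra k A] {X : DG k A} (hX : SmPr X) {B : SP k}
    (r : Rep X B.alg) : Nonempty (H.U X hX ≅ H.fobj B) := by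
  obtain ⟨P, φ, hP, hφ⟩ := B.smooth
  obtain ⟨ψ, hψ⟩ := mfun_res hP hφ
  have hT : MP_6e5bed_ag_NC.Perf (tb P P) := MP_6e5bed_ag_NC.Perf.tb B.proper hP hP
  let ρ₁ := Bm.ofRepB r (repOf B.alg) P
  let ρ₂ := Bm.ofRepB (repOf B.alg) r P
  refine ⟨⟨H.cl hX (smPr_of B) (Bm.of r (repOf B.alg) P) (MP_6e5bed_ag_SP.Perf.of hP ρ₁),
    H.cl (smPr_of B) hX (Bm.of (repOf B.alg) r P) (MP_6e5bed_ag_SP.Perf.of hP ρ₂), ?_, ?_⟩⟩
  · obtain ⟨t, ht⟩ := exists_isTb (Bm.ofRepB r (repOf B.alg) P) (Bm.ofRepB (repOf B.alg) r P)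
      (Bm.ofRepB r r (tb P P))
    refine (H.cl_comp hX (smPr_of B) hX _ _ _ _ _
      (MP_6e5bed_ag_SP.Perf.of hT (Bm.ofRepB r r (tb P P))) t ht).trans ?_
    exact H.cl_one hX _ _ (IsRes.of (Bm.ofRepB r r (tb P P)) hT hψ)
  · obtain ⟨t, ht⟩ := exists_isTb (Bm.ofRepB (repOf B.alg) r P) (Bm.ofRepB r (repOf B.alg) P)
      (Bm.ofRepB (repOf B.alg) (repOf B.alg) (tb P P))
    refine (H.cl_comp (smPr_of B) hX (smPr_of B) _ _ _ _ _
      (MP_6e5bed_ag_SP.Perf.of hT (Bm.ofRepB (repOf B.alg) (repOf B.alg) (tb P P))) t ht).trans ?_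
    exact H.cl_one (smPr_of B) _ _
      (IsRes.of (Bm.ofRepB (repOf B.alg) (repOf B.alg) (tb P P)) hT hψ)

end NCMot

end Pool.Agent.MP_6e5bed_ag_SP
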