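import Pool.Agent.Lib.MP_6e5bed_ag_SP.RepC

set_option autoImplicit false

/-!
# Comparison of maps of dg bimodules
-/

namespace Pool.Agent.MP_6e5bed_ag_SP

open MulOpposite Pool.Agent.MP_6e5bed_ag_NC

universe u

variable {k : Type u} [CommRing k] {A B M N P : Type u} [Ring A] [Algebra k A] [Ring B]
  [Algebra k B]
  [AddCommGroup M] [Module k M] [Module A M] [Module Bᵐᵒᵖ M]
  [AddCommGroup N] [Module k N] [Module A N] [Module Bᵐᵒᵖ N]
  [AddCommGroup P] [Module k P] [Module A P] [Module Bᵐᵒᵖ P]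
  {X : DG k A} {Y : DG k B} {A' B' : DGA k} {r : Rep X A'} {s : Rep Y B'}
  {Z : Bm X Y M} {W : Bm X Y N} {V : Bm X Y P} {M' N' P' : Bim A' B'}
  (ρ : RepB r s Z M') (σ : RepB r s W N') (τ : RepB r s V P')

private theorem RepMap_units {V W : Type u} [AddCommGroup V] [AddCommGroup W] (f : V →+ W)
    (u : ℤˣ) (v : V) : f (u • v) = u • f v := by
  rcases Int.units_eq_one_or u with h | h <;> simp [h]

include ρ σ in
theorem RepB.exists_gmap {n : ℤ} {f : M →ₗ[k] N} (hf : IsG Z W n f) :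
    ∃ φ : GMap n M' N', ∀ m, φ.f (ρ.e m) = σ.e (f m) := by
  refine ⟨{
    f := (σ.e.toLinearMap ∘ₗ f) ∘ₗ ρ.e.symm.toLinearMap
    deg := ?_
    map_l := ?_
    map_r := ?_ }, ?_⟩
  · intro i m hm
    change N'.dg.IsDeg (i + n) (σ.e (f (ρ.e.symm m)))
    rw [← σ.rep.mem]
    apply hf.mem
    rw [ρ.rep.mem, LinearEquiv.apply_symm_apply]
    exact hm
  · intro a m
    obtain ⟨m, rfl⟩ := ρ.e.surjective m
    obtain ⟨a, rfl⟩ := r.e.surjective a
    change σ.e (f (ρ.e.symm (M'.l (r.e a) (ρ.e m)))) =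
      N'.l (A'.dg.sp n (r.e a)) (σ.e (f (ρ.e.symm (ρ.e m))))
    rw [← ρ.l, LinearEquiv.symm_apply_apply, LinearEquiv.symm_apply_apply]
    refine r.rep.ind (P := fun a => σ.e (f (a • m)) =
      N'.l (A'.dg.sp n (r.e a)) (σ.e (f m))) ?_ ?_ ?_ a
    · simp only [zero_smul, map_zero, LinearMap.zero_apply]
    · intro v w hv hw
      simp only [add_smul, map_add, LinearMap.add_apply, hv, hw]
    · intro i v hv
      rw [hf.l i v m hv, r.rep.sp n hv]
      rw [show σ.e ((n * i).negOnePow • v • f m) = (n * i).negOnePow • σ.e (v • f m) from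
        RepMap_units (σ.e : N →+ N'.M) _ _, σ.l]
      rcases Int.units_eq_one_or (n * i).negOnePow with h | h <;> simp [h]
  · intro b m
    obtain ⟨m, rfl⟩ := ρ.e.surjective m
    obtain ⟨b, rfl⟩ := s.e.surjective b
    change σ.e (f (ρ.e.symm (M'.r (s.e b) (ρ.e m)))) =
      N'.r (s.e b) (σ.e (f (ρ.e.symm (ρ.e m))))
    rw [← ρ.r, LinearEquiv.symm_apply_apply, LinearEquiv.symm_apply_apply, hf.r, σ.r]
  · intro m
    change σ.e (f (ρ.e.symm (ρ.e m))) = _
    rw [LinearEquiv.symm_apply_apply]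

include ρ σ in
theorem RepB.exists_isG {n : ℤ} (φ : GMap n M' N') :
    ∃ f : M →ₗ[k] N, IsG Z W n f ∧ ∀ m, φ.f (ρ.e m) = σ.e (f m) := by
  refine ⟨(σ.e.symm.toLinearMap ∘ₗ φ.f) ∘ₗ ρ.e.toLinearMap, ⟨?_, ?_, ?_⟩, ?_⟩
  · intro i m hm
    change σ.e.symm (φ.f (ρ.e m)) ∈ W.gr (i + n)
    rw [σ.rep.mem, LinearEquiv.apply_symm_apply]
    exact φ.deg ((ρ.rep.mem i m).1 hm)
  · intro i a m ha
    change σ.e.symm (φ.f (ρ.e (a • m))) = (n * i).negOnePow • a • σ.e.symm (φ.f (ρ.e m))
    apply σ.e.injective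
    rw [LinearEquiv.apply_symm_apply, ρ.l, φ.map_l, r.rep.sp n ha]
    rw [show σ.e ((n * i).negOnePow • a • σ.e.symm (φ.f (ρ.e m))) =
      (n * i).negOnePow • σ.e (a • σ.e.symm (φ.f (ρ.e m))) from
        RepMap_units (σ.e : N →+ N'.M) _ _, σ.l, LinearEquiv.apply_symm_apply]
    rcases Int.units_eq_one_or (n * i).negOnePow with h | h <;> simp [h]
  · intro b m
    change σ.e.symm (φ.f (ρ.e (op b • m))) = op b • σ.e.symm (φ.f (ρ.e m))
    apply σ.e.injective
    rw [LinearEquiv.apply_symm_apply, ρ.r, φ.map_r, σ.r, LinearEquiv.apply_symm_apply]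
  · intro m
    change _ = σ.e (σ.e.symm (φ.f (ρ.e m)))
    rw [LinearEquiv.apply_symm_apply]

include ρ σ in
theorem RepB.exists_closed {f : M →ₗ[k] N} (hf : IsHom Z W f) :
    ∃ φ : GMap 0 M' N', φ.dd = 0 ∧ ∀ m, φ.f (ρ.e m) = σ.e (f m) := by
  obtain ⟨φ, hφ⟩ := ρ.exists_gmap σ hf.1
  refine ⟨φ, ?_, hφ⟩
  ext m
  obtain ⟨m, rfl⟩ := ρ.e.surjective m
  rw [GMap.dd_apply, sg_zero, one_smul, LinearMap.zero_apply, sub_eq_zero, hφ, ← σ.rep.d,
    ← ρ.rep.d, hφ, hf.2]

include ρ σ in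
theorem RepB.exists_isHom (φ : GMap 0 M' N') (hφ : φ.dd = 0) :
    ∃ f : M →ₗ[k] N, IsHom Z W f ∧ ∀ m, φ.f (ρ.e m) = σ.e (f m) := by
  obtain ⟨f, hf, h⟩ := ρ.exists_isG σ φ
  refine ⟨f, ⟨hf, fun m => ?_⟩, h⟩
  apply σ.e.injective
  rw [← h, ρ.rep.d, σ.rep.d, ← h, GMap.d_f_zero hφ]

include ρ σ τ in
theorem RepB.isExt : IsExt Z W V ↔ MP_6e5bed_ag_NC.IsExt M' N' P' := by
  constructor
  · rintro ⟨i, p, r', s', hi, hp, hr, hs, h1, h2, h3, h4⟩
    obtain ⟨I, hI, hI'⟩ := ρ.exists_closed σ hi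
    obtain ⟨Q, hQ, hQ'⟩ := σ.exists_closed τ hp
    obtain ⟨R, hR⟩ := σ.exists_gmap ρ hr
    obtain ⟨S, hS⟩ := τ.exists_gmap σ hs
    refine ⟨I, Q, R, S, hI, hQ, ?_, ?_, ?_, ?_, ?_⟩
    · intro x
      obtain ⟨x, rfl⟩ := ρ.e.surjective x
      rw [hI', hR, h1]
    · intro x
      obtain ⟨x, rfl⟩ := τ.e.surjective x
      rw [hS, hQ', h2]
    · intro x
      obtain ⟨x, rfl⟩ := ρ.e.surjective x
      rw [hI', hQ', h3, map_zero]
    · intro x
      obtain ⟨x, rfl⟩ := τ.e.surjective x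
      have h5 : r' (s' x) = 0 := by
        have h6 := h4 (s' x)
        rw [h2] at h6
        have h7 : i (r' (s' x)) = 0 := by
          simpa using h6
        rw [← h1 (r' (s' x)), h7, map_zero]
      rw [hS, hR, h5, map_zero]
    · intro x
      obtain ⟨x, rfl⟩ := σ.e.surjective x
      rw [hR, hQ', hI', hS, ← map_add, h4]
  · rintro ⟨I, Q, R, S, hI, hQ, h1, h2, h3, -, h4⟩
    obtain ⟨i, hi, hi'⟩ := ρ.exists_isHom σ I hI
    obtain ⟨p, hp, hp'⟩ := σ.exists_isHom τ Q hQ
    obtain ⟨r', hr, hr'⟩ := σ.exists_isG ρ R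
    obtain ⟨s', hs, hs'⟩ := τ.exists_isG σ S
    refine ⟨i, p, r', s', hi, hp, hr, hs, ?_, ?_, ?_, ?_⟩
    · intro x
      apply ρ.e.injective
      rw [← hr', ← hi', h1]
    · intro x
      apply τ.e.injective
      rw [← hp', ← hs', h2]
    · intro x
      apply τ.e.injective
      rw [← hp', ← hi', h3, map_zero]
    · intro x
      apply σ.e.injective
      rw [map_add, ← hi', ← hs', ← hr', ← hp', h4]

include ρ σ in
theorem RepB.isSummand : IsSummand Z W ↔ MP_6e5bed_ag_NC.IsSummand M' N' := by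
  constructor
  · rintro ⟨i, p, hi, hp, h1⟩
    obtain ⟨I, hI, hI'⟩ := ρ.exists_closed σ hi
    obtain ⟨Q, hQ, hQ'⟩ := σ.exists_closed ρ hp
    refine ⟨I, Q, hI, hQ, ?_⟩
    intro x
    obtain ⟨x, rfl⟩ := ρ.e.surjective x
    rw [hI', hQ', h1]
  · rintro ⟨I, Q, hI, hQ, h1⟩
    obtain ⟨i, hi, hi'⟩ := ρ.exists_isHom σ I hI
    obtain ⟨p, hp, hp'⟩ := σ.exists_isHom ρ Q hQ
    refine ⟨i, p, hi, hp, ?_⟩
    intro x
    apply ρ.e.injective
    rw [← hp', ← hi', h1]

include ρ in
theorem RepB.contr : Contractible Z ↔ Contr M' := by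
  constructor
  · rintro ⟨h, hh, h1⟩
    obtain ⟨H, hH⟩ := ρ.exists_gmap ρ hh
    refine ⟨H, ?_⟩
    ext x
    obtain ⟨x, rfl⟩ := ρ.e.surjective x
    rw [GMap.dd_apply, sg_neg, sg_one, neg_smul, one_smul, sub_neg_eq_add, hH, ← ρ.rep.d,
      ← ρ.rep.d, hH, ← map_add, h1, LinearMap.id_apply]
  · rintro ⟨H, hH⟩
    obtain ⟨h, hh, hh'⟩ := ρ.exists_isG ρ H
    refine ⟨h, hh, fun m => ?_⟩
    apply ρ.e.injective
    have h1 := LinearMap.congr_fun hH (ρ.e m)
    rw [GMap.dd_apply, sg_neg, sg_one, neg_smul, one_smul, sub_neg_eq_add, hh', ← ρ.rep.d,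
      ← ρ.rep.d, hh', ← map_add, LinearMap.id_apply] at h1
    exact h1

include ρ in
theorem RepB.isFree : IsFree Z ↔ BIso M' (free A' B') := by
  constructor
  · rintro ⟨e, f, he, hd, hf, hb⟩
    have he' : M'.dg.IsDeg 0 (ρ.e e) := (ρ.rep.mem 0 e).1 he
    have hd' : M'.dg.d (ρ.e e) = 0 := by rw [← ρ.rep.d, hd, map_zero]
    let F : A'.A →ₗ[k] B'.A →ₗ[k] M'.M :=
      LinearMap.mk₂ k (fun a b => M'.l a (M'.r b (ρ.e e)))
        (fun a b c => by rw [map_add, LinearMap.add_apply])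
        (fun c a b => by rw [map_smul, LinearMap.smul_apply])
        (fun a b c => by rw [map_add, LinearMap.add_apply, map_add])
        (fun c a b => by rw [map_smul, LinearMap.smul_apply, map_smul])
    have hF : ∀ a b, F a b = M'.l a (M'.r b (ρ.e e)) := fun a b => rfl
    let φ : GMap 0 (free A' B') M' := {
      f := TensorProduct.lift F
      deg := by
        intro i m hm
        refine Dg.tensor_degMap (X := A'.dg) (Y := B'.dg) (Z := M'.dg) (n := 0)
          (TensorProduct.lift F) ?_ hm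
        intro p q v w hv hw
        rw [TensorProduct.lift.tmul, hF, add_zero]
        refine M'.l_deg hv ?_
        have h1 := M'.r_deg he' hw
        rwa [zero_add] at h1
      map_l := by
        intro a m
        rw [Dg.sp_zero]
        refine A'.dg.tind B'.dg (P := fun m : TensorProduct k A'.A B'.A =>
          TensorProduct.lift F (LinearMap.rTensor B'.A (A'.mul a) m) =
          M'.l a (TensorProduct.lift F m)) ?_ ?_ ?_ m
        · rw [map_zero, map_zero, map_zero]
        · intro x y hx hy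
          rw [map_add, map_add, map_add, map_add, hx, hy]
        · intro i j x y _ _
          change TensorProduct.lift F (A'.mul a x ⊗ₜ y) = _
          rw [TensorProduct.lift.tmul, TensorProduct.lift.tmul, hF, hF, M'.l_mul]
      map_r := by
        intro b m
        refine A'.dg.tind B'.dg (P := fun m : TensorProduct k A'.A B'.A =>
          TensorProduct.lift F (LinearMap.lTensor A'.A (B'.mul.flip b) m) =
          M'.r b (TensorProduct.lift F m)) ?_ ?_ ?_ m
        · rw [map_zero, map_zero, map_zero]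
        · intro x y hx hy
          rw [map_add, map_add, map_add, map_add, hx, hy]
        · intro i j x y _ _
          change TensorProduct.lift F (x ⊗ₜ B'.mul y b) = _
          rw [TensorProduct.lift.tmul, TensorProduct.lift.tmul, hF, hF, M'.r_mul, M'.l_r] }
    have hφ : φ.dd = 0 := by
      ext m
      rw [GMap.dd_apply, sg_zero, one_smul, LinearMap.zero_apply, sub_eq_zero]
      refine A'.dg.tind B'.dg (P := fun m => M'.dg.d (TensorProduct.lift F m) =
        TensorProduct.lift F ((A'.dg.tensor B'.dg).d m)) ?_ ?_ ?_ m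
      · simp only [map_zero]
      · intro x y hx hy
        rw [map_add, map_add, map_add, map_add, hx, hy]
      · intro i j x y _ _
        rw [Dg.tensor_d, map_add, TensorProduct.lift.tmul, TensorProduct.lift.tmul,
          TensorProduct.lift.tmul, hF, hF, hF, M'.d_l, M'.d_r, hd', map_zero, zero_add]
        rw [Dg.s_of_even (Dg.o_of_even he' Even.zero)]
    refine (BIso.of_bij φ hφ ?_).symm
    have hcomp : ∀ x : TensorProduct k A B,
        TensorProduct.lift F (TensorProduct.congr r.e s.e x) = ρ.e (f x) := by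
      intro x
      induction x using TensorProduct.induction_on with
      | zero => simp only [map_zero]
      | add x y hx hy => rw [map_add, map_add, map_add, map_add, hx, hy]
      | tmul a b =>
        rw [TensorProduct.congr_tmul, hf, ρ.l, ρ.r, TensorProduct.lift.tmul, hF]
    change Function.Bijective (TensorProduct.lift F)
    constructor
    · intro x y hxy
      obtain ⟨x, rfl⟩ := (TensorProduct.congr r.e s.e).surjective x
      obtain ⟨y, rfl⟩ := (TensorProduct.congr r.e s.e).surjective y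
      rw [hcomp, hcomp] at hxy
      rw [hb.1 (ρ.e.injective hxy)]
    · intro y
      obtain ⟨y, rfl⟩ := ρ.e.surjective y
      obtain ⟨x, rfl⟩ := hb.2 y
      exact ⟨_, hcomp x⟩
  · intro h
    obtain ⟨φ, ψ, h0, h1, h2⟩ := h.symm
    let one : TensorProduct k A'.A B'.A := A'.one ⊗ₜ[k] B'.one
    have hone : (free A' B').dg.IsDeg 0 one := by
      have := Dg.tensor_deg A'.one_deg B'.one_deg
      rwa [add_zero] at this
    have hdone : (free A' B').dg.d one = 0 := by
      change (A'.dg.tensor B'.dg).d (A'.one ⊗ₜ[k] B'.one) = 0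
      rw [Dg.tensor_d, A'.d_one, B'.d_one, TensorProduct.zero_tmul, TensorProduct.tmul_zero,
        add_zero]
    let f : TensorProduct k A B →ₗ[k] M :=
      (ρ.e.symm.toLinearMap ∘ₗ φ.f) ∘ₗ (TensorProduct.congr r.e s.e).toLinearMap
    have hf : ∀ x, ρ.e (f x) = φ.f (TensorProduct.congr r.e s.e x) := fun x =>
      ρ.e.apply_symm_apply _
    have he : ρ.e (ρ.e.symm (φ.f one)) = φ.f one := ρ.e.apply_symm_apply _
    refine ⟨ρ.e.symm (φ.f one), f, ?_, ?_, ?_, ?_, ?_⟩
    · rw [ρ.rep.mem, he]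
      have := φ.deg hone
      rwa [add_zero] at this
    · apply ρ.e.injective
      rw [ρ.rep.d, he, GMap.d_f_zero h0, hdone, map_zero, map_zero]
    · intro a b
      apply ρ.e.injective
      rw [hf, ρ.l, ρ.r, he, ← φ.map_r]
      have h3 := φ.map_l (r.e a) ((free A' B').r (s.e b) one)
      rw [Dg.sp_zero] at h3
      rw [← h3]
      congr 1
      change r.e a ⊗ₜ[k] s.e b = A'.mul (r.e a) A'.one ⊗ₜ[k] B'.mul B'.one (s.e b)
      rw [A'.mul_one, B'.one_mul]
    · intro x y hxy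
      apply (TensorProduct.congr r.e s.e).injective
      have h3 := congrArg ρ.e hxy
      rw [hf, hf] at h3
      have h4 := congrArg ψ.f h3
      rwa [h1, h1] at h4
    · intro y
      obtain ⟨x, hx⟩ := (TensorProduct.congr r.e s.e).surjective (ψ.f (ρ.e y))
      refine ⟨x, ρ.e.injective ?_⟩
      rw [hf, hx, h2]

/-- Two dg bimodules with the same representation are isomorphic. -/
theorem RepB.biso {N'' : Bim A' B'} (ρ : RepB r s Z M') (ρ' : RepB r s Z N'') :
    BIso M' N'' := by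
  have hid : IsHom Z Z LinearMap.id := by
    refine ⟨⟨?_, ?_, ?_⟩, fun m => rfl⟩
    · intro i m hm
      rw [add_zero]
      exact hm
    · intro i a m _
      rw [zero_mul, Int.negOnePow_zero, one_smul]
      rfl
    · intro b m
      rfl
  obtain ⟨φ, hφ, h⟩ := ρ.exists_closed ρ' hid
  refine BIso.of_bij φ hφ ⟨?_, ?_⟩
  · intro x y hxy
    obtain ⟨x, rfl⟩ := ρ.e.surjective x
    obtain ⟨y, rfl⟩ := ρ.e.surjective y
    rw [h, h] at hxy
    have := ρ'.e.injective hxy
    rw [LinearMap.id_apply, LinearMap.id_apply] at this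
    rw [this]
  · intro y
    obtain ⟨y, rfl⟩ := ρ'.e.surjective y
    exact ⟨_, h y⟩

/-- Transport along an isomorphism. -/
theorem RepB.of_biso (ρ : RepB r s Z M') (h : BIso M' N') : Nonempty (RepB r s Z N') := by
  obtain ⟨φ, ψ, h0, h1, h2⟩ := h
  have h3 := BIso.closed_inv h0 h1 h2
  let E : M'.M ≃ₗ[k] N'.M := LinearEquiv.ofLinearMap φ.f ψ.f (LinearMap.ext h2) (LinearMap.ext h1)
  have hE : ∀ m, E m = φ.f m := fun m => rfl
  refine ⟨{
    e := ρ.e ≪≫ₗ E
    l := ?_
    r := ?_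
    rep := ⟨?_, ?_⟩ }⟩
  · intro a m
    rw [LinearEquiv.trans_apply, LinearEquiv.trans_apply, hE, hE, ρ.l, φ.map_l, Dg.sp_zero]
  · intro b m
    rw [LinearEquiv.trans_apply, LinearEquiv.trans_apply, hE, hE, ρ.r, φ.map_r]
  · intro n v
    rw [LinearEquiv.trans_apply, hE, ρ.rep.mem]
    constructor
    · intro hv
      have := φ.deg hv
      rwa [add_zero] at this
    · intro hv
      have := ψ.deg hv
      rwa [add_zero, h1] at this
  · intro v
    rw [LinearEquiv.trans_apply, LinearEquiv.trans_apply, hE, hE, ρ.rep.d, GMap.d_f_zero h0]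

end Pool.Agent.MP_6e5bed_ag_SP
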