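import Pool.Agent.Lib.MP_6e5bed_ag_SP.RepTens
import Pool.Agent.Lib.MP_6e5bed_ag_SP.RepMap

set_option autoImplicit false

/-!
# Comparison of external tensor products of dg bimodules
-/

namespace Pool.Agent.MP_6e5bed_ag_SP

open MulOpposite Pool.Agent.MP_6e5bed_ag_NC
open scoped TensorProduct

universe u

section aux

variable {k : Type u} [CommRing k]

private theorem sgn_sgn {V : Type u} [AddCommGroup V] (n : ℤ) (v : V) :
    n.negOnePow • n.negOnePow • v = v := by
  rcases Int.units_eq_one_or n.negOnePow with h | h <;> rw [h] <;> simp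

private theorem sgn_map {V W : Type u} [AddCommGroup V] [AddCommGroup W] (f : V →+ W)
    (n : ℤ) (v : V) : f (n.negOnePow • v) = n.negOnePow • f v := by
  rcases Int.units_eq_one_or n.negOnePow with h | h <;> rw [h] <;> simp

private theorem sgn_smul {R V : Type u} [Ring R] [AddCommGroup V] [Module R V]
    (a : R) (n : ℤ) (v : V) : a • (n.negOnePow • v) = n.negOnePow • a • v := by
  rcases Int.units_eq_one_or n.negOnePow with h | h <;> rw [h] <;> simp

/-- The Koszul product of homogeneous elements. -/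
theorem repBox_kz {V V' V'' W W' W'' : Type u}
    [AddCommGroup V] [Module k V] [AddCommGroup V'] [Module k V']
    [AddCommGroup V''] [Module k V''] [AddCommGroup W] [Module k W] [AddCommGroup W']
    [Module k W'] [AddCommGroup W''] [Module k W'']
    {X : Dg k V'} {Y : Dg k W} {α : V →ₗ[k] V' →ₗ[k] V''} {β : W →ₗ[k] W' →ₗ[k] W''}
    {p q : ℤ} {w : W} {v' : V'} (hv : X.IsDeg p v') (hw : Y.IsDeg q w) (v : V) (w' : W') :
    kz X Y α β (v ⊗ₜ w) (v' ⊗ₜ w') = (p * q).negOnePow • (α v v' ⊗ₜ[k] β w w') := by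
  rcases Dg.o_of_parity hw with ⟨h, h'⟩ | ⟨h, h'⟩
  · rw [kz_even h', Int.negOnePow_even _ (h.mul_left p), one_smul]
  · rw [kz_odd h']
    rcases Dg.o_of_parity hv with ⟨h1, h1'⟩ | ⟨h1, h1'⟩
    · rw [Dg.s_of_even h1', Int.negOnePow_even _ (h1.mul_right q), one_smul]
    · rw [Dg.s_of_odd h1', Int.negOnePow_odd _ (h1.mul h), map_neg, TensorProduct.neg_tmul]
      simp

end aux

variable {k : Type u} [CommRing k] {A A' AA B B' BB M M' MM : Type u} [Ring A] [Algebra k A]
  [Ring A'] [Algebra k A'] [Ring AA] [Algebra k AA] [Ring B] [Algebra k B] [Ring B']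
  [Algebra k B'] [Ring BB] [Algebra k BB]
  [AddCommGroup M] [Module k M] [Module A M] [Module Bᵐᵒᵖ M]
  [AddCommGroup M'] [Module k M'] [Module A' M'] [Module B'ᵐᵒᵖ M']
  [AddCommGroup MM] [Module k MM] [Module AA MM] [Module BBᵐᵒᵖ MM]
  {X : DG k A} {X' : DG k A'} {E : DG k AA} {Y : DG k B} {Y' : DG k B'} {F : DG k BB}
  {i : A →ₐ[k] AA} {i' : A' →ₐ[k] AA} {j : B →ₐ[k] BB} {j' : B' →ₐ[k] BB}
  {Z : Bm X Y M} {Z' : Bm X' Y' M'} {T : Bm E F MM} {t : M →ₗ[k] M' →ₗ[k] MM}
  {C C' D D' : DGA k} {r : Rep X C} {r' : Rep X' C'} {s : Rep Y D} {s' : Rep Y' D'}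
  {N : Bim C D} {N' : Bim C' D'}

/-- Every element of `AA` is a sum of products of homogeneous elements. -/
private theorem tens_ind (H : IsTens X X' E i i') (r : Rep X C) (r' : Rep X' C') {P : AA → Prop}
    (h0 : P 0)
    (hadd : ∀ a b, P a → P b → P (a + b))
    (hhom : ∀ p q a a', a ∈ X.gr p → a' ∈ X'.gr q → P (i a * i' a')) (a : AA) : P a := by
  obtain ⟨x, rfl⟩ := H.bij.2 a
  induction x using TensorProduct.induction_on with
  | zero => rw [map_zero]; exact h0
  | add x y hx hy => rw [map_add]; exact hadd _ _ hx hy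
  | tmul a a' =>
    change P (i a * i' a')
    refine r.rep.ind (P := fun a => P (i a * i' a')) ?_ ?_ ?_ a
    · rw [map_zero, zero_mul]
      exact h0
    · intro v w hv hw
      rw [map_add, add_mul]
      exact hadd _ _ hv hw
    · intro p a ha
      refine r'.rep.ind (P := fun a' => P (i a * i' a')) ?_ ?_ ?_ a'
      · rw [map_zero, mul_zero]
        exact h0
      · intro v w hv hw
        rw [map_add, mul_add]
        exact hadd _ _ hv hw
      · intro q a' ha'
        exact hhom p q a a' ha ha'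

/-- Every element of `MM` is a sum of products of homogeneous elements. -/
private theorem box_ind (hb : Function.Bijective (TensorProduct.lift t)) (ρ : RepB r s Z N)
    (ρ' : RepB r' s' Z' N') {P : MM → Prop} (h0 : P 0)
    (hadd : ∀ a b, P a → P b → P (a + b))
    (hhom : ∀ p q m m', m ∈ Z.gr p → m' ∈ Z'.gr q → P (t m m')) (a : MM) : P a := by
  obtain ⟨x, rfl⟩ := hb.2 a
  induction x using TensorProduct.induction_on with
  | zero => rw [map_zero]; exact h0
  | add x y hx hy => rw [map_add]; exact hadd _ _ hx hy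
  | tmul m m' =>
    rw [TensorProduct.lift.tmul]
    refine ρ.rep.ind (P := fun m => P (t m m')) ?_ ?_ ?_ m
    · rw [map_zero, LinearMap.zero_apply]
      exact h0
    · intro v w hv hw
      rw [map_add, LinearMap.add_apply]
      exact hadd _ _ hv hw
    · intro p m hm
      refine ρ'.rep.ind (P := fun m' => P (t m m')) ?_ ?_ ?_ m'
      · rw [map_zero]
        exact h0
      · intro v w hv hw
        rw [map_add]
        exact hadd _ _ hv hw
      · intro q m' hm'
        exact hhom p q m m' hm hm'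

/-- An external tensor product is represented by `box N N'`. -/
theorem IsBox.rep (H : IsTens X X' E i i') (H' : IsTens Y Y' F j j')
    (h : IsBox i i' j j' Z Z' T t) (ρ : RepB r s Z N) (ρ' : RepB r' s' Z' N') :
    Nonempty (RepB (H.rep r r') (H'.rep s s') T (box N N')) := by
  set L : M ⊗[k] M' ≃ₗ[k] MM := LinearEquiv.ofBijective (TensorProduct.lift t) h.bij with hL
  set e : MM ≃ₗ[k] N.M ⊗[k] N'.M := L.symm ≪≫ₗ TensorProduct.congr ρ.e ρ'.e with he
  have het : ∀ m m', e (t m m') = ρ.e m ⊗ₜ[k] ρ'.e m' := by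
    intro m m'
    have h1 : L (m ⊗ₜ[k] m') = t m m' := by
      rw [hL, LinearEquiv.ofBijective_apply, TensorProduct.lift.tmul]
    rw [he, LinearEquiv.trans_apply, ← h1, LinearEquiv.symm_apply_apply,
      TensorProduct.congr_tmul]
  have hes : ∀ (x : N.M) (y : N'.M), e.symm (x ⊗ₜ[k] y) = t (ρ.e.symm x) (ρ'.e.symm y) := by
    intro x y
    rw [LinearEquiv.symm_apply_eq, het, LinearEquiv.apply_symm_apply,
      LinearEquiv.apply_symm_apply]
  have hdT := Cx.toDg_rep T.toCx
  have hdeg : ∀ (n : ℤ) (x : N.M ⊗[k] N'.M), (N.dg.tensor N'.dg).IsDeg n x →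
      T.toCx.toDg.IsDeg (n + 0) (e.symm x) := by
    intro n x hx
    refine Dg.tensor_degMap (X := N.dg) (Y := N'.dg) (Z := T.toCx.toDg) (n := 0)
      (e.symm : N.M ⊗[k] N'.M →ₗ[k] MM) ?_ hx
    intro p q v w hv hw
    change T.toCx.toDg.IsDeg (p + q + 0) (e.symm (v ⊗ₜ[k] w))
    rw [hes, add_zero]
    have h1 := h.mem p q (ρ.e.symm v) (ρ'.e.symm w)
      ((ρ.rep.mem p _).2 (by rwa [LinearEquiv.apply_symm_apply]))
      ((ρ'.rep.mem q _).2 (by rwa [LinearEquiv.apply_symm_apply]))
    exact (hdT.mem (p + q) _).1 h1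
  have hmem : ∀ n v, v ∈ T.gr n ↔ (N.dg.tensor N'.dg).IsDeg n (e v) := by
    intro n v
    constructor
    · intro hv
      have h1 := (Dg.degMap_iff (X := N.dg.tensor N'.dg) (Y := T.toCx.toDg) (n := 0)
        (e.symm : N.M ⊗[k] N'.M →ₗ[k] MM)).1 hdeg (e v)
      have h2 : T.toCx.toDg.ρ v = Finsupp.single n v := (hdT.mem n v).1 hv
      change (N.dg.tensor N'.dg).ρ (e v) = Finsupp.single n (e v)
      ext m
      have h3 := h1 m
      rw [LinearEquiv.coe_coe, LinearEquiv.symm_apply_apply, h2,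
        eq_comm, LinearEquiv.symm_apply_eq] at h3
      rw [h3, add_zero, Finsupp.single_apply, Finsupp.single_apply]
      split_ifs
      · rfl
      · exact map_zero e
    · intro hv
      have h1 := hdeg n (e v) hv
      rw [LinearEquiv.symm_apply_apply, add_zero] at h1
      exact (hdT.mem n v).2 h1
  let eA : AA ≃ₗ[k] C.A ⊗[k] C'.A := (H.rep r r').e
  have heA : ∀ a a', eA (i a * i' a') = r.e a ⊗ₜ[k] r'.e a' := H.rep_e r r'
  let eB : BB ≃ₗ[k] D.A ⊗[k] D'.A := (H'.rep s s').e
  have heB : ∀ a a', eB (j a * j' a') = s.e a ⊗ₜ[k] s'.e a' := H'.rep_e s s'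
  refine ⟨{ e := e, l := ?_, r := ?_, rep := ⟨hmem, ?_⟩ }⟩
  · intro a m
    change e (a • m) = kz N.dg C'.dg N.l N'.l (eA a) (e m)
    refine tens_ind H r r' (P := fun a => e (a • m) =
      kz N.dg C'.dg N.l N'.l (eA a) (e m)) ?_ ?_ ?_ a
    · rw [zero_smul, map_zero, map_zero, map_zero, LinearMap.zero_apply]
    · intro a b ha hb
      rw [add_smul, map_add, map_add, map_add, LinearMap.add_apply, ha, hb]
    · intro p q a a' ha ha'
      refine box_ind h.bij ρ ρ' (P := fun m => e ((i a * i' a') • m) =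
        kz N.dg C'.dg N.l N'.l (eA (i a * i' a')) (e m)) ?_ ?_ ?_ m
      · rw [smul_zero, map_zero, map_zero]
      · intro v w hv hw
        rw [smul_add, map_add, map_add, map_add, hv, hw]
      · intro p1 q1 m m' hm hm'
        have h1 : (i a * i' a') • t m m' = (p1 * q).negOnePow • t (a • m) (a' • m') := by
          rw [mul_smul, ← sgn_sgn (p1 * q) (i' a' • t m m'), ← h.l' p1 q a' m m' hm ha',
            sgn_smul, ← h.l]
        rw [h1, heA, het, repBox_kz ((ρ.rep.mem p1 m).1 hm) ((r'.rep.mem q a').1 ha')]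
        rw [show e ((p1 * q).negOnePow • t (a • m) (a' • m')) =
          (p1 * q).negOnePow • e (t (a • m) (a' • m')) from
          sgn_map (e : MM →+ N.M ⊗[k] N'.M) _ _, het, ρ.l, ρ'.l]
  · intro b m
    change e (op b • m) = kz D.dg N'.dg N.rr N'.rr (e m) (eB b)
    refine tens_ind H' s s' (P := fun b => e (op b • m) =
      kz D.dg N'.dg N.rr N'.rr (e m) (eB b)) ?_ ?_ ?_ b
    · rw [op_zero, zero_smul, map_zero, map_zero, map_zero]
    · intro a b ha hb
      rw [op_add, add_smul, map_add, map_add, map_add, ha, hb]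
    · intro p q b b' hb hb'
      refine box_ind h.bij ρ ρ' (P := fun m => e (op (j b * j' b') • m) =
        kz D.dg N'.dg N.rr N'.rr (e m) (eB (j b * j' b'))) ?_ ?_ ?_ m
      · rw [smul_zero, map_zero, map_zero, LinearMap.zero_apply]
      · intro v w hv hw
        rw [smul_add, map_add, map_add, map_add, LinearMap.add_apply, hv, hw]
      · intro p1 q1 m m' hm hm'
        have h1 : op (j b * j' b') • t m m' =
            (q1 * p).negOnePow • t (op b • m) (op b' • m') := by
          rw [op_mul, mul_smul, ← sgn_sgn (q1 * p) (op (j b) • t m m'),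
            ← h.r q1 p b m m' hm' hb, sgn_smul, ← h.r']
        rw [h1, heB, het, repBox_kz ((s.rep.mem p b).1 hb) ((ρ'.rep.mem q1 m').1 hm'),
          mul_comm p q1]
        rw [show e ((q1 * p).negOnePow • t (op b • m) (op b' • m')) =
          (q1 * p).negOnePow • e (t (op b • m) (op b' • m')) from
          sgn_map (e : MM →+ N.M ⊗[k] N'.M) _ _, het, ρ.r, ρ'.r]
        rfl
  · intro v
    change e (T.d v) = (N.dg.tensor N'.dg).d (e v)
    refine box_ind h.bij ρ ρ' (P := fun v => e (T.d v) = (N.dg.tensor N'.dg).d (e v))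
      ?_ ?_ ?_ v
    · rw [map_zero, map_zero, map_zero]
    · intro v w hv hw
      rw [map_add, map_add, map_add, map_add, hv, hw]
    · intro p q m m' hm hm'
      rw [h.d p m m' hm, map_add, het m m', Dg.tensor_d, het,
        show e (p.negOnePow • t m (Z'.d m')) = p.negOnePow • e (t m (Z'.d m')) from
          sgn_map (e : MM →+ N.M ⊗[k] N'.M) _ _, het, ρ.rep.s hm, ρ.rep.d, ρ'.rep.d]
      congr 1

/-- A dg bimodule represented by `box N N'` is an external tensor product. -/
theorem exists_isBox (H : IsTens X X' E i i') (H' : IsTens Y Y' F j j') (ρ : RepB r s Z N)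
    (ρ' : RepB r' s' Z' N') (τ : RepB (H.rep r r') (H'.rep s s') T (box N N')) :
    ∃ t : M →ₗ[k] M' →ₗ[k] MM, IsBox i i' j j' Z Z' T t := by
  let e : MM ≃ₗ[k] N.M ⊗[k] N'.M := τ.e
  let t : M →ₗ[k] M' →ₗ[k] MM :=
    ((TensorProduct.mk k N.M N'.M).compl₁₂ ρ.e.toLinearMap ρ'.e.toLinearMap).compr₂
      e.symm.toLinearMap
  have ht : ∀ m m', e (t m m') = ρ.e m ⊗ₜ[k] ρ'.e m' := fun m m' => e.apply_symm_apply _
  have hl : ∀ (a : AA) (m : MM), e (a • m) = kz N.dg C'.dg N.l N'.l ((H.rep r r').e a) (e m) :=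
    fun a m => τ.l a m
  have hr : ∀ (b : BB) (m : MM), e (op b • m) =
      kz D.dg N'.dg N.rr N'.rr (e m) ((H'.rep s s').e b) := fun b m => τ.r b m
  have hia : ∀ a, (H.rep r r').e (i a) = r.e a ⊗ₜ[k] C'.one := by
    intro a
    have h1 := H.rep_e r r' a 1
    rwa [map_one, mul_one, r'.one] at h1
  have hia' : ∀ a, (H.rep r r').e (i' a) = C.one ⊗ₜ[k] r'.e a := by
    intro a
    have h1 := H.rep_e r r' 1 a
    rwa [map_one, one_mul, r.one] at h1
  have hjb : ∀ a, (H'.rep s s').e (j a) = s.e a ⊗ₜ[k] D'.one := by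
    intro a
    have h1 := H'.rep_e s s' a 1
    rwa [map_one, mul_one, s'.one] at h1
  have hjb' : ∀ a, (H'.rep s s').e (j' a) = D.one ⊗ₜ[k] s'.e a := by
    intro a
    have h1 := H'.rep_e s s' 1 a
    rwa [map_one, one_mul, s.one] at h1
  refine ⟨t, ?_, ?_, ?_, ?_, ?_, ?_, ?_⟩
  · intro a m m'
    apply e.injective
    rw [ht, hl, hia, ht, kz_even C'.o_one, ρ.l, N'.l_one]
  · intro p q a m m' hm ha
    apply e.injective
    rw [show e ((p * q).negOnePow • i' a • t m m') = (p * q).negOnePow • e (i' a • t m m') from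
      sgn_map (e : MM →+ N.M ⊗[k] N'.M) _ _, ht, hl, hia', ht,
      repBox_kz ((ρ.rep.mem p m).1 hm) ((r'.rep.mem q a).1 ha), sgn_sgn, ρ'.l, N.l_one]
  · intro p q b m m' hm hb
    apply e.injective
    rw [show e ((p * q).negOnePow • op (j b) • t m m') =
      (p * q).negOnePow • e (op (j b) • t m m') from
      sgn_map (e : MM →+ N.M ⊗[k] N'.M) _ _, ht, hr, hjb, ht,
      repBox_kz ((s.rep.mem q b).1 hb) ((ρ'.rep.mem p m').1 hm), mul_comm q p, sgn_sgn, ρ.r,
      Bim.rr_apply, Bim.rr_apply, N'.r_one]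
  · intro b m m'
    apply e.injective
    rw [ht, hr, hjb', ht, kz_even' D.o_one, ρ'.r, Bim.rr_apply, Bim.rr_apply, N.r_one]
  · intro p q m m' hm hm'
    refine (τ.rep.mem (p + q) _).2 ?_
    change (N.dg.tensor N'.dg).IsDeg (p + q) (e (t m m'))
    rw [ht]
    exact Dg.tensor_deg ((ρ.rep.mem p m).1 hm) ((ρ'.rep.mem q m').1 hm')
  · intro p m m' hm
    apply e.injective
    have h1 : e (T.d (t m m')) = (N.dg.tensor N'.dg).d (e (t m m')) := τ.rep.d _
    rw [h1, map_add, ht, ht, Dg.tensor_d,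
      show e (p.negOnePow • t m (Z'.d m')) = p.negOnePow • e (t m (Z'.d m')) from
        sgn_map (e : MM →+ N.M ⊗[k] N'.M) _ _, ht, ρ.rep.s hm, ρ.rep.d, ρ'.rep.d]
    congr 1
  · have h1 : (TensorProduct.lift t : M ⊗[k] M' → MM) =
        (TensorProduct.congr ρ.e ρ'.e ≪≫ₗ e.symm) := by
      have h2 : TensorProduct.lift t =
          ((TensorProduct.congr ρ.e ρ'.e ≪≫ₗ e.symm : M ⊗[k] M' ≃ₗ[k] MM) :
            M ⊗[k] M' →ₗ[k] MM) := by
        ext m m'
        rfl
      rw [h2]
      rfl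
    rw [h1]
    exact (TensorProduct.congr ρ.e ρ'.e ≪≫ₗ e.symm).bijective

end Pool.Agent.MP_6e5bed_ag_SP
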