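import Pool.Agent.Lib.MP_6e5bed_ag_SP.MFun
import Pool.Agent.Lib.MP_6e5bed_ag_SP.RepBox

set_option autoImplicit false

/-!
# The functor from `SP k` to a model is monoidal
-/

namespace Pool.Agent.MP_6e5bed_ag_SP

open CategoryTheory MonoidalCategory MulOpposite Pool.Agent.MP_6e5bed_ag_NC
open scoped TensorProduct

universe u

section aux

variable {k : Type u} [CommRing k] {A A' AA : Type u} [Ring A] [Algebra k A] [Ring A']
  [Algebra k A'] [Ring AA] [Algebra k AA] {X : DG k A} {X' : DG k A'} {E : DG k AA}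
  {B B' : DGA k}

/-- The representation by an isomorphic dg algebra. -/
noncomputable def MMon_trans {C : DGA k} (r : Rep X B) (φ : DIso B C) : Rep X C where
  e := r.e ≪≫ₗ LinearEquiv.ofLinearMap φ.hom.f φ.inv.f
    (LinearMap.ext fun a => φ.inv_hom a) (LinearMap.ext fun a => φ.hom_inv a)
  one := (congrArg φ.hom.f r.one).trans φ.hom.one
  mul := fun a b => (congrArg φ.hom.f (r.mul a b)).trans (φ.hom.mul _ _)
  rep :=
    { mem := fun n v => by
        refine ⟨fun h => φ.hom.deg ((r.rep.mem n v).1 h), fun h => (r.rep.mem n v).2 ?_⟩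
        have h1 : B.dg.IsDeg n (φ.inv.f (φ.hom.f (r.e v))) := φ.inv.deg h
        rwa [φ.hom_inv] at h1
      d := fun v => (congrArg φ.hom.f (r.rep.d v)).trans (φ.hom.d _).symm }

theorem MMon_trans_e {C : DGA k} (r : Rep X B) (φ : DIso B C) (a : A) :
    (MMon_trans r φ).e a = φ.hom.f (r.e a) := rfl

/-- Change of the representations of the algebras. -/
noncomputable def MMon_res {D M : Type u} [Ring D] [Algebra k D] [AddCommGroup M] [Module k M]
    [Module A M] [Module Dᵐᵒᵖ M] {Y : DG k D} {C C' : DGA k} {r : Rep X B} {r' : Rep X B'}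
    {s : Rep Y C} {s' : Rep Y C'} {Z : Bm X Y M} {N : Bim B C} (ρ : RepB r s Z N)
    (φ : DHom B' B) (ψ : DHom C' C) (h : ∀ a, φ.f (r'.e a) = r.e a)
    (h' : ∀ a, ψ.f (s'.e a) = s.e a) : RepB r' s' Z (res φ ψ N) where
  e := ρ.e
  l := fun a m => by
    change ρ.e (a • m) = N.l (φ.f (r'.e a)) (ρ.e m)
    rw [h, ρ.l]
  r := fun a m => by
    change ρ.e (op a • m) = N.r (ψ.f (s'.e a)) (ρ.e m)
    rw [h', ρ.r]
  rep := ρ.rep

/-- Change of the representations of the algebras, with the same dg algebras. -/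
noncomputable def MMon_congr {D M : Type u} [Ring D] [Algebra k D] [AddCommGroup M] [Module k M]
    [Module A M] [Module Dᵐᵒᵖ M] {Y : DG k D} {C : DGA k} {r r' : Rep X B}
    {s s' : Rep Y C} {Z : Bm X Y M} {N : Bim B C} (ρ : RepB r s Z N)
    (h : ∀ a, r'.e a = r.e a) (h' : ∀ a, s'.e a = s.e a) : RepB r' s' Z N where
  e := ρ.e
  l := fun a m => by rw [h, ρ.l]
  r := fun a m => by rw [h', ρ.r]
  rep := ρ.rep

variable {i : A →ₐ[k] AA} {i' : A' →ₐ[k] AA}

theorem MMon_ind (T : IsTens X X' E i i') {P : AA → Prop} (h0 : P 0)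
    (hadd : ∀ a b, P a → P b → P (a + b)) (h : ∀ a a', P (i a * i' a')) (x : AA) : P x := by
  obtain ⟨y, rfl⟩ := T.bij.2 x
  induction y using TensorProduct.induction_on with
  | zero => rw [map_zero]; exact h0
  | add x y hx hy => rw [map_add]; exact hadd _ _ hx hy
  | tmul a a' => exact h a a'

theorem MMon_rep_l (T : IsTens X X' E i i') (r : Rep X B) (r' : Rep X' B') (a : A) :
    (T.rep r r').e (i a) = (r.e a ⊗ₜ[k] B'.one : B.A ⊗[k] B'.A) := by
  have h := T.rep_e r r' a 1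
  rwa [map_one, mul_one, r'.one] at h

theorem MMon_rep_r (T : IsTens X X' E i i') (r : Rep X B) (r' : Rep X' B') (a : A') :
    (T.rep r r').e (i' a) = (B.one ⊗ₜ[k] r'.e a : B.A ⊗[k] B'.A) := by
  have h := T.rep_e r r' 1 a
  rwa [map_one, one_mul, r.one] at h

theorem MMon_rep_mul (r : Rep X B) (r' : Rep X' B') (R : Rep E (B.tensor B'))
    (h : ∀ a, R.e (i a) = (r.e a ⊗ₜ[k] B'.one : B.A ⊗[k] B'.A))
    (h' : ∀ a, R.e (i' a) = (B.one ⊗ₜ[k] r'.e a : B.A ⊗[k] B'.A)) (a : A) (a' : A') :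
    R.e (i a * i' a') = (r.e a ⊗ₜ[k] r'.e a' : B.A ⊗[k] B'.A) := by
  rw [R.mul, h, h']
  change kz B.dg B'.dg B.mul B'.mul (r.e a ⊗ₜ B'.one) (B.one ⊗ₜ r'.e a') = _
  rw [kz_even B'.o_one, B.mul_one, B'.one_mul]

theorem MMon_rep_eq (T : IsTens X X' E i i') (r : Rep X B) (r' : Rep X' B')
    (R : Rep E (B.tensor B')) (h : ∀ a, R.e (i a) = (r.e a ⊗ₜ[k] B'.one : B.A ⊗[k] B'.A))
    (h' : ∀ a, R.e (i' a) = (B.one ⊗ₜ[k] r'.e a : B.A ⊗[k] B'.A)) (x : AA) :
    (T.rep r r').e x = R.e x := by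
  refine MMon_ind T (P := fun x => (T.rep r r').e x = R.e x) ?_ (fun a b ha hb => ?_)
    (fun a a' => ?_) x
  · rw [map_zero, map_zero]
  · rw [map_add, map_add, ha, hb]
  · rw [MMon_rep_mul r r' R h h', T.rep_e]

theorem MMon_swap_r (b : B'.A) : (swapIso B B').hom.f (B.one ⊗ₜ[k] b : B.A ⊗[k] B'.A) =
    (b ⊗ₜ[k] B.one : B'.A ⊗[k] B.A) := by
  change ksw B.dg B'.dg (B.one ⊗ₜ b) = b ⊗ₜ B.one
  rw [ksw_tmul, B.o_one]
  simp

theorem MMon_swap_l (b : B.A) : (swapIso B B').hom.f (b ⊗ₜ[k] B'.one : B.A ⊗[k] B'.A) =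
    (B'.one ⊗ₜ[k] b : B'.A ⊗[k] B.A) := by
  change ksw B.dg B'.dg (b ⊗ₜ B'.one) = B'.one ⊗ₜ b
  rw [ksw_tmul, B'.o_one]
  simp

theorem MMon_symm (T : IsTens X X' E i i') (r : Rep X B) (r' : Rep X' B') :
    IsTens X' X E i' i := by
  obtain ⟨p, q, hT, hp, hq⟩ := exists_isTens r' r (MMon_trans (T.rep r r') (swapIso B B'))
  have h1 : p = i' := by
    refine AlgHom.ext fun a => (MMon_trans (T.rep r r') (swapIso B B')).e.injective ?_
    rw [hp, MMon_trans_e, MMon_rep_r]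
    exact (MMon_swap_r (r'.e a)).symm
  have h2 : q = i := by
    refine AlgHom.ext fun a => (MMon_trans (T.rep r r') (swapIso B B')).e.injective ?_
    rw [hq, MMon_trans_e, MMon_rep_l]
    exact (MMon_swap_l (r.e a)).symm
  rw [h1, h2] at hT
  exact hT

end aux

section sp

variable {k : Type u} [CommRing k]

/-- The first homomorphism to the tensor product. -/
noncomputable def MMon_i (A B : DGA k) : RA A →ₐ[k] RA (A.tensor B) :=
  (exists_isTens (repOf A) (repOf B) (repOf (A.tensor B))).choose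

/-- The second homomorphism to the tensor product. -/
noncomputable def MMon_j (A B : DGA k) : RA B →ₐ[k] RA (A.tensor B) :=
  (exists_isTens (repOf A) (repOf B) (repOf (A.tensor B))).choose_spec.choose

theorem MMon_T (A B : DGA k) :
    IsTens (DG.of A) (DG.of B) (DG.of (A.tensor B)) (MMon_i A B) (MMon_j A B) :=
  (exists_isTens (repOf A) (repOf B) (repOf (A.tensor B))).choose_spec.choose_spec.1

theorem MMon_i_e (A B : DGA k) (a : RA A) : (repOf (A.tensor B)).e (MMon_i A B a) =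
    ((repOf A).e a ⊗ₜ[k] B.one : A.A ⊗[k] B.A) :=
  (exists_isTens (repOf A) (repOf B) (repOf (A.tensor B))).choose_spec.choose_spec.2.1 a

theorem MMon_j_e (A B : DGA k) (b : RA B) : (repOf (A.tensor B)).e (MMon_j A B b) =
    (A.one ⊗ₜ[k] (repOf B).e b : A.A ⊗[k] B.A) :=
  (exists_isTens (repOf A) (repOf B) (repOf (A.tensor B))).choose_spec.choose_spec.2.2 b

/-- The two representations of the tensor product are the same. -/
theorem MMon_T_rep (A B : DGA k) (x : RA (A.tensor B)) :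
    ((MMon_T A B).rep (repOf A) (repOf B)).e x = (repOf (A.tensor B)).e x :=
  MMon_rep_eq (MMon_T A B) (repOf A) (repOf B) (repOf (A.tensor B))
    (MMon_i_e A B) (MMon_j_e A B) x

/-- The external tensor product of two bimodules. -/
theorem MMon_box {A B A' B' : DGA k} (M : Bim A B) (M' : Bim A' B') :
    ∃ t : RM (repOf A) (repOf B) M →ₗ[k] RM (repOf A') (repOf B') M' →ₗ[k]
        RM (repOf (A.tensor A')) (repOf (B.tensor B')) (box M M'),
      IsBox (MMon_i A A') (MMon_j A A') (MMon_i B B') (MMon_j B B')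
        (Bm.of (repOf A) (repOf B) M) (Bm.of (repOf A') (repOf B') M')
        (Bm.of (repOf (A.tensor A')) (repOf (B.tensor B')) (box M M')) t :=
  exists_isBox (MMon_T A A') (MMon_T B B')
    (Bm.ofRepB (repOf A) (repOf B) M) (Bm.ofRepB (repOf A') (repOf B') M')
    (MMon_congr (Bm.ofRepB (repOf (A.tensor A')) (repOf (B.tensor B')) (box M M'))
      (MMon_T_rep A A') (MMon_T_rep B B'))

theorem MMon_assoc (A B D : DGA k) :
    ∃ q : RA (B.tensor D) →ₐ[k] RA ((A.tensor B).tensor D),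
      IsTens (DG.of A) (DG.of (B.tensor D)) (DG.of ((A.tensor B).tensor D))
        ((MMon_i (A.tensor B) D).comp (MMon_i A B)) q ∧
      (MMon_i (A.tensor B) D).comp (MMon_j A B) = q.comp (MMon_i B D) ∧
      q.comp (MMon_j B D) = MMon_j (A.tensor B) D ∧
      (∀ x, (repOf (A.tensor (B.tensor D))).e (MMon_i A (B.tensor D) x) =
        (assocIso A B D).hom.f ((repOf ((A.tensor B).tensor D)).e
          (((MMon_i (A.tensor B) D).comp (MMon_i A B)) x))) ∧
      ∀ x, (repOf (A.tensor (B.tensor D))).e (MMon_j A (B.tensor D) x) =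
        (assocIso A B D).hom.f ((repOf ((A.tensor B).tensor D)).e (q x)) := by
  obtain ⟨p, q, hT, hp, hq⟩ := exists_isTens (repOf A) (repOf (B.tensor D))
    (MMon_trans (repOf ((A.tensor B).tensor D)) (assocIso A B D))
  have hinj := (MMon_trans (repOf ((A.tensor B).tensor D)) (assocIso A B D)).e.injective
  have h0 : ∀ a, (MMon_trans (repOf ((A.tensor B).tensor D)) (assocIso A B D)).e
      (((MMon_i (A.tensor B) D).comp (MMon_i A B)) a) =
      ((repOf A).e a ⊗ₜ[k] (B.tensor D).one : A.A ⊗[k] (B.tensor D).A) := fun a => by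
    rw [MMon_trans_e, AlgHom.comp_apply, MMon_i_e, MMon_i_e]
    rfl
  have h1 : p = (MMon_i (A.tensor B) D).comp (MMon_i A B) :=
    AlgHom.ext fun a => hinj ((hp a).trans (h0 a).symm)
  have h2 : (MMon_i (A.tensor B) D).comp (MMon_j A B) = q.comp (MMon_i B D) := by
    refine AlgHom.ext fun a => hinj (Eq.trans ?_ (hq (MMon_i B D a)).symm)
    rw [AlgHom.comp_apply, MMon_trans_e, MMon_i_e, MMon_j_e, MMon_i_e]
    rfl
  have h3 : q.comp (MMon_j B D) = MMon_j (A.tensor B) D := by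
    refine AlgHom.ext fun a => hinj ((hq (MMon_j B D a)).trans ?_)
    rw [MMon_trans_e, MMon_j_e, MMon_j_e]
    rfl
  refine ⟨q, h1 ▸ hT, h2, h3, fun x => ?_, fun x => ?_⟩
  · rw [MMon_i_e]
    exact (h0 x).symm
  · rw [MMon_j_e]
    exact (hq x).symm

theorem MMon_lunit (A : DGA k) : ∃ i : RA (MP_6e5bed_ag_NC.base k) →ₐ[k] RA A,
    IsTens (DG.of (MP_6e5bed_ag_NC.base k)) (DG.of A) (DG.of A) i (AlgHom.id k (RA A)) ∧
      (∀ c, (repOf A).e (i c) = (lunitIso A).hom.f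
        ((repOf ((MP_6e5bed_ag_NC.base k).tensor A)).e (MMon_i (MP_6e5bed_ag_NC.base k) A c))) ∧
      ∀ a, (repOf A).e (AlgHom.id k (RA A) a) = (lunitIso A).hom.f
        ((repOf ((MP_6e5bed_ag_NC.base k).tensor A)).e
          (MMon_j (MP_6e5bed_ag_NC.base k) A a)) := by
  obtain ⟨p, q, hT, hp, hq⟩ := exists_isTens (repOf (MP_6e5bed_ag_NC.base k)) (repOf A)
    (MMon_trans (repOf A) (lunitIso A).symm)
  have h0 : ∀ a, (repOf A).e a = (lunitIso A).hom.f
      ((MP_6e5bed_ag_NC.base k).one ⊗ₜ[k] (repOf A).e a : (MP_6e5bed_ag_NC.base k).A ⊗[k] A.A) :=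
    fun a => ((lunitIso_hom (A := A) (1 : k) ((repOf A).e a)).trans (one_smul k _)).symm
  have h1 : ∀ a, (repOf A).e (q a) = (repOf A).e a := fun a =>
    ((lunitIso A).inv_hom _).symm.trans ((congrArg (lunitIso A).hom.f (hq a)).trans (h0 a).symm)
  have h2 : q = AlgHom.id k (RA A) :=
    AlgHom.ext fun a => (repOf A).e.injective (h1 a)
  refine ⟨p, h2 ▸ hT, fun c => ?_, fun a => ?_⟩
  · rw [MMon_i_e]
    exact ((lunitIso A).inv_hom _).symm.trans (congrArg (lunitIso A).hom.f (hp c))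
  · rw [MMon_j_e]
    exact h0 a

theorem MMon_runit (A : DGA k) : ∃ i : RA (MP_6e5bed_ag_NC.base k) →ₐ[k] RA A,
    IsTens (DG.of (MP_6e5bed_ag_NC.base k)) (DG.of A) (DG.of A) i (AlgHom.id k (RA A)) ∧
      (∀ a, (repOf A).e (AlgHom.id k (RA A) a) = (runitIso A).hom.f
        ((repOf (A.tensor (MP_6e5bed_ag_NC.base k))).e
          (MMon_i A (MP_6e5bed_ag_NC.base k) a))) ∧
      ∀ c, (repOf A).e (i c) = (runitIso A).hom.f
        ((repOf (A.tensor (MP_6e5bed_ag_NC.base k))).e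
          (MMon_j A (MP_6e5bed_ag_NC.base k) c)) := by
  obtain ⟨i, T, h1, h2⟩ := MMon_lunit A
  refine ⟨i, T, fun a => ?_, fun c => ?_⟩
  · rw [MMon_i_e]
    exact ((runitIso_hom (A := A) (1 : k) ((repOf A).e a)).trans (one_smul k _)).symm
  · rw [h1, MMon_i_e, MMon_j_e]
    rfl

/-- The isomorphism of the tensor products, in terms of the two representations. -/
theorem MMon_diso {A A' : Type u} [Ring A] [Algebra k A] [Ring A'] [Algebra k A'] {X : DG k A}
    {X' : DG k A'} {B B' R R' : DGA k} (r : Rep X B) (r' : Rep X' B')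
    {i : A →ₐ[k] RA R} {i' : A' →ₐ[k] RA R} {j : A →ₐ[k] RA R'}
    {j' : A' →ₐ[k] RA R'} (T : IsTens X X' (DG.of R) i i')
    (T' : IsTens X X' (DG.of R') j j') (φ : DIso R R')
    (h : ∀ a, (repOf R').e (j a) = φ.hom.f ((repOf R).e (i a)))
    (h' : ∀ a, (repOf R').e (j' a) = φ.hom.f ((repOf R).e (i' a))) :
    ((repOf R).diso (T.rep r r')).trans ((T'.rep r r').diso (repOf R')) = φ := by
  refine DIso.ext fun x => ?_
  obtain ⟨y, rfl⟩ := (repOf R).e.surjective x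
  change ((T'.rep r r').diso (repOf R')).hom.f
    (((repOf R).diso (T.rep r r')).hom.f ((repOf R).e y)) = φ.hom.f ((repOf R).e y)
  rw [Rep.diso_hom]
  refine MMon_ind T (P := fun y => ((T'.rep r r').diso (repOf R')).hom.f ((T.rep r r').e y) =
    φ.hom.f ((repOf R).e y)) ?_ (fun a b ha hb => ?_) (fun a a' => ?_) y
  · rw [map_zero, map_zero, map_zero, map_zero]
  · rw [map_add, map_add, map_add, map_add, ha, hb]
  · rw [T.rep_e, ← T'.rep_e, Rep.diso_hom, (repOf R').mul, h, h', ← φ.hom.mul,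
      ← (repOf R).mul]

/-- The class of the external tensor product of two resolutions. -/
theorem MMon_one {B B' : DGA k} (hA : Smooth B) (hP : Proper B) (hA' : Smooth B')
    (hP' : Proper B') {N : Bim B B} {N' : Bim B' B'} (hN : MP_6e5bed_ag_NC.Perf N)
    (hN' : MP_6e5bed_ag_NC.Perf N') {φ : GMap 0 N (MP_6e5bed_ag_NC.diag B)}
    {φ' : GMap 0 N' (MP_6e5bed_ag_NC.diag B')} (hφ : RQIso φ) (hφ' : RQIso φ') :
    cls (box N N') (MP_6e5bed_ag_NC.Perf.box hN hN') = K0Q.one (hA.tensor hA') := by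
  obtain ⟨ι, ρ, h0, h1, h2⟩ := box_diag B B'
  exact (K0Q.one_eq (hA.tensor hA') (hP.tensor hP') (MP_6e5bed_ag_NC.Perf.box hN hN')
    (((RQIso.boxR hφ N').comp
      (RQIso.boxL (MP_6e5bed_ag_NC.diag B) hφ')).comp (RQIso.of_inv h0 h1 h2))).symm

/-- The morphism given by an isomorphism of dg algebras, as a class. -/
theorem MMon_ofIso {R R' : SP k} {B : DGA k} (hA : Smooth B) (hP : Proper B)
    (χ : DIso R.alg B) (ψ : DIso B R'.alg) {N : Bim B B} (hN : MP_6e5bed_ag_NC.Perf N)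
    (h : cls N hN = K0Q.one hA) :
    ofIso (A := R) (B := R') (χ.trans ψ) =
      cls (res χ.hom ψ.symm.hom N) (K0Q.res_perf χ ψ.symm hN) := by
  rw [← K0Q.res_cls χ ψ.symm hN, h, ← K0Q.res_one hA R'.smooth hP ψ, K0Q.res_res, DIso.symm_trans]
  rfl

end sp

variable {k : Type u} [Field k] {C : Type (u + 1)} [Category.{u + 1} C] [MonoidalCategory C]
  [SymmetricCategory C] [Preadditive C] [MonoidalPreadditive C] [Linear ℚ C] (H : NCMot k C)

namespace NCMot

/-- The isomorphism `F A ⊗ F B ≅ F (A ⊗ B)`. -/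
noncomputable def fμ (A B : SP k) : H.fobj A ⊗ H.fobj B ≅ H.fobj (A.tensor B) :=
  H.tens (smPr_of A) (smPr_of B) (smPr_of (A.tensor B))
    (exists_isTens (repOf A.alg) (repOf B.alg)
      (repOf (A.tensor B).alg)).choose_spec.choose_spec.1

theorem fμ_def (A B : SP k) :
    H.fμ A B = H.tens (smPr_of A) (smPr_of B) (smPr_of (A.tensor B)) (MMon_T A.alg B.alg) := rfl

/-- The naturality for classes. -/
private theorem fμ_cls {A A' B B' : SP k} {M : Bim A.alg B.alg} {M' : Bim A'.alg B'.alg}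
    (hM : MP_6e5bed_ag_NC.Perf M) (hM' : MP_6e5bed_ag_NC.Perf M') :
    (H.fhom A B (cls M hM) ⊗ₘ H.fhom A' B' (cls M' hM')) ≫ (H.fμ B B').hom =
      (H.fμ A A').hom ≫ H.fhom (A.tensor A') (B.tensor B')
        (cls (box M M') (MP_6e5bed_ag_NC.Perf.box hM hM')) := by
  have hZ : Perf (Bm.of (repOf A.alg) (repOf B.alg) M) := Perf.of hM (Bm.ofRepB _ _ M)
  have hZ' : Perf (Bm.of (repOf A'.alg) (repOf B'.alg) M') := Perf.of hM' (Bm.ofRepB _ _ M')
  obtain ⟨τ⟩ : Nonempty (RepB (repOf (A.tensor A').alg) (repOf (B.tensor B').alg)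
      (Bm.of (repOf (A.tensor A').alg) (repOf (B.tensor B').alg) (box M M')) (box M M')) :=
    ⟨Bm.ofRepB _ _ _⟩
  have hZZ : Perf (Bm.of (repOf (A.tensor A').alg) (repOf (B.tensor B').alg) (box M M')) :=
    Perf.of (MP_6e5bed_ag_NC.Perf.box hM hM') τ
  obtain ⟨t, ht⟩ := MMon_box M M'
  have h := H.cl_tens (smPr_of A) (smPr_of A') (smPr_of (A.tensor A')) (smPr_of B)
    (smPr_of B') (smPr_of (B.tensor B')) (MMon_T A.alg A'.alg) (MMon_T B.alg B'.alg) _ _ _ hZ hZ' hZZ t ht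
  rw [H.fhom_cls hZ (Bm.ofRepB _ _ M) hM, H.fhom_cls hZ' (Bm.ofRepB _ _ M') hM', fμ_def,
    fμ_def]
  exact h.trans (congrArg _ (H.fhom_cls (A := A.tensor A') (B := B.tensor B') hZZ τ _).symm)

omit [MonoidalCategory C] [SymmetricCategory C] [MonoidalPreadditive C] in
/-- A biadditive identity may be checked on classes. -/
private theorem fμ_ind {A A' B B' : SP k} {P Q : C} {β γ : (A ⟶ B) →+ (A' ⟶ B') →+ (P ⟶ Q)}
    (h : ∀ M hM M' hM', β (cls M hM) (cls M' hM') = γ (cls M hM) (cls M' hM'))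
    (x : A ⟶ B) (y : A' ⟶ B') : β x y = γ x y := by
  refine K0Q.ind (P := fun x => β x y = γ x y) ?_ ?_ ?_ (fun M hM => ?_) x
  · intro x x' hx hx'
    rw [map_add, map_add, AddMonoidHom.add_apply, AddMonoidHom.add_apply, hx, hx']
  · intro c x hx
    have h1 : β (c • x) y = c • β x y := map_rat_smul (β.flip y) c x
    have h2 : γ (c • x) y = c • γ x y := map_rat_smul (γ.flip y) c x
    rw [h1, h2, hx]
  · rw [map_zero, map_zero]
  · refine K0Q.ind (P := fun y => β (cls M hM) y = γ (cls M hM) y) ?_ ?_ ?_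
      (fun M' hM' => h M hM M' hM') y
    · intro y y' hy hy'
      rw [map_add, map_add, hy, hy']
    · intro c y hy
      rw [map_rat_smul, map_rat_smul, hy]
    · rw [map_zero, map_zero]

theorem fμ_nat {A A' B B' : SP k} (x : A ⟶ B) (y : A' ⟶ B') :
    (H.fhom A B x ⊗ₘ H.fhom A' B' y) ≫ (H.fμ B B').hom =
      (H.fμ A A').hom ≫ H.fhom (A ⊗ A') (B ⊗ B') (x ⊗ₘ y) := by
  refine fμ_ind (β := AddMonoidHom.mk' (fun x => AddMonoidHom.mk'
      (fun y => (H.fhom A B x ⊗ₘ H.fhom A' B' y) ≫ (H.fμ B B').hom) ?_) ?_)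
    (γ := AddMonoidHom.mk' (fun x => AddMonoidHom.mk'
      (fun y => (H.fμ A A').hom ≫ H.fhom (A ⊗ A') (B ⊗ B') (x ⊗ₘ y)) ?_) ?_)
    (fun M hM M' hM' => ?_) x y
  · intro y y'
    rw [map_add, MonoidalPreadditive.tensor_add, Preadditive.add_comp]
  · intro x x'
    refine AddMonoidHom.ext fun y => ?_
    change (H.fhom A B (x + x') ⊗ₘ H.fhom A' B' y) ≫ (H.fμ B B').hom =
      (H.fhom A B x ⊗ₘ H.fhom A' B' y) ≫ (H.fμ B B').hom +
        (H.fhom A B x' ⊗ₘ H.fhom A' B' y) ≫ (H.fμ B B').hom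
    rw [map_add, MonoidalPreadditive.add_tensor, Preadditive.add_comp]
  · intro y y'
    rw [MonoidalPreadditive.tensor_add, map_add, Preadditive.comp_add]
  · intro x x'
    refine AddMonoidHom.ext fun y => ?_
    change (H.fμ A A').hom ≫ H.fhom (A ⊗ A') (B ⊗ B') ((x + x') ⊗ₘ y) =
      (H.fμ A A').hom ≫ H.fhom (A ⊗ A') (B ⊗ B') (x ⊗ₘ y) +
        (H.fμ A A').hom ≫ H.fhom (A ⊗ A') (B ⊗ B') (x' ⊗ₘ y)
    rw [MonoidalPreadditive.add_tensor, map_add, Preadditive.comp_add]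
  · exact (H.fμ_cls hM hM').trans (congrArg (fun z => (H.fμ A A').hom ≫
      H.fhom (A.tensor A') (B.tensor B') z) (K0Q.box_cls hM hM').symm)

/-- Compatibility with isomorphisms of tensor products of dg algebras. -/
theorem MMon_tens_iso {A A' : Type u} [Ring A] [Algebra k A] [Ring A'] [Algebra k A']
    {X : DG k A} {X' : DG k A'} {R R' : SP k} (hX : SmPr X) (hX' : SmPr X')
    {i : A →ₐ[k] RA R.alg} {i' : A' →ₐ[k] RA R.alg} {j : A →ₐ[k] RA R'.alg}
    {j' : A' →ₐ[k] RA R'.alg} (T : IsTens X X' (DG.of R.alg) i i')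
    (T' : IsTens X X' (DG.of R'.alg) j j') (φ : DIso R.alg R'.alg)
    (h : ∀ a, (repOf R'.alg).e (j a) = φ.hom.f ((repOf R.alg).e (i a)))
    (h' : ∀ a, (repOf R'.alg).e (j' a) = φ.hom.f ((repOf R.alg).e (i' a))) :
    (H.tens hX hX' (smPr_of R) T).hom ≫ H.fhom R R' (ofIso φ) =
      (H.tens hX hX' (smPr_of R') T').hom := by
  obtain ⟨M, _, _, _, _, Z, hZ⟩ := hX.1
  obtain ⟨M', _, _, _, _, Z', hZ'⟩ := hX'.1
  have hs : Smooth X.toDGA := hX.smooth X.toRep
  have hp : Proper X.toDGA := hX.proper X.toRep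
  have hs' : Smooth X'.toDGA := hX'.smooth X'.toRep
  have hp' : Proper X'.toDGA := hX'.proper X'.toRep
  obtain ⟨hN, ν, hν⟩ := hZ.to (Z.toRepB X.toRep X.toRep)
  obtain ⟨hN', ν', hν'⟩ := hZ'.to (Z'.toRepB X'.toRep X'.toRep)
  have h1 := MMon_one hs hp hs' hp' hN hN' hν hν'
  obtain ⟨τ⟩ : Nonempty (RepB (T.rep X.toRep X'.toRep) (T'.rep X.toRep X'.toRep)
      (Bm.of (T.rep X.toRep X'.toRep) (T'.rep X.toRep X'.toRep)
        (box (Z.toBim X.toRep X.toRep) (Z'.toBim X'.toRep X'.toRep)))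
      (box (Z.toBim X.toRep X.toRep) (Z'.toBim X'.toRep X'.toRep))) :=
    ⟨Bm.ofRepB _ _ _⟩
  have hZZ : Perf (Bm.of (T.rep X.toRep X'.toRep) (T'.rep X.toRep X'.toRep)
      (box (Z.toBim X.toRep X.toRep) (Z'.toBim X'.toRep X'.toRep))) :=
    Perf.of (MP_6e5bed_ag_NC.Perf.box hN hN') τ
  obtain ⟨t, ht⟩ := exists_isBox T T' (Z.toRepB X.toRep X.toRep)
    (Z'.toRepB X'.toRep X'.toRep) τ
  have h2 := H.cl_tens hX hX' (smPr_of R) hX hX' (smPr_of R') T T' Z Z' _ hZ.1 hZ'.1 hZZ t ht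
  rw [H.cl_one hX Z hZ.1 hZ, H.cl_one hX' Z' hZ'.1 hZ', id_tensorHom_id,
    Category.id_comp] at h2
  rw [h2]
  have h3 := MMon_diso X.toRep X'.toRep T T' φ h h'
  have h4 : ofIso φ = cls (res ((repOf R.alg).diso (T.rep X.toRep X'.toRep)).hom
      ((T'.rep X.toRep X'.toRep).diso (repOf R'.alg)).symm.hom
      (box (Z.toBim X.toRep X.toRep) (Z'.toBim X'.toRep X'.toRep)))
      (K0Q.res_perf _ _ (MP_6e5bed_ag_NC.Perf.box hN hN')) := by
    rw [← h3]
    exact MMon_ofIso (R := R) (R' := R') (hs.tensor hs') (hp.tensor hp') _ _ _ h1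
  refine congrArg _ ?_
  rw [h4]
  refine H.fhom_cls hZZ (MMon_res τ _ _ (fun a => ?_) (fun a => ?_)) _
  · exact Rep.diso_hom _ _ a
  · change ((T'.rep X.toRep X'.toRep).diso (repOf R'.alg)).inv.f ((repOf R'.alg).e a) = _
    rw [← Rep.diso_hom (T'.rep X.toRep X'.toRep) (repOf R'.alg), DIso.hom_inv]

/-- Compatibility with isomorphisms of tensor products of dg algebras. -/
theorem tens_iso {A A' B B' : Type u} [Ring A] [Algebra k A] [Ring A'] [Algebra k A'] [Ring B]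
    [Algebra k B] [Ring B'] [Algebra k B'] {X : DG k A} {X' : DG k A'} {Y : DG k B}
    {Y' : DG k B'} {R R' : SP k} (hX : SmPr X) (hX' : SmPr X')
    {i : A →ₐ[k] RA R.alg} {i' : A' →ₐ[k] RA R.alg} {j : A →ₐ[k] RA R'.alg}
    {j' : A' →ₐ[k] RA R'.alg} (T : IsTens X X' (DG.of R.alg) i i')
    (T' : IsTens X X' (DG.of R'.alg) j j') (φ : DIso R.alg R'.alg)
    (h : ∀ a, (repOf R'.alg).e (j a) = φ.hom.f ((repOf R.alg).e (i a)))
    (h' : ∀ a, (repOf R'.alg).e (j' a) = φ.hom.f ((repOf R.alg).e (i' a))) :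
    (H.tens hX hX' (smPr_of R) T).hom ≫ H.fhom R R' (ofIso φ) =
      (H.tens hX hX' (smPr_of R') T').hom :=
  H.MMon_tens_iso hX hX' T T' φ h h'

theorem MMon_bij : Function.Bijective (algebraMap k (RA (SP.base k).alg)) := by
  have h : ∀ c : k, algebraMap k (RA (SP.base k).alg) c = (show RA (SP.base k).alg from c) := by
    intro c
    rw [Algebra.algebraMap_eq_smul_one]
    exact mul_one c
  refine Function.bijective_iff_has_inverse.2 ⟨fun c => (show k from c), fun c => ?_,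
    fun c => ?_⟩
  · exact h c
  · exact h c

/-- The isomorphism `𝟙 ≅ F k`. -/
noncomputable def fε : 𝟙_ C ≅ H.fobj (SP.base k) :=
  H.unit (smPr_of (SP.base k)) MMon_bij

private theorem MMon_assoc' {A B D AB BD ABD : Type u} [Ring A] [Algebra k A] [Ring B]
    [Algebra k B] [Ring D] [Algebra k D] [Ring AB] [Algebra k AB] [Ring BD] [Algebra k BD]
    [Ring ABD] [Algebra k ABD] {X : DG k A} {Y : DG k B} {W : DG k D} {XY : DG k AB}
    {YW : DG k BD} {XYW : DG k ABD} (hX : SmPr X) (hY : SmPr Y) (hW : SmPr W) (hXY : SmPr XY)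
    (hYW : SmPr YW) (h : SmPr XYW) {i : A →ₐ[k] AB} {i' : B →ₐ[k] AB} {j : B →ₐ[k] BD}
    {j' : D →ₐ[k] BD} {p : AB →ₐ[k] ABD} {q : BD →ₐ[k] ABD} (H₁ : IsTens X Y XY i i')
    (H₂ : IsTens Y W YW j j') {j₀ : D →ₐ[k] ABD} (hj : q.comp j' = j₀)
    (T : IsTens XY W XYW p j₀) (T' : IsTens X YW XYW (p.comp i) q)
    (hpq : p.comp i' = q.comp j) {P : C} {F : H.U XYW h ⟶ P} {m : H.U X hX ⊗ H.U YW hYW ⟶ P}
    (hm : (H.tens hX hYW h T').hom ≫ F = m) :
    ((H.tens hX hY hXY H₁).hom ▷ H.U W hW) ≫ (H.tens hXY hW h T).hom ≫ F =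
      (α_ _ _ _).hom ≫ (H.U X hX ◁ (H.tens hY hW hYW H₂).hom) ≫ m := by
  subst hj hm
  have h1 := H.assoc hX hY hW hXY hYW h H₁ H₂ T T' hpq
  rw [← Category.assoc, h1]
  simp only [Category.assoc]

private theorem MMon_ass (A B D : SP k) :
    (H.fμ A B).hom ▷ H.fobj D ≫ (H.fμ (A.tensor B) D).hom ≫
      H.fhom ((A.tensor B).tensor D) (A.tensor (B.tensor D))
        (ofIso (A := (A.tensor B).tensor D) (B := A.tensor (B.tensor D))
          (assocIso A.alg B.alg D.alg)) =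
    (α_ (H.fobj A) (H.fobj B) (H.fobj D)).hom ≫ H.fobj A ◁ (H.fμ B D).hom ≫
      (H.fμ A (B.tensor D)).hom := by
  obtain ⟨q, T', h1, h2, h3, h3'⟩ := MMon_assoc A.alg B.alg D.alg
  have h4 := H.MMon_tens_iso (R := (A.tensor B).tensor D) (R' := A.tensor (B.tensor D))
    (smPr_of A) (smPr_of (B.tensor D)) T' (MMon_T A.alg (B.alg.tensor D.alg))
    (assocIso A.alg B.alg D.alg) h3 h3'
  exact H.MMon_assoc' (smPr_of A) (smPr_of B) (smPr_of D) (smPr_of (A.tensor B))
    (smPr_of (B.tensor D)) (smPr_of ((A.tensor B).tensor D)) (MMon_T A.alg B.alg)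
    (MMon_T B.alg D.alg) h2 (MMon_T (A.alg.tensor B.alg) D.alg) T' h1 h4

private theorem MMon_left (A : SP k) :
    (λ_ (H.fobj A)).hom = H.fε.hom ▷ H.fobj A ≫ (H.fμ (SP.base k) A).hom ≫
      H.fhom ((SP.base k).tensor A) A
        (ofIso (A := (SP.base k).tensor A) (B := A) (lunitIso A.alg)) := by
  obtain ⟨i, T, h1, h2⟩ := MMon_lunit A.alg
  have h3 := H.MMon_tens_iso (R := (SP.base k).tensor A) (R' := A) (smPr_of (SP.base k))
    (smPr_of A) (MMon_T (MP_6e5bed_ag_NC.base k) A.alg) T (lunitIso A.alg) h1 h2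
  exact (H.left_unit (smPr_of (SP.base k)) (smPr_of A) MMon_bij T).symm.trans
    (congrArg (fun z => H.fε.hom ▷ H.fobj A ≫ z) h3.symm)

private theorem MMon_right (A : SP k) :
    (ρ_ (H.fobj A)).hom = H.fobj A ◁ H.fε.hom ≫ (H.fμ A (SP.base k)).hom ≫
      H.fhom (A.tensor (SP.base k)) A
        (ofIso (A := A.tensor (SP.base k)) (B := A) (runitIso A.alg)) := by
  obtain ⟨i, T, h1, h2⟩ := MMon_runit A.alg
  have T' : IsTens (DG.of A.alg) (DG.of (MP_6e5bed_ag_NC.base k)) (DG.of A.alg)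
      (AlgHom.id k (RA A.alg)) i := MMon_symm T (repOf (MP_6e5bed_ag_NC.base k)) (repOf A.alg)
  have h3 := H.MMon_tens_iso (R := A.tensor (SP.base k)) (R' := A) (smPr_of A)
    (smPr_of (SP.base k)) (MMon_T A.alg (MP_6e5bed_ag_NC.base k)) T' (runitIso A.alg) h1 h2
  refine Eq.trans ?_ (congrArg (fun z => H.fobj A ◁ H.fε.hom ≫ z) h3.symm)
  have h4 := H.braid (smPr_of A) (smPr_of (SP.base k)) (smPr_of A) T' T
  refine Eq.trans ?_ (congrArg (fun z => H.fobj A ◁ H.fε.hom ≫ z) h4.symm)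
  have h5 : (H.fε.hom ▷ H.fobj A) ≫
      (H.tens (smPr_of (SP.base k)) (smPr_of A) (smPr_of A) T).hom = (λ_ (H.fobj A)).hom :=
    H.left_unit (smPr_of (SP.base k)) (smPr_of A) MMon_bij T
  have h6 : H.fobj A ◁ H.fε.hom ≫ (β_ (H.fobj A) (H.fobj (SP.base k))).hom =
      (β_ (H.fobj A) (𝟙_ C)).hom ≫ H.fε.hom ▷ H.fobj A :=
    BraidedCategory.braiding_naturality_right (H.fobj A) H.fε.hom
  refine (braiding_leftUnitor (H.fobj A)).symm.trans ?_
  refine (congrArg (fun z => (β_ (H.fobj A) (𝟙_ C)).hom ≫ z) h5.symm).trans ?_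
  exact (Category.assoc _ _ _).symm.trans ((congrArg (· ≫ _) h6.symm).trans
    (Category.assoc _ _ _))

private theorem MMon_braid (A B : SP k) :
    (H.fμ A B).hom ≫ H.fhom (A.tensor B) (B.tensor A)
      (ofIso (A := A.tensor B) (B := B.tensor A) (swapIso A.alg B.alg)) =
    (β_ (H.fobj A) (H.fobj B)).hom ≫ (H.fμ B A).hom := by
  have T : IsTens (DG.of B.alg) (DG.of A.alg) (DG.of (A.alg.tensor B.alg))
      (MMon_j A.alg B.alg) (MMon_i A.alg B.alg) :=
    MMon_symm (MMon_T A.alg B.alg) (repOf A.alg) (repOf B.alg)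
  have h1 := H.MMon_tens_iso (R := A.tensor B) (R' := B.tensor A) (smPr_of B) (smPr_of A)
    T (MMon_T B.alg A.alg) (swapIso A.alg B.alg) (fun a => by
      refine (MMon_i_e B.alg A.alg a).trans ((MMon_swap_r ((repOf B.alg).e a)).symm.trans ?_)
      exact congrArg (swapIso A.alg B.alg).hom.f (MMon_j_e A.alg B.alg a).symm)
    (fun a => by
      refine (MMon_j_e B.alg A.alg a).trans ((MMon_swap_l ((repOf A.alg).e a)).symm.trans ?_)
      exact congrArg (swapIso A.alg B.alg).hom.f (MMon_i_e A.alg B.alg a).symm)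
  have h2 := H.braid (smPr_of A) (smPr_of B) (smPr_of (A.tensor B)) (MMon_T A.alg B.alg) T
  exact (congrArg (· ≫ H.fhom (A.tensor B) (B.tensor A)
      (ofIso (A := A.tensor B) (B := B.tensor A) (swapIso A.alg B.alg))) h2).trans
    ((Category.assoc _ _ _).trans (congrArg ((β_ (H.fobj A) (H.fobj B)).hom ≫ ·) h1))

private noncomputable def MMon_core : H.F.CoreMonoidal where
  εIso := H.fε
  μIso A B := H.fμ A B
  μIso_hom_natural_left {A B} f D := by
    have h := H.fμ_nat f (𝟙 D)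
    rw [H.fhom_id, tensorHom_id] at h
    exact h
  μIso_hom_natural_right {A B} D f := by
    have h := H.fμ_nat (𝟙 D) f
    rw [H.fhom_id, id_tensorHom] at h
    exact h
  associativity A B D := H.MMon_ass A B D
  left_unitality A := H.MMon_left A
  right_unitality A := H.MMon_right A

noncomputable instance : H.F.Braided where
  toMonoidal := H.MMon_core.toMonoidal
  braided A B := H.MMon_braid A B

end NCMot

end Pool.Agent.MP_6e5bed_ag_SP
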