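import Pool.Agent.Lib.MP_6e5bed_ag_SP.RepSm
import Pool.Agent.Lib.MP_6e5bed_ag_SP.RepCl
import Pool.Agent.Lib.MP_6e5bed_ag_SP.RepTb
import Pool.Agent.Lib.MP_6e5bed_ag_SP.RepBox

set_option autoImplicit false

/-!
# The category `SP k` satisfies the conditions on a model, except idempotent completeness
-/

namespace Pool.Agent.MP_6e5bed_ag_SP

open CategoryTheory MonoidalCategory MulOpposite Pool.Agent.MP_6e5bed_ag_NC

universe u

variable {k : Type u} [Field k]

/-- The smooth proper dg algebra `X`, as an object of the category `SP k`. -/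
noncomputable def toSP {A : Type u} [Ring A] [Algebra k A] (X : DG k A) (hX : SmPr X) : SP k where
  alg := X.toDGA
  smooth := hX.smooth X.toRep
  proper := hX.proper X.toRep

/-- The isomorphism `k ≅ A` if `k → A` is bijective. -/
theorem exists_baseIso {A : Type u} [Ring A] [Algebra k A] {X : DG k A} {A' : DGA k}
    (r : Rep X A') (h : Function.Bijective (algebraMap k A)) : Nonempty (DIso (base k) A') := by
  have h1 : ∀ c : k, (DHom.unit A').f c = r.e (algebraMap k A c) := by
    intro c
    change c • A'.one = r.e (algebraMap k A c)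
    rw [← r.one, ← map_smul, Algebra.algebraMap_eq_smul_one]
  have h2 : Function.Bijective (DHom.unit A').f := by
    have h3 : ((DHom.unit A').f : k → A'.A) = r.e ∘ algebraMap k A := funext h1
    have h4 : Function.Bijective ((DHom.unit A').f : k → A'.A) := by
      rw [h3]
      exact r.e.bijective.comp h
    exact h4
  exact ⟨DIso.mk' (DHom.unit A') (LinearEquiv.ofBijective (DHom.unit A').f h2).symm.toLinearMap
    (fun a => (LinearEquiv.ofBijective (DHom.unit A').f h2).symm_apply_apply a)
    (fun a => (LinearEquiv.ofBijective (DHom.unit A').f h2).apply_symm_apply a)⟩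

/-- The data of the model. -/
noncomputable def spData (k : Type u) [Field k] : NCData k (SP k) where
  U X hX := toSP X hX
  cl {A B M _ _ _ _ _ _ _ _ X Y} hX hY Z h :=
    (cls (Z.toBim X.toRep Y.toRep) (h.to (Z.toRepB X.toRep Y.toRep)) : toSP X hX ⟶ toSP Y hY)
  unit {A _ _ X} hX h := mkIso (A := SP.base k) (B := toSP X hX) (exists_baseIso X.toRep h).some
  tens {A A' AA _ _ _ _ _ _ X X' E} hX hX' hE i i' T :=
    mkIso (A := (toSP X hX).tensor (toSP X' hX')) (B := toSP E hE)
      ((T.rep X.toRep X'.toRep).diso E.toRep)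

theorem sp_homK0 : (spData k).HomK0 := by
  intro A B _ _ _ _ X Y hX hY
  exact isK0_cls X.toRep Y.toRep

theorem sp_clOne : (spData k).ClOne := by
  intro A M _ _ _ _ _ _ X hX Z h hZ
  obtain ⟨hP, φ, hφ⟩ := hZ.to (Z.toRepB X.toRep X.toRep)
  exact (K0Q.one_eq (hX.smooth X.toRep) (hX.proper X.toRep) hP hφ).symm

theorem sp_clComp : (spData k).ClComp := by
  intro A B D M N P _ _ _ _ _ _ _ _ _ _ _ _ _ _ _ _ _ _ X Y W hX hY hW Z Z' T h h' h'' t ht
  exact (K0Q.comp_cls (hY.proper Y.toRep) (h.to (Z.toRepB X.toRep Y.toRep))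
    (h'.to (Z'.toRepB Y.toRep W.toRep))).trans
    (K0Q.cls_iso (IsTb.biso (Z.toRepB X.toRep Y.toRep) (Z'.toRepB Y.toRep W.toRep)
      (T.toRepB X.toRep W.toRep) ht) _ _)

theorem sp_retracts : (spData k).Retracts := by
  intro P
  exact ⟨RA P.alg, inferInstance, inferInstance, DG.of P.alg,
    SmPr.of (repOf P.alg) P.smooth P.proper,
    (mkIso (A := P) (B := toSP (DG.of P.alg) (SmPr.of (repOf P.alg) P.smooth P.proper))
      ((repOf P.alg).diso (DG.of P.alg).toRep)).hom,
    (mkIso (A := P) (B := toSP (DG.of P.alg) (SmPr.of (repOf P.alg) P.smooth P.proper))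
      ((repOf P.alg).diso (DG.of P.alg).toRep)).inv,
    Iso.hom_inv_id _⟩

end Pool.Agent.MP_6e5bed_ag_SP
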