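import Pool.Agent.Lib.MP_6e5bed_ag_SP.ModelA

set_option autoImplicit false

/-!
# The category `SP k` as a model: tensor products
-/

namespace Pool.Agent.MP_6e5bed_ag_SP

open CategoryTheory MonoidalCategory MulOpposite Pool.Agent.MP_6e5bed_ag_NC
open scoped TensorProduct

universe u

section aux

variable {k : Type u} [CommRing k] {A A' AA : Type u} [Ring A] [Algebra k A] [Ring A']
  [Algebra k A'] [Ring AA] [Algebra k AA] {X : DG k A} {X' : DG k A'} {E : DG k AA}

/-- A represented bimodule, restricted along homomorphisms of dg algebras. -/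
private def modelB_res {B M : Type u} [Ring B] [Algebra k B] [AddCommGroup M] [Module k M]
    [Module A M] [Module Bᵐᵒᵖ M] {Y : DG k B} {C D C' D' : DGA k} {r : Rep X C} {s : Rep Y D}
    {r' : Rep X C'} {s' : Rep Y D'} {Z : Bm X Y M} {N : Bim C D} (ρ : RepB r s Z N)
    (φ : DHom C' C) (ψ : DHom D' D) (hφ : ∀ a, φ.f (r'.e a) = r.e a)
    (hψ : ∀ b, ψ.f (s'.e b) = s.e b) : RepB r' s' Z (res φ ψ N) where
  e := ρ.e
  l := fun a m => (ρ.l a m).trans (congrArg (fun c => N.l c (ρ.e m)) (hφ a).symm)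
  r := fun b m => (ρ.r b m).trans (congrArg (fun c => N.r c (ρ.e m)) (hψ b).symm)
  rep := ρ.rep

private theorem modelB_hom {i : A →ₐ[k] AA} {i' : A' →ₐ[k] AA} (T : IsTens X X' E i i')
    (a : A) (a' : A') : ((T.rep X.toRep X'.toRep).diso E.toRep).hom.f
      (X.toRep.e a ⊗ₜ[k] X'.toRep.e a' : X.toDGA.A ⊗[k] X'.toDGA.A) = E.toRep.e (i a * i' a') := by
  rw [← T.rep_e X.toRep X'.toRep a a']
  exact Rep.diso_hom _ _ _

end aux

variable {k : Type u} [Field k]

theorem sp_clTens : (spData k).ClTens := by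
  intro A A' AA B B' BB M M' MM _ _ _ _ _ _ _ _ _ _ _ _ _ _ _ _ _ _ _ _ _ _ _ _ X X' E Y Y' F
    hX hX' hE hY hY' hF i i' j j' T T' Z Z' ZZ h h' h'' t ht
  obtain ⟨ρ⟩ := ht.rep T T' (Z.toRepB X.toRep Y.toRep) (Z'.toRepB X'.toRep Y'.toRep)
  set δ := (T.rep X.toRep X'.toRep).diso E.toRep with hδ
  set δ' := (T'.rep Y.toRep Y'.toRep).diso F.toRep with hδ'
  have e1 := comp_ofIso (A := (toSP X hX).tensor (toSP X' hX'))
    (B := (toSP Y hY).tensor (toSP Y' hY')) (C := toSP F hF)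
    (SP.tensorHom (cls (Z.toBim X.toRep Y.toRep) (h.to (Z.toRepB X.toRep Y.toRep)) :
      toSP X hX ⟶ toSP Y hY) (cls (Z'.toBim X'.toRep Y'.toRep)
        (h'.to (Z'.toRepB X'.toRep Y'.toRep)) : toSP X' hX' ⟶ toSP Y' hY')) δ'
  have e2 := ofIso_comp (A := (toSP X hX).tensor (toSP X' hX')) (B := toSP E hE)
    (C := toSP F hF) δ (cls (ZZ.toBim E.toRep F.toRep) (h''.to (ZZ.toRepB E.toRep F.toRep)))
  refine Eq.trans e1 (Eq.trans ?_ e2.symm)
  have e3 : SP.tensorHom (cls (Z.toBim X.toRep Y.toRep) (h.to (Z.toRepB X.toRep Y.toRep)) :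
      toSP X hX ⟶ toSP Y hY) (cls (Z'.toBim X'.toRep Y'.toRep)
        (h'.to (Z'.toRepB X'.toRep Y'.toRep)) : toSP X' hX' ⟶ toSP Y' hY') =
      cls (box (Z.toBim X.toRep Y.toRep) (Z'.toBim X'.toRep Y'.toRep))
        (MP_6e5bed_ag_NC.Perf.box (h.to (Z.toRepB X.toRep Y.toRep))
          (h'.to (Z'.toRepB X'.toRep Y'.toRep))) := K0Q.box_cls _ _
  rw [e3]
  refine Eq.trans (K0Q.res_cls _ _ _) (Eq.trans ?_ (K0Q.res_cls _ _ _).symm)
  refine K0Q.cls_iso ?_ _ _
  refine RepB.biso (Z := ZZ) (r := T.rep X.toRep X'.toRep) (s := F.toRep)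
    (modelB_res ρ _ _ ?_ ?_) (modelB_res (ZZ.toRepB E.toRep F.toRep) _ _ ?_ ?_)
  · intro a
    rfl
  · intro b
    have := δ'.hom_inv ((T'.rep Y.toRep Y'.toRep).e b)
    rw [hδ', Rep.diso_hom] at this
    exact this
  · intro a
    exact Rep.diso_hom _ _ _
  · intro b
    rfl

/-- The two isomorphisms from `A ⊗ B ⊗ D` are equal. -/
private theorem modelB_assoc {A B D AB BD ABD : Type u} [Ring A] [Algebra k A] [Ring B]
    [Algebra k B] [Ring D] [Algebra k D] [Ring AB] [Algebra k AB] [Ring BD] [Algebra k BD]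
    [Ring ABD] [Algebra k ABD] {X : DG k A} {Y : DG k B} {W : DG k D} {XY : DG k AB}
    {YW : DG k BD} {XYW : DG k ABD} {i : A →ₐ[k] AB} {i' : B →ₐ[k] AB} {j : B →ₐ[k] BD}
    {j' : D →ₐ[k] BD} {p : AB →ₐ[k] ABD} {q : BD →ₐ[k] ABD} (H₁ : IsTens X Y XY i i')
    (H₂ : IsTens Y W YW j j') (T : IsTens XY W XYW p (q.comp j'))
    (T' : IsTens X YW XYW (p.comp i) q) (hpq : p.comp i' = q.comp j) :
    (assocIso X.toDGA Y.toDGA W.toDGA).trans (((DIso.refl X.toDGA).tensor
      ((H₂.rep Y.toRep W.toRep).diso YW.toRep)).trans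
        ((T'.rep X.toRep YW.toRep).diso XYW.toRep)) =
    (((H₁.rep X.toRep Y.toRep).diso XY.toRep).tensor (DIso.refl W.toDGA)).trans
      ((T.rep XY.toRep W.toRep).diso XYW.toRep) := by
  refine DIso.ext fun x => ?_
  have h : ((assocIso X.toDGA Y.toDGA W.toDGA).trans (((DIso.refl X.toDGA).tensor
      ((H₂.rep Y.toRep W.toRep).diso YW.toRep)).trans
        ((T'.rep X.toRep YW.toRep).diso XYW.toRep))).hom.f =
      ((((H₁.rep X.toRep Y.toRep).diso XY.toRep).tensor (DIso.refl W.toDGA)).trans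
      ((T.rep XY.toRep W.toRep).diso XYW.toRep)).hom.f := by
    apply TensorProduct.ext
    apply TensorProduct.ext
    refine LinearMap.ext fun a => LinearMap.ext fun b => LinearMap.ext fun c => ?_
    obtain ⟨a, rfl⟩ := X.toRep.e.surjective a
    obtain ⟨b, rfl⟩ := Y.toRep.e.surjective b
    obtain ⟨c, rfl⟩ := W.toRep.e.surjective c
    change ((T'.rep X.toRep YW.toRep).diso XYW.toRep).hom.f (X.toRep.e a ⊗ₜ[k]
      ((H₂.rep Y.toRep W.toRep).diso YW.toRep).hom.f (Y.toRep.e b ⊗ₜ[k] W.toRep.e c)) =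
      ((T.rep XY.toRep W.toRep).diso XYW.toRep).hom.f
        (((H₁.rep X.toRep Y.toRep).diso XY.toRep).hom.f (X.toRep.e a ⊗ₜ[k] Y.toRep.e b) ⊗ₜ[k]
          W.toRep.e c)
    have e1 := modelB_hom H₂ b c
    have e2 := modelB_hom H₁ a b
    have e3 := modelB_hom T' a (j b * j' c)
    have e4 := modelB_hom T (i a * i' b) c
    have e5 := DFunLike.congr_fun hpq b
    simp only [AlgHom.comp_apply] at e3 e4 e5
    rw [map_mul q, ← e5] at e3
    rw [map_mul p, mul_assoc] at e4
    refine Eq.trans (congrArg _ (congrArg _ e1)) (Eq.trans (e3.trans e4.symm)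
      (congrArg _ (congrArg (fun z => z ⊗ₜ[k] W.toRep.e c) e2.symm)))
  exact LinearMap.congr_fun h x

theorem sp_assoc : (spData k).Assoc := by
  intro A B D AB BD ABD _ _ _ _ _ _ _ _ _ _ _ _ X Y W XY YW XYW hX hY hW hXY hYW h i i' j j' p q
    H₁ H₂ T T' hpq
  refine Eq.symm (CatMon.comp3 (A := ((toSP X hX).tensor (toSP Y hY)).tensor (toSP W hW))
    (B := (toSP X hX).tensor ((toSP Y hY).tensor (toSP W hW)))
    (C := (toSP X hX).tensor (toSP YW hYW)) (D := toSP XYW h)
    (E := (toSP XY hXY).tensor (toSP W hW)) rfl ?_ rfl ?_ rfl (modelB_assoc H₁ H₂ T T' hpq))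
  · exact CatMon.tensor_id_left (A := (toSP Y hY).tensor (toSP W hW)) (B := toSP YW hYW)
      (C := toSP X hX) _
  · exact CatMon.tensor_id_right (A := (toSP X hX).tensor (toSP Y hY)) (B := toSP XY hXY)
      (C := toSP W hW) _

/-- The two isomorphisms from `k ⊗ B` are equal. -/
private theorem modelB_unit {A B : Type u} [Ring A] [Algebra k A] [Ring B] [Algebra k B]
    {X : DG k A} {Y : DG k B} {i : A →ₐ[k] B} (T : IsTens X Y Y i (AlgHom.id k B))
    (β : DIso (base k) X.toDGA) :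
    (β.tensor (DIso.refl Y.toDGA)).trans ((T.rep X.toRep Y.toRep).diso Y.toRep) =
      lunitIso Y.toDGA := by
  refine DIso.ext fun x => ?_
  have h : ((β.tensor (DIso.refl Y.toDGA)).trans
      ((T.rep X.toRep Y.toRep).diso Y.toRep)).hom.f = (lunitIso Y.toDGA).hom.f := by
    apply TensorProduct.ext
    refine LinearMap.ext fun c => LinearMap.ext fun b => ?_
    obtain ⟨b, rfl⟩ := Y.toRep.e.surjective b
    change ((T.rep X.toRep Y.toRep).diso Y.toRep).hom.f (β.hom.f c ⊗ₜ[k] Y.toRep.e b) =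
      (show k from c) • Y.toRep.e b
    have e1 : β.hom.f c = X.toRep.e ((show k from c) • (1 : A)) := by
      rw [map_smul, X.toRep.one, ← β.hom.one, ← map_smul]
      exact congrArg _ (base_smul (show k from c)).symm
    have e2 := modelB_hom T ((show k from c) • (1 : A)) b
    rw [map_smul i, map_one i, smul_mul_assoc, one_mul, AlgHom.id_apply,
      map_smul Y.toRep.e] at e2
    exact Eq.trans (congrArg _ (congrArg (fun z => z ⊗ₜ[k] Y.toRep.e b) e1)) e2
  exact LinearMap.congr_fun h x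

theorem sp_leftUnit : (spData k).LeftUnit := by
  intro A B _ _ _ _ X Y hX hY i hA T
  refine CatMon.comp2 (A := (SP.base k).tensor (toSP Y hY)) (B := (toSP X hX).tensor (toSP Y hY))
    (C := toSP Y hY) ?_ rfl rfl (modelB_unit T (exists_baseIso X.toRep hA).some)
  exact CatMon.tensor_id_right (A := SP.base k) (B := toSP X hX) (C := toSP Y hY) _

/-- The two isomorphisms from `A ⊗ A'` are equal. -/
private theorem modelB_braid {A A' AA : Type u} [Ring A] [Algebra k A] [Ring A'] [Algebra k A']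
    [Ring AA] [Algebra k AA] {X : DG k A} {X' : DG k A'} {E : DG k AA} {i : A →ₐ[k] AA}
    {i' : A' →ₐ[k] AA} (T : IsTens X X' E i i') (T' : IsTens X' X E i' i) :
    (swapIso X.toDGA X'.toDGA).trans ((T'.rep X'.toRep X.toRep).diso E.toRep) =
      (T.rep X.toRep X'.toRep).diso E.toRep := by
  refine DIso.ext fun x => ?_
  have h : ((swapIso X.toDGA X'.toDGA).trans
      ((T'.rep X'.toRep X.toRep).diso E.toRep)).hom.f =
      ((T.rep X.toRep X'.toRep).diso E.toRep).hom.f := by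
    apply TensorProduct.ext
    refine LinearMap.ext fun a => LinearMap.ext fun b => ?_
    obtain ⟨a, rfl⟩ := X.toRep.e.surjective a
    obtain ⟨b, rfl⟩ := X'.toRep.e.surjective b
    have F0 : ∃ F : X'.toDGA.A ⊗[k] X.toDGA.A →ₗ[k] E.toDGA.A, ∀ x, F x =
        ((T'.rep X'.toRep X.toRep).diso E.toRep).hom.f x :=
      ⟨((T'.rep X'.toRep X.toRep).diso E.toRep).hom.f, fun _ => rfl⟩
    obtain ⟨F, hF⟩ := F0
    refine Eq.trans (hF (ksw X.toDGA.dg X'.toDGA.dg
      (X.toRep.e a ⊗ₜ[k] X'.toRep.e b))).symm (Eq.trans ?_ (modelB_hom T a b).symm)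
    refine X.toRep.rep.ind (P := fun a => F (ksw X.toDGA.dg X'.toDGA.dg
      (X.toRep.e a ⊗ₜ[k] X'.toRep.e b)) = E.toRep.e (i a * i' b))
      ?_ ?_ ?_ a
    · rw [map_zero, TensorProduct.zero_tmul, map_zero, map_zero, map_zero, zero_mul, map_zero]
    · intro v w hv hw
      rw [map_add, TensorProduct.add_tmul, map_add, map_add, hv, hw, map_add, add_mul, map_add]
    intro p a ha
    refine X'.toRep.rep.ind (P := fun b => F (ksw X.toDGA.dg X'.toDGA.dg
      (X.toRep.e a ⊗ₜ[k] X'.toRep.e b)) = E.toRep.e (i a * i' b))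
      ?_ ?_ ?_ b
    · rw [map_zero, TensorProduct.tmul_zero, map_zero, map_zero, map_zero, mul_zero, map_zero]
    · intro v w hv hw
      rw [map_add, TensorProduct.tmul_add, map_add, map_add, hv, hw, map_add, mul_add, map_add]
    intro q b hb
    have ha' := (X.toRep.rep.mem p a).1 ha
    have hb' := (X'.toRep.rep.mem q b).1 hb
    have hk : ksw X.toDGA.dg X'.toDGA.dg (X.toRep.e a ⊗ₜ[k] X'.toRep.e b) =
        sg (p * q) • (X'.toRep.e b ⊗ₜ[k] X.toRep.e a) := by
      rw [ksw_tmul]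
      rcases Dg.o_of_parity ha' with ⟨hp, hoa⟩ | ⟨hp, hoa⟩
      · rw [hoa, TensorProduct.tmul_zero, smul_zero, sub_zero, sg, if_pos (hp.mul_right q),
          one_smul]
      · rcases Dg.o_of_parity hb' with ⟨hq, hob⟩ | ⟨hq, hob⟩
        · rw [hob, TensorProduct.zero_tmul, smul_zero, sub_zero, sg, if_pos (hq.mul_left p),
            one_smul]
        · rw [hoa, hob, sg, if_neg (by
            rw [Int.not_even_iff_odd]
            exact hp.mul hq), two_smul, neg_smul, one_smul]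
          abel
    have hc := T.comm p q a b ha hb
    have e1 := (hF _).trans (modelB_hom T' b a)
    have hc' : i a * i' b = sg (p * q) • (i' b * i a) := by
      rw [hc, ← negOnePow_smul, smul_smul, ← Int.negOnePow_add, ← two_mul,
        Int.negOnePow_two_mul, one_smul]
    rw [hk, map_zsmul, hc', map_zsmul]
    exact congrArg _ e1
  exact LinearMap.congr_fun h x

theorem sp_braid : (spData k).Braid := by
  intro A A' AA _ _ _ _ _ _ X X' E hX hX' hE i i' T T'
  exact Eq.symm (CatMon.comp2 (A := (toSP X hX).tensor (toSP X' hX'))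
    (B := (toSP X' hX').tensor (toSP X hX)) (C := toSP E hE) rfl rfl rfl (modelB_braid T T'))

end Pool.Agent.MP_6e5bed_ag_SP
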