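import Pool.Agent.Lib.MP_6e5bed_ag_SP.DG

set_option autoImplicit false

/-!
# Models of the category of noncommutative Chow motives
-/

namespace Pool.Agent.MP_6e5bed_ag_SP

open CategoryTheory MonoidalCategory MulOpposite
open scoped TensorProduct

universe u

section K0

variable {k A B : Type u} [CommRing k] [Ring A] [Algebra k A] [Ring B] [Algebra k B]
  (X : DG k A) (Y : DG k B) {V : Type (u + 1)} [AddCommGroup V]

/-- `φ` is an additive function on the perfect dg bimodules. -/
structure IsAdd (φ : ∀ {M : Type u} [AddCommGroup M] [Module k M] [Module A M] [Module Bᵐᵒᵖ M]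
    (Z : Bm X Y M), Perf Z → V) : Prop where
  ext : ∀ {M N P : Type u} [AddCommGroup M] [Module k M] [Module A M] [Module Bᵐᵒᵖ M]
    [AddCommGroup N] [Module k N] [Module A N] [Module Bᵐᵒᵖ N] [AddCommGroup P] [Module k P]
    [Module A P] [Module Bᵐᵒᵖ P] (Z : Bm X Y M) (W : Bm X Y N) (Z' : Bm X Y P) (h : Perf Z)
    (h' : Perf W) (h'' : Perf Z'), IsExt Z W Z' → φ W h' = φ Z h + φ Z' h''
  contr : ∀ {M : Type u} [AddCommGroup M] [Module k M] [Module A M] [Module Bᵐᵒᵖ M]
    (Z : Bm X Y M) (h : Perf Z), Contractible Z → φ Z h = 0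

/-- `V` is the Grothendieck group of the perfect dg bimodules tensored with `ℚ`, and `φ` gives the
classes of the perfect bimodules: `φ` is the universal additive function with values in a
`ℚ`-vector space. -/
def IsK0 [Module ℚ V] (φ : ∀ {M : Type u} [AddCommGroup M] [Module k M] [Module A M]
    [Module Bᵐᵒᵖ M] (Z : Bm X Y M), Perf Z → V) : Prop :=
  IsAdd X Y φ ∧ ∀ (V' : Type (u + 1)) [AddCommGroup V'] [Module ℚ V']
    (φ' : ∀ {M : Type u} [AddCommGroup M] [Module k M] [Module A M] [Module Bᵐᵒᵖ M]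
      (Z : Bm X Y M), Perf Z → V'), IsAdd X Y φ' →
    ∃! F : V →ₗ[ℚ] V', ∀ {M : Type u} [AddCommGroup M] [Module k M] [Module A M]
      [Module Bᵐᵒᵖ M] (Z : Bm X Y M) (h : Perf Z), F (φ Z h) = φ' Z h

end K0

/-- Data for noncommutative Chow motives in the symmetric monoidal category `C`. -/
structure NCData (k : Type u) [Field k] (C : Type (u + 1)) [Category.{u + 1} C]
    [MonoidalCategory C] where
  /-- the motive of a smooth proper dg algebra -/
  U : ∀ {A : Type u} [Ring A] [Algebra k A] (X : DG k A), SmPr X → C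
  /-- the class of a perfect bimodule -/
  cl : ∀ {A B M : Type u} [Ring A] [Algebra k A] [Ring B] [Algebra k B] [AddCommGroup M]
    [Module k M] [Module A M] [Module Bᵐᵒᵖ M] {X : DG k A} {Y : DG k B} (hX : SmPr X)
    (hY : SmPr Y) (Z : Bm X Y M), Perf Z → (U X hX ⟶ U Y hY)
  /-- the unit is the motive of `k` -/
  unit : ∀ {A : Type u} [Ring A] [Algebra k A] {X : DG k A} (hX : SmPr X),
    Function.Bijective (algebraMap k A) → (𝟙_ C ≅ U X hX)
  /-- the tensor product of the motives of `A` and `A'` is the motive of `A ⊗ A'` -/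
  tens : ∀ {A A' AA : Type u} [Ring A] [Algebra k A] [Ring A'] [Algebra k A'] [Ring AA]
    [Algebra k AA] {X : DG k A} {X' : DG k A'} {E : DG k AA} (hX : SmPr X) (hX' : SmPr X')
    (hE : SmPr E) {i : A →ₐ[k] AA} {i' : A' →ₐ[k] AA}, IsTens X X' E i i' →
    (U X hX ⊗ U X' hX' ≅ U E hE)

namespace NCData

variable {k : Type u} [Field k] {C : Type (u + 1)} [Category.{u + 1} C] [MonoidalCategory C]

/-- The morphisms `U A ⟶ U B` are the Grothendieck group of the perfect bimodules. -/
def HomK0 [Preadditive C] [Linear ℚ C] (H : NCData k C) : Prop :=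
  ∀ {A B : Type u} [Ring A] [Algebra k A] [Ring B] [Algebra k B] {X : DG k A} {Y : DG k B}
    (hX : SmPr X) (hY : SmPr Y), IsK0 X Y (V := H.U X hX ⟶ H.U Y hY) (fun Z h => H.cl hX hY Z h)

/-- The class of the diagonal bimodule is the identity. -/
def ClOne (H : NCData k C) : Prop :=
  ∀ {A M : Type u} [Ring A] [Algebra k A] [AddCommGroup M] [Module k M] [Module A M]
    [Module Aᵐᵒᵖ M] {X : DG k A} (hX : SmPr X) (Z : Bm X X M) (h : Perf Z), IsRes Z →
    H.cl hX hX Z h = 𝟙 (H.U X hX)

/-- The composition is the tensor product over `B`. -/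
def ClComp (H : NCData k C) : Prop :=
  ∀ {A B D M N P : Type u} [Ring A] [Algebra k A] [Ring B] [Algebra k B] [Ring D]
    [Algebra k D] [AddCommGroup M] [Module k M] [Module A M] [Module Bᵐᵒᵖ M] [AddCommGroup N]
    [Module k N] [Module B N] [Module Dᵐᵒᵖ N] [AddCommGroup P] [Module k P] [Module A P]
    [Module Dᵐᵒᵖ P] {X : DG k A} {Y : DG k B} {W : DG k D} (hX : SmPr X) (hY : SmPr Y)
    (hW : SmPr W) (Z : Bm X Y M) (Z' : Bm Y W N) (T : Bm X W P) (h : Perf Z) (h' : Perf Z')
    (h'' : Perf T) (t : M →ₗ[k] N →ₗ[k] P), IsTb Z Z' T t →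
    H.cl hX hY Z h ≫ H.cl hY hW Z' h' = H.cl hX hW T h''

/-- The tensor product of morphisms is the external tensor product of bimodules. -/
def ClTens (H : NCData k C) : Prop :=
  ∀ {A A' AA B B' BB M M' MM : Type u} [Ring A] [Algebra k A] [Ring A'] [Algebra k A']
    [Ring AA] [Algebra k AA] [Ring B] [Algebra k B] [Ring B'] [Algebra k B'] [Ring BB]
    [Algebra k BB] [AddCommGroup M] [Module k M] [Module A M] [Module Bᵐᵒᵖ M]
    [AddCommGroup M'] [Module k M'] [Module A' M'] [Module B'ᵐᵒᵖ M'] [AddCommGroup MM]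
    [Module k MM] [Module AA MM] [Module BBᵐᵒᵖ MM] {X : DG k A} {X' : DG k A'} {E : DG k AA}
    {Y : DG k B} {Y' : DG k B'} {F : DG k BB} (hX : SmPr X) (hX' : SmPr X') (hE : SmPr E)
    (hY : SmPr Y) (hY' : SmPr Y') (hF : SmPr F) {i : A →ₐ[k] AA} {i' : A' →ₐ[k] AA}
    {j : B →ₐ[k] BB} {j' : B' →ₐ[k] BB} (T : IsTens X X' E i i') (T' : IsTens Y Y' F j j')
    (Z : Bm X Y M) (Z' : Bm X' Y' M') (ZZ : Bm E F MM) (h : Perf Z) (h' : Perf Z')
    (h'' : Perf ZZ) (t : M →ₗ[k] M' →ₗ[k] MM), IsBox i i' j j' Z Z' ZZ t →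
    (H.cl hX hY Z h ⊗ₘ H.cl hX' hY' Z' h') ≫ (H.tens hY hY' hF T').hom =
      (H.tens hX hX' hE T).hom ≫ H.cl hE hF ZZ h''

/-- Compatibility of the tensor products with the associativity constraints of `C`. -/
def Assoc (H : NCData k C) : Prop :=
  ∀ {A B D AB BD ABD : Type u} [Ring A] [Algebra k A] [Ring B] [Algebra k B] [Ring D]
    [Algebra k D] [Ring AB] [Algebra k AB] [Ring BD] [Algebra k BD] [Ring ABD] [Algebra k ABD]
    {X : DG k A} {Y : DG k B} {W : DG k D} {XY : DG k AB} {YW : DG k BD} {XYW : DG k ABD}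
    (hX : SmPr X) (hY : SmPr Y) (hW : SmPr W) (hXY : SmPr XY) (hYW : SmPr YW) (h : SmPr XYW)
    {i : A →ₐ[k] AB} {i' : B →ₐ[k] AB} {j : B →ₐ[k] BD} {j' : D →ₐ[k] BD} {p : AB →ₐ[k] ABD}
    {q : BD →ₐ[k] ABD} (H₁ : IsTens X Y XY i i') (H₂ : IsTens Y W YW j j')
    (T : IsTens XY W XYW p (q.comp j')) (T' : IsTens X YW XYW (p.comp i) q),
    p.comp i' = q.comp j → ((H.tens hX hY hXY H₁).hom ▷ H.U W hW) ≫ (H.tens hXY hW h T).hom =
      (α_ _ _ _).hom ≫ (H.U X hX ◁ (H.tens hY hW hYW H₂).hom) ≫ (H.tens hX hYW h T').hom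

/-- Compatibility of the tensor products with the unit of `C`. -/
def LeftUnit (H : NCData k C) : Prop :=
  ∀ {A B : Type u} [Ring A] [Algebra k A] [Ring B] [Algebra k B] {X : DG k A}
    {Y : DG k B} (hX : SmPr X) (hY : SmPr Y) {i : A →ₐ[k] B}
    (hA : Function.Bijective (algebraMap k A)) (T : IsTens X Y Y i (AlgHom.id k B)),
    ((H.unit hX hA).hom ▷ H.U Y hY) ≫ (H.tens hX hY hY T).hom = (λ_ (H.U Y hY)).hom

/-- Compatibility of the tensor products with the symmetry of `C`. -/
def Braid [SymmetricCategory C] (H : NCData k C) : Prop :=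
  ∀ {A A' AA : Type u} [Ring A] [Algebra k A] [Ring A'] [Algebra k A'] [Ring AA]
    [Algebra k AA] {X : DG k A} {X' : DG k A'} {E : DG k AA} (hX : SmPr X) (hX' : SmPr X')
    (hE : SmPr E) {i : A →ₐ[k] AA} {i' : A' →ₐ[k] AA} (T : IsTens X X' E i i')
    (T' : IsTens X' X E i' i),
    (H.tens hX hX' hE T).hom = (β_ (H.U X hX) (H.U X' hX')).hom ≫ (H.tens hX' hX hE T').hom

/-- Every object of `C` is a direct summand of the motive of a smooth proper dg algebra. -/
def Retracts (H : NCData k C) : Prop :=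
  ∀ P : C, ∃ (A : Type u) (_ : Ring A) (_ : Algebra k A) (X : DG k A) (hX : SmPr X)
    (i : P ⟶ H.U X hX) (r : H.U X hX ⟶ P), i ≫ r = 𝟙 P

end NCData

/-- The `ℚ`-linear symmetric monoidal category `C` is the category of noncommutative Chow motives
over the field `k` with rational coefficients: there are objects `U A` for the smooth proper dg
algebras `A`, the morphisms from `U A` to `U B` are the Grothendieck group of the perfect dg
`A`-`B`-bimodules, tensored with `ℚ`, the composition is the tensor product over `B`, the tensor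
product of `C` is given by the tensor products of dg algebras and bimodules over `k`, and `C` is
idempotent complete, with all objects direct summands of objects `U A`. -/
structure NCMot (k : Type u) [Field k] (C : Type (u + 1)) [Category.{u + 1} C]
    [MonoidalCategory C] [SymmetricCategory C] [Preadditive C] [MonoidalPreadditive C]
    [Linear ℚ C] extends NCData k C where
  hom_k0 : toNCData.HomK0
  cl_one : toNCData.ClOne
  cl_comp : toNCData.ClComp
  cl_tens : toNCData.ClTens
  assoc : toNCData.Assoc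
  left_unit : toNCData.LeftUnit
  braid : toNCData.Braid
  retracts : toNCData.Retracts
  karoubi : IsIdempotentComplete C

/-- A category of noncommutative Chow motives over `k` exists. -/
def HasModel (k : Type u) [Field k] : Prop :=
  ∃ (C : Type (u + 1)) (_ : Category.{u + 1} C) (_ : MonoidalCategory C)
    (_ : SymmetricCategory C) (_ : Preadditive C) (_ : MonoidalPreadditive C) (_ : Linear ℚ C),
    Nonempty (NCMot k C)

/-- The dg algebra `A'` over `K` is the extension of scalars of the dg algebra `A` over `k`, by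
means of the homomorphism `i : A → A'`. -/
structure IsBc {k K A A' : Type u} [CommRing k] [CommRing K] [Algebra k K] [Ring A] [Algebra k A]
    [Ring A'] [Algebra k A'] [Algebra K A'] [IsScalarTower k K A'] (X : DG k A) (X' : DG K A')
    (i : A →ₐ[k] A') : Prop where
  bij : IsBaseChange K i.toLinearMap
  mem : ∀ n a, a ∈ X.gr n → i a ∈ X'.gr n
  d : ∀ a, X'.d (i a) = i (X.d a)

end Pool.Agent.MP_6e5bed_ag_SP
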