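import Pool.Agent.Lib.MP_6e5bed_ag_SP.NCMot
import Pool.Agent.Lib.MP_6e5bed_ag_NC.Htpy
import Pool.Agent.Lib.MP_6e5bed_ag_NC.K0Api

set_option autoImplicit false

/-!
# Comparison of the two descriptions of dg algebras and bimodules
-/

namespace Pool.Agent.MP_6e5bed_ag_SP

open MulOpposite Pool.Agent.MP_6e5bed_ag_NC

universe u

variable {k : Type u} [CommRing k] {A B M N : Type u} [Ring A] [Algebra k A] [Ring B] [Algebra k B]
  [AddCommGroup M] [Module k M] [Module A M] [Module Bᵐᵒᵖ M]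
  [AddCommGroup N] [Module k N] [Module A N] [Module Bᵐᵒᵖ N]

/-- The complexes `X` and `X'` are the same, by means of `e`. -/
structure IsRepC {V V' : Type u} [AddCommGroup V] [Module k V] [AddCommGroup V'] [Module k V']
    (X : Cx k V) (X' : Dg k V') (e : V ≃ₗ[k] V') : Prop where
  mem : ∀ n v, v ∈ X.gr n ↔ X'.IsDeg n (e v)
  d : ∀ v, e (X.d v) = X'.d (e v)

/-- The dg algebra `X` is the dg algebra `A'`. -/
structure Rep (X : DG k A) (A' : DGA k) where
  e : A ≃ₗ[k] A'.A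
  one : e 1 = A'.one
  mul : ∀ a b, e (a * b) = A'.mul (e a) (e b)
  rep : IsRepC X.toCx A'.dg e

variable {X : DG k A} {Y : DG k B} {A' B' : DGA k}

/-- The dg bimodule `Z` is the dg bimodule `M'`. -/
structure RepB (r : Rep X A') (s : Rep Y B') (Z : Bm X Y M) (M' : Bim A' B') where
  e : M ≃ₗ[k] M'.M
  l : ∀ (a : A) m, e (a • m) = M'.l (r.e a) (e m)
  r : ∀ (b : B) m, e (op b • m) = M'.r (s.e b) (e m)
  rep : IsRepC Z.toCx M'.dg e

end Pool.Agent.MP_6e5bed_ag_SP
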