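import Pool.Agent.Lib.MP_6e5bed_ag_SP.Rep

set_option autoImplicit false

/-!
# Comparison of complexes
-/

namespace Pool.Agent.MP_6e5bed_ag_SP

open Pool.Agent.MP_6e5bed_ag_NC

universe u

variable {k : Type u} [CommRing k] {V V' W W' : Type u} [AddCommGroup V] [Module k V]
  [AddCommGroup V'] [Module k V'] [AddCommGroup W] [Module k W] [AddCommGroup W'] [Module k W']

/-- Every element is a sum of homogeneous ones. -/
theorem Cx.RepC_ind (X : Cx k V) {P : V → Prop} (h0 : P 0) (hadd : ∀ v w, P v → P w → P (v + w))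
    (hhom : ∀ n v, v ∈ X.gr n → P v) (v : V) : P v := by
  have h1 : (⨆ i, X.gr i) = ⊤ := X.internal.submodule_iSup_eq_top
  have h2 : v ∈ ⨆ i, X.gr i := by
    rw [h1]
    exact Submodule.mem_top
  exact Submodule.iSup_induction X.gr (motive := P) h2 hhom h0 hadd

/-- The coaction of a grading with submodules. -/
private noncomputable def RepC_rho (X : Cx k V) : V →ₗ[k] (ℤ →₀ V) :=
  (DirectSum.toModule k ℤ (ℤ →₀ V) (fun i => (Finsupp.lsingle i).comp (X.gr i).subtype)).comp
    (LinearEquiv.ofBijective (DirectSum.coeLinearMap X.gr) X.internal).symm.toLinearMap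

private theorem RepC_rho_mem (X : Cx k V) {n : ℤ} {v : V} (hv : v ∈ X.gr n) :
    RepC_rho X v = Finsupp.single n v := by
  have h1 : (LinearEquiv.ofBijective (DirectSum.coeLinearMap X.gr) X.internal).symm v =
      DirectSum.lof k ℤ (fun i => X.gr i) n ⟨v, hv⟩ := by
    rw [LinearEquiv.symm_apply_eq]
    change v = DirectSum.coeLinearMap X.gr (DirectSum.lof k ℤ (fun i => X.gr i) n ⟨v, hv⟩)
    rw [DirectSum.coeLinearMap_lof]
  change DirectSum.toModule k ℤ (ℤ →₀ V) (fun i => (Finsupp.lsingle i).comp (X.gr i).subtype)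
    ((LinearEquiv.ofBijective (DirectSum.coeLinearMap X.gr) X.internal).symm v) = _
  rw [h1, DirectSum.toModule_lof]
  rfl

private theorem RepC_rho_gr (X : Cx k V) (v : V) (n : ℤ) : RepC_rho X v n ∈ X.gr n := by
  refine X.RepC_ind (P := fun v => RepC_rho X v n ∈ X.gr n) ?_ ?_ ?_ v
  · rw [map_zero]
    exact Submodule.zero_mem _
  · intro v w hv hw
    rw [map_add, Finsupp.add_apply]
    exact Submodule.add_mem _ hv hw
  · intro i v hv
    rw [RepC_rho_mem X hv, Finsupp.single_apply]
    split_ifs with h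
    · exact h ▸ hv
    · exact Submodule.zero_mem _

/-- The complex given by a grading with submodules. -/
noncomputable def Cx.toDg (X : Cx k V) : Dg k V where
  ρ := RepC_rho X
  sum_ρ := by
    refine X.RepC_ind (P := fun v => (RepC_rho X v).sum (fun _ w => w) = v) ?_ ?_ ?_
    · rw [map_zero, Finsupp.sum_zero_index]
    · intro v w hv hw
      rw [map_add, Finsupp.sum_add_index' (fun _ => rfl) (fun _ _ _ => rfl), hv, hw]
    · intro i v hv
      rw [RepC_rho_mem X hv, Finsupp.sum_single_index rfl]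
  ρ_ρ := fun v n => RepC_rho_mem X (RepC_rho_gr X v n)
  d := X.d
  d_d := X.d_d
  ρ_d := by
    intro v n
    refine X.RepC_ind (P := fun v => RepC_rho X (X.d v) (n + 1) = X.d (RepC_rho X v n)) ?_ ?_ ?_ v
    · simp
    · intro v w hv hw
      rw [LinearMap.map_add X.d, LinearMap.map_add (RepC_rho X), Finsupp.add_apply, hv, hw,
        LinearMap.map_add (RepC_rho X), Finsupp.add_apply, LinearMap.map_add X.d]
    · intro i v hv
      rw [RepC_rho_mem X hv, RepC_rho_mem X (X.d_mem i v hv), Finsupp.single_apply,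
        Finsupp.single_apply]
      by_cases h : i = n
      · rw [if_pos h, if_pos (by rw [h])]
      · rw [if_neg h, if_neg (fun h' => h (by omega)), map_zero]

theorem Cx.toDg_rep (X : Cx k V) : IsRepC X X.toDg (LinearEquiv.refl k V) where
  mem := by
    intro n v
    constructor
    · intro hv
      exact RepC_rho_mem X hv
    · intro hv
      have h1 : RepC_rho X v = Finsupp.single n v := hv
      have h2 := RepC_rho_gr X v n
      rwa [h1, Finsupp.single_eq_same] at h2
  d := fun v => rfl

private theorem RepC_coe (X : Dg k V) (G : ℤ → Submodule k V)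
    (hG : ∀ n v, v ∈ G n → X.IsDeg n v) (x : DirectSum ℤ (fun i => G i)) (i : ℤ) :
    X.ρ (DirectSum.coeLinearMap G x) i = (x i : V) := by
  induction x using DirectSum.induction_on with
  | zero => simp
  | of j v =>
    have h1 : DirectSum.coeLinearMap G (DirectSum.of (fun i => G i) j v) = (v : V) :=
      DirectSum.coeLinearMap_of G j v
    rw [h1, hG j v v.2, DirectSum.coe_of_apply, Finsupp.single_apply]
    split_ifs <;> rfl
  | add x y hx hy =>
    rw [map_add, map_add, Finsupp.add_apply, hx, hy, DirectSum.add_apply, Submodule.coe_add]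

/-- The homogeneous elements of degree `n`. -/
private def RepC_gr (X : Dg k V) (n : ℤ) : Submodule k V where
  carrier := {v | X.IsDeg n v}
  add_mem' := fun hv hw => Dg.IsDeg.add hv hw
  zero_mem' := Dg.IsDeg.zero n
  smul_mem' := fun c _ hv => Dg.IsDeg.smul c hv

/-- The grading with submodules of a complex. -/
def Cx.ofDg (X : Dg k V) : Cx k V where
  gr := RepC_gr X
  d := X.d
  internal := by
    constructor
    · intro x y hxy
      have hxy' : DirectSum.coeLinearMap (RepC_gr X) x = DirectSum.coeLinearMap (RepC_gr X) y := hxy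
      refine DFinsupp.ext fun i => Subtype.ext ?_
      have h1 := RepC_coe X (RepC_gr X) (fun n v hv => hv) x i
      have h2 := RepC_coe X (RepC_gr X) (fun n v hv => hv) y i
      rw [hxy'] at h1
      exact h1.symm.trans h2
    · intro v
      refine X.ind (P := fun v => ∃ a, (DirectSum.coeAddMonoidHom (RepC_gr X)) a = v) ?_ ?_ ?_ v
      · exact ⟨0, map_zero _⟩
      · rintro v w ⟨a, ha⟩ ⟨b, hb⟩
        exact ⟨a + b, by rw [map_add, ha, hb]⟩
      · intro n v hv
        exact ⟨DirectSum.of (fun i => RepC_gr X i) n ⟨v, hv⟩,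
          DirectSum.coeAddMonoidHom_of (RepC_gr X) n _⟩
  d_mem := fun i v hv => Dg.IsDeg.d hv
  d_d := X.d_d

theorem Cx.ofDg_rep (X : Dg k V) : IsRepC (Cx.ofDg X) X (LinearEquiv.refl k V) where
  mem := fun _ _ => Iff.rfl
  d := fun _ => rfl

theorem sg_eq (n : ℤ) : sg n = ((n.negOnePow : ℤˣ) : ℤ) := by
  rcases Int.even_or_odd n with h | h
  · rw [sg_even h, Int.negOnePow_even n h, Units.val_one]
  · rw [sg_odd h, Int.negOnePow_odd n h, Units.val_neg, Units.val_one]

theorem negOnePow_smul {V : Type u} [AddCommGroup V] (n : ℤ) (v : V) :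
    n.negOnePow • v = sg n • v := by
  rw [sg_eq, Units.smul_def]

section

variable {X : Cx k V} {X' : Dg k V'} {e : V ≃ₗ[k] V'} (h : IsRepC X X' e)
include h

/-- The sign involution. -/
theorem IsRepC.s {n : ℤ} {v : V} (hv : v ∈ X.gr n) : X'.s (e v) = n.negOnePow • e v := by
  have h1 := Dg.sp_of_deg 1 ((h.mem n v).1 hv)
  rw [Dg.sp_one, one_mul] at h1
  rw [h1, negOnePow_smul]

theorem IsRepC.sp (m : ℤ) {n : ℤ} {v : V} (hv : v ∈ X.gr n) :
    X'.sp m (e v) = (m * n).negOnePow • e v := by
  rw [Dg.sp_of_deg m ((h.mem n v).1 hv), negOnePow_smul]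

/-- Equality of additive maps is enough on homogeneous elements. -/
theorem IsRepC.ind {P : V → Prop} (h0 : P 0) (hadd : ∀ v w, P v → P w → P (v + w))
    (hhom : ∀ n v, v ∈ X.gr n → P v) (v : V) : P v := by
  have _ := h
  exact X.RepC_ind h0 hadd hhom v

end

end Pool.Agent.MP_6e5bed_ag_SP
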