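import Pool.Agent.Lib.MP_6e5bed_ag_SP.RepC

set_option autoImplicit false

/-!
# Comparison of dg bimodules
-/

namespace Pool.Agent.MP_6e5bed_ag_SP

open MulOpposite Pool.Agent.MP_6e5bed_ag_NC

universe u

variable {k : Type u} [CommRing k] {A B M N : Type u} [Ring A] [Algebra k A] [Ring B] [Algebra k B]
  [AddCommGroup M] [Module k M] [Module A M] [Module Bᵐᵒᵖ M]
  [AddCommGroup N] [Module k N] [Module A N] [Module Bᵐᵒᵖ N]
  {X : DG k A} {Y : DG k B} {A' B' : DGA k}

private theorem RepM_symm_one (r : Rep X A') : r.e.symm A'.one = 1 := by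
  rw [← r.one, LinearEquiv.symm_apply_apply]

private theorem RepM_symm_mul (r : Rep X A') (a b : A'.A) :
    r.e.symm (A'.mul a b) = r.e.symm a * r.e.symm b := by
  apply r.e.injective
  rw [r.mul, LinearEquiv.apply_symm_apply, LinearEquiv.apply_symm_apply,
    LinearEquiv.apply_symm_apply]

private theorem RepM_l_smul (Z : Bm X Y M) (c : k) (a : A) (m : M) : a • c • m = c • a • m := by
  have h : c • m = (c • (1 : A)) • m := by rw [Z.smul_l, one_smul]
  rw [h, ← mul_smul, mul_smul_comm, mul_one, Z.smul_l]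

private theorem RepM_r_smul (Z : Bm X Y M) (c : k) (b : B) (m : M) :
    op b • c • m = c • op b • m := by
  have h : c • m = op (c • (1 : B)) • m := by rw [Z.smul_r, op_one, one_smul]
  rw [h, ← mul_smul, ← op_mul, smul_mul_assoc, one_mul, Z.smul_r]

private theorem RepM_units_smul {R V : Type u} [Ring R] [AddCommGroup V] [Module R V] (u : ℤˣ)
    (a : R) (m : V) : (u • a) • m = u • a • m := by
  rcases Int.units_eq_one_or u with h | h <;> simp [h]

private theorem RepM_smul_units {R V : Type u} [Ring R] [AddCommGroup V] [Module R V] (u : ℤˣ)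
    (a : R) (m : V) : a • u • m = u • a • m := by
  rcases Int.units_eq_one_or u with h | h <;> simp [h]

private theorem RepM_map_units {V W : Type u} [AddCommGroup V] [Module k V] [AddCommGroup W]
    [Module k W] (f : V →ₗ[k] W) (u : ℤˣ) (v : V) : f (u • v) = u • f v := by
  rcases Int.units_eq_one_or u with h | h <;> simp [h]

/-- The dg bimodule `Z` in terms of bilinear maps. -/
noncomputable def Bm.toBim (r : Rep X A') (s : Rep Y B') (Z : Bm X Y M) : Bim A' B' where
  M := M
  dg := Z.toCx.toDg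
  l := LinearMap.mk₂ k (fun (a : A'.A) (m : M) => r.e.symm a • m)
    (fun a b m => by rw [map_add, add_smul]) (fun c a m => by rw [map_smul, Z.smul_l])
    (fun a m n => by rw [smul_add]) (fun c a m => RepM_l_smul Z c _ m)
  r := LinearMap.mk₂ k (fun (b : B'.A) (m : M) => op (s.e.symm b) • m)
    (fun a b m => by rw [map_add, op_add, add_smul]) (fun c a m => by rw [map_smul, Z.smul_r])
    (fun a m n => by rw [smul_add]) (fun c a m => RepM_r_smul Z c _ m)
  l_one := fun m => by
    rw [LinearMap.mk₂_apply, RepM_symm_one, one_smul]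
  r_one := fun m => by
    rw [LinearMap.mk₂_apply, RepM_symm_one, op_one, one_smul]
  l_mul := fun a a' m => by
    rw [LinearMap.mk₂_apply, LinearMap.mk₂_apply, LinearMap.mk₂_apply, RepM_symm_mul, mul_smul]
  r_mul := fun b b' m => by
    rw [LinearMap.mk₂_apply, LinearMap.mk₂_apply, LinearMap.mk₂_apply, RepM_symm_mul, op_mul,
      mul_smul]
  l_r := fun a b m => by
    rw [LinearMap.mk₂_apply, LinearMap.mk₂_apply, LinearMap.mk₂_apply, LinearMap.mk₂_apply, Z.comm]
  l_deg := fun {i j a m} ha hm => by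
    have h1 : r.e.symm a ∈ X.gr i := by
      rw [r.rep.mem, LinearEquiv.apply_symm_apply]
      exact ha
    have h2 : m ∈ Z.gr j := ((Cx.toDg_rep Z.toCx).mem j m).2 hm
    exact ((Cx.toDg_rep Z.toCx).mem _ _).1 (Z.mem_l i j _ m h1 h2)
  r_deg := fun {i j b m} hm hb => by
    have h1 : s.e.symm b ∈ Y.gr j := by
      rw [s.rep.mem, LinearEquiv.apply_symm_apply]
      exact hb
    have h2 : m ∈ Z.gr i := ((Cx.toDg_rep Z.toCx).mem i m).2 hm
    exact ((Cx.toDg_rep Z.toCx).mem _ _).1 (Z.mem_r i j _ m h2 h1)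
  d_l := fun a m => by
    have hd : ∀ v, Z.toCx.toDg.d v = Z.d v := fun v => ((Cx.toDg_rep Z.toCx).d v).symm
    obtain ⟨v, rfl⟩ := r.e.surjective a
    simp only [LinearMap.mk₂_apply, hd]
    refine r.rep.ind (P := fun v => Z.d (r.e.symm (r.e v) • m) =
      r.e.symm (A'.dg.d (r.e v)) • m + r.e.symm (A'.dg.s (r.e v)) • Z.d m) ?_ ?_ ?_ v
    · simp
    · intro v w hv hw
      simp only [map_add, add_smul] at hv hw ⊢
      rw [hv, hw]
      abel
    · intro n v hv
      have hu : r.e.symm (n.negOnePow • r.e v) = n.negOnePow • v := by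
        rcases Int.units_eq_one_or n.negOnePow with h | h <;> simp [h]
      rw [r.rep.s hv, ← r.rep.d, hu]
      simp only [LinearEquiv.symm_apply_apply]
      rw [Z.d_l n v m hv, RepM_units_smul]
  d_r := fun b m => by
    have hd : ∀ v, Z.toCx.toDg.d v = Z.d v := fun v => ((Cx.toDg_rep Z.toCx).d v).symm
    obtain ⟨v, rfl⟩ := s.e.surjective b
    simp only [LinearMap.mk₂_apply, hd]
    refine (Cx.toDg_rep Z.toCx).ind (P := fun m => Z.d (op (s.e.symm (s.e v)) • m) =
      op (s.e.symm (s.e v)) • Z.d m + op (s.e.symm (B'.dg.d (s.e v))) • Z.toCx.toDg.s m) ?_ ?_ ?_ m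
    · simp
    · intro m m' hm hm'
      simp only [map_add, smul_add] at hm hm' ⊢
      rw [hm, hm']
      abel
    · intro n m hm
      have hs : Z.toCx.toDg.s m = n.negOnePow • m := (Cx.toDg_rep Z.toCx).s hm
      rw [hs, ← s.rep.d]
      simp only [LinearEquiv.symm_apply_apply]
      rw [Z.d_r n v m hm, RepM_smul_units]

noncomputable def Bm.toRepB (r : Rep X A') (s : Rep Y B') (Z : Bm X Y M) :
    RepB r s Z (Z.toBim r s) where
  e := LinearEquiv.refl k M
  l := fun a m => by
    change a • m = r.e.symm (r.e a) • m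
    rw [LinearEquiv.symm_apply_apply]
  r := fun b m => by
    change op b • m = op (s.e.symm (s.e b)) • m
    rw [LinearEquiv.symm_apply_apply]
  rep := Cx.toDg_rep Z.toCx

/-- The underlying bimodule of `M'`. -/
def RM (_r : Rep X A') (_s : Rep Y B') (M' : Bim A' B') : Type u := M'.M

instance (r : Rep X A') (s : Rep Y B') (M' : Bim A' B') : AddCommGroup (RM r s M') := M'.grp

instance (r : Rep X A') (s : Rep Y B') (M' : Bim A' B') : Module k (RM r s M') := M'.mod

/-- The left module structure. -/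
@[reducible] def RepM_modA (r : Rep X A') (M' : Bim A' B') : Module A M'.M where
  smul := fun a m => M'.l (r.e a) m
  one_smul := fun m => by
    change M'.l (r.e 1) m = m
    rw [r.one, M'.l_one]
  mul_smul := fun a b m => by
    change M'.l (r.e (a * b)) m = M'.l (r.e a) (M'.l (r.e b) m)
    rw [r.mul, M'.l_mul]
  smul_zero := fun a => by
    change M'.l (r.e a) 0 = 0
    rw [map_zero]
  smul_add := fun a m n => by
    change M'.l (r.e a) (m + n) = M'.l (r.e a) m + M'.l (r.e a) n
    rw [map_add]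
  add_smul := fun a b m => by
    change M'.l (r.e (a + b)) m = M'.l (r.e a) m + M'.l (r.e b) m
    rw [map_add, map_add, LinearMap.add_apply]
  zero_smul := fun m => by
    change M'.l (r.e 0) m = 0
    rw [map_zero, map_zero, LinearMap.zero_apply]

/-- The right module structure. -/
@[reducible] def RepM_modB (s : Rep Y B') (M' : Bim A' B') : Module Bᵐᵒᵖ M'.M where
  smul := fun b m => M'.r (s.e (unop b)) m
  one_smul := fun m => by
    change M'.r (s.e (unop 1)) m = m
    rw [unop_one, s.one, M'.r_one]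
  mul_smul := fun a b m => by
    change M'.r (s.e (unop (a * b))) m = M'.r (s.e (unop a)) (M'.r (s.e (unop b)) m)
    rw [unop_mul, s.mul, M'.r_mul]
  smul_zero := fun a => by
    change M'.r (s.e (unop a)) 0 = 0
    rw [map_zero]
  smul_add := fun a m n => by
    change M'.r (s.e (unop a)) (m + n) = M'.r (s.e (unop a)) m + M'.r (s.e (unop a)) n
    rw [map_add]
  add_smul := fun a b m => by
    change M'.r (s.e (unop (a + b))) m = M'.r (s.e (unop a)) m + M'.r (s.e (unop b)) m
    rw [unop_add, map_add, map_add, LinearMap.add_apply]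
  zero_smul := fun m => by
    change M'.r (s.e (unop 0)) m = 0
    rw [unop_zero, map_zero, map_zero, LinearMap.zero_apply]

instance (r : Rep X A') (s : Rep Y B') (M' : Bim A' B') : Module A (RM r s M') :=
  RepM_modA r M'

instance (r : Rep X A') (s : Rep Y B') (M' : Bim A' B') : Module Bᵐᵒᵖ (RM r s M') :=
  RepM_modB s M'

section aux

variable (r : Rep X A') (s : Rep Y B') (M' : Bim A' B')

private theorem RepM_ofd (v : M'.M) : (Cx.ofDg M'.dg).d v = M'.dg.d v :=
  (Cx.ofDg_rep M'.dg).d v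

private theorem RepM_of1 (c : k) (a : A) (m : M'.M) :
    M'.l (r.e (c • a)) m = c • M'.l (r.e a) m := by
  rw [map_smul, map_smul, LinearMap.smul_apply]

private theorem RepM_of2 (c : k) (b : B) (m : M'.M) :
    M'.r (s.e (c • b)) m = c • M'.r (s.e b) m := by
  rw [map_smul, map_smul, LinearMap.smul_apply]

private theorem RepM_of3 (i j : ℤ) (a : A) (m : M'.M) (ha : a ∈ X.gr i)
    (hm : m ∈ (Cx.ofDg M'.dg).gr j) : M'.l (r.e a) m ∈ (Cx.ofDg M'.dg).gr (i + j) := by
  have h1 := (r.rep.mem i a).1 ha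
  have h2 := ((Cx.ofDg_rep M'.dg).mem j m).1 hm
  exact ((Cx.ofDg_rep M'.dg).mem (i + j) _).2 (M'.l_deg h1 h2)

private theorem RepM_of4 (i j : ℤ) (b : B) (m : M'.M) (hm : m ∈ (Cx.ofDg M'.dg).gr i)
    (hb : b ∈ Y.gr j) : M'.r (s.e b) m ∈ (Cx.ofDg M'.dg).gr (i + j) := by
  have h1 := (s.rep.mem j b).1 hb
  have h2 := ((Cx.ofDg_rep M'.dg).mem i m).1 hm
  exact ((Cx.ofDg_rep M'.dg).mem (i + j) _).2 (M'.r_deg h2 h1)

private theorem RepM_of5 (i : ℤ) (a : A) (m : M'.M) (ha : a ∈ X.gr i) :
    (Cx.ofDg M'.dg).d (M'.l (r.e a) m) =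
      M'.l (r.e (X.d a)) m + i.negOnePow • M'.l (r.e a) ((Cx.ofDg M'.dg).d m) := by
  rw [RepM_ofd, RepM_ofd, M'.d_l (r.e a) m, r.rep.s ha, ← r.rep.d]
  congr 1
  rcases Int.units_eq_one_or i.negOnePow with h | h <;> simp [h]

private theorem RepM_of6 (i : ℤ) (b : B) (m : M'.M) (hm : m ∈ (Cx.ofDg M'.dg).gr i) :
    (Cx.ofDg M'.dg).d (M'.r (s.e b) m) =
      M'.r (s.e b) ((Cx.ofDg M'.dg).d m) + i.negOnePow • M'.r (s.e (Y.d b)) m := by
  have hs : M'.dg.s m = i.negOnePow • m := (Cx.ofDg_rep M'.dg).s hm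
  rw [RepM_ofd, RepM_ofd, M'.d_r (s.e b) m, hs, ← s.rep.d, RepM_map_units (M'.r (s.e (Y.d b)))]

end aux

/-- The dg bimodule `M'` in terms of module structures. -/
noncomputable def Bm.of (r : Rep X A') (s : Rep Y B') (M' : Bim A' B') :
    Bm X Y (RM r s M') where
  toCx := Cx.ofDg (V := RM r s M') M'.dg
  smul_l := RepM_of1 r M'
  smul_r := RepM_of2 s M'
  comm := fun a b m => M'.l_r (r.e a) (s.e b) m
  mem_l := RepM_of3 r M'
  mem_r := RepM_of4 s M'
  d_l := RepM_of5 r M'
  d_r := RepM_of6 s M'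

noncomputable def Bm.ofRepB (r : Rep X A') (s : Rep Y B') (M' : Bim A' B') :
    RepB r s (Bm.of r s M') M' where
  e := LinearEquiv.refl k M'.M
  l := fun _ _ => rfl
  r := fun _ _ => rfl
  rep := Cx.ofDg_rep (V := RM r s M') M'.dg

end Pool.Agent.MP_6e5bed_ag_SP
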