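import Pool.Agent.Lib.MP_6e5bed_ag_SP.RepM
import Pool.Agent.Lib.MP_6e5bed_ag_SP.RepMap

set_option autoImplicit false

/-!
# Comparison of perfect bimodules
-/

namespace Pool.Agent.MP_6e5bed_ag_SP

open MulOpposite Pool.Agent.MP_6e5bed_ag_NC

universe u

variable {k : Type u} [CommRing k] {A B M N : Type u} [Ring A] [Algebra k A] [Ring B]
  [Algebra k B] [AddCommGroup M] [Module k M] [Module A M] [Module Bᵐᵒᵖ M]
  {X : DG k A} {Y : DG k B} {A' B' : DGA k} {r : Rep X A'} {s : Rep Y B'}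
  {Z : Bm X Y M} {M' : Bim A' B'}

theorem Perf.to (h : Perf Z) (ρ : RepB r s Z M') : MP_6e5bed_ag_NC.Perf M' := by
  induction h generalizing M' with
  | free h => exact (ρ.isFree.1 h).symm.perf MP_6e5bed_ag_NC.Perf.free
  | contr h => exact MP_6e5bed_ag_NC.Perf.contr (ρ.contr.1 h)
  | mid h _ _ ih1 ih2 =>
    exact MP_6e5bed_ag_NC.Perf.mid ((Bm.toRepB r s _).isExt ρ (Bm.toRepB r s _) |>.1 h)
      (ih1 (Bm.toRepB r s _)) (ih2 (Bm.toRepB r s _))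
  | left h _ _ ih1 ih2 =>
    exact MP_6e5bed_ag_NC.Perf.left (ρ.isExt (Bm.toRepB r s _) (Bm.toRepB r s _) |>.1 h)
      (ih1 (Bm.toRepB r s _)) (ih2 (Bm.toRepB r s _))
  | right h _ _ ih1 ih2 =>
    exact MP_6e5bed_ag_NC.Perf.right ((Bm.toRepB r s _).isExt (Bm.toRepB r s _) ρ |>.1 h)
      (ih1 (Bm.toRepB r s _)) (ih2 (Bm.toRepB r s _))
  | summand h _ ih =>
    exact MP_6e5bed_ag_NC.Perf.summand (ρ.isSummand (Bm.toRepB r s _) |>.1 h)
      (ih (Bm.toRepB r s _))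

theorem Perf.of (h : MP_6e5bed_ag_NC.Perf M') (ρ : RepB r s Z M') : Perf Z := by
  induction h generalizing M with
  | free => exact Perf.free (ρ.isFree.2 (BIso.refl _))
  | contr h => exact Perf.contr (ρ.contr.2 h)
  | mid h _ _ ih1 ih2 =>
    exact Perf.mid ((Bm.ofRepB r s _).isExt ρ (Bm.ofRepB r s _) |>.2 h)
      (ih1 (Bm.ofRepB r s _)) (ih2 (Bm.ofRepB r s _))
  | left h _ _ ih1 ih2 =>
    exact Perf.left (ρ.isExt (Bm.ofRepB r s _) (Bm.ofRepB r s _) |>.2 h)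
      (ih1 (Bm.ofRepB r s _)) (ih2 (Bm.ofRepB r s _))
  | right h _ _ ih1 ih2 =>
    exact Perf.right ((Bm.ofRepB r s _).isExt (Bm.ofRepB r s _) ρ |>.2 h)
      (ih1 (Bm.ofRepB r s _)) (ih2 (Bm.ofRepB r s _))
  | summand h _ ih =>
    exact Perf.summand (ρ.isSummand (Bm.ofRepB r s _) |>.2 h)
      (ih (Bm.ofRepB r s _))

end Pool.Agent.MP_6e5bed_ag_SP
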