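import Pool.Agent.Lib.MP_6e5bed_ag_SP.RepPerf
import Pool.Agent.Lib.MP_6e5bed_ag_NC.FieldIff
import Pool.Agent.Lib.MP_6e5bed_ag_NC.FinPerf
import Pool.Agent.Lib.MP_6e5bed_ag_NC.SmProp
import Pool.Agent.Lib.MP_6e5bed_ag_BC.He

set_option autoImplicit false

/-!
# Comparison of smooth proper dg algebras
-/

namespace Pool.Agent.MP_6e5bed_ag_SP

open MulOpposite Pool.Agent.MP_6e5bed_ag_NC

universe u

section htpy

variable {k : Type u} [CommRing k] {V W : Type u} [AddCommGroup V] [Module k V] [AddCommGroup W]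
  [Module k W] {Z : Cx k V} {Z' : Cx k W} {M N : Bim (base k) (base k)}

private theorem RepSm_gmap {e : V ≃ₗ[k] M.M} {e' : W ≃ₗ[k] N.M} (h : IsRepC Z M.dg e)
    (h' : IsRepC Z' N.dg e') {n : ℤ} (f : V →ₗ[k] W)
    (hf : ∀ i v, v ∈ Z.gr i → f v ∈ Z'.gr (i + n)) :
    ∃ φ : GMap n M N, ∀ v, φ.f (e v) = e' (f v) := by
  refine ⟨GMap.ofBase ((e'.toLinearMap ∘ₗ f) ∘ₗ e.symm.toLinearMap) ?_, fun v => ?_⟩
  · intro i v hv
    change N.dg.IsDeg (i + n) (e' (f (e.symm v)))
    rw [← h'.mem]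
    apply hf
    rw [h.mem, LinearEquiv.apply_symm_apply]
    exact hv
  · change e' (f (e.symm (e v))) = _
    rw [LinearEquiv.symm_apply_apply]

private theorem RepSm_lin {e : V ≃ₗ[k] M.M} {e' : W ≃ₗ[k] N.M} (h : IsRepC Z M.dg e)
    (h' : IsRepC Z' N.dg e') {n : ℤ} (φ : GMap n M N) :
    ∃ f : V →ₗ[k] W, (∀ i v, v ∈ Z.gr i → f v ∈ Z'.gr (i + n)) ∧ ∀ v, φ.f (e v) = e' (f v) := by
  refine ⟨(e'.symm.toLinearMap ∘ₗ φ.f) ∘ₗ e.toLinearMap, ?_, fun v => ?_⟩
  · intro i v hv
    change e'.symm (φ.f (e v)) ∈ Z'.gr (i + n)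
    rw [h'.mem, LinearEquiv.apply_symm_apply]
    exact φ.deg ((h.mem i v).1 hv)
  · change _ = e' (e'.symm (φ.f (e v)))
    rw [LinearEquiv.apply_symm_apply]

private theorem RepSm_to {e : V ≃ₗ[k] M.M} {e' : W ≃ₗ[k] N.M} (h : IsRepC Z M.dg e)
    (h' : IsRepC Z' N.dg e') {f : V →ₗ[k] W} {φ : GMap 0 M N}
    (hφ : ∀ v, φ.f (e v) = e' (f v)) (hf : IsHtpyEq Z Z' f) : HtpyEq φ := by
  obtain ⟨h1, h2, g, u, u', h3, h4, h5, h6, h7, h8⟩ := hf
  obtain ⟨ψ, hψ⟩ := RepSm_gmap h' h (n := 0) g (fun i v hv => by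
    rw [add_zero]
    exact h3 i v hv)
  obtain ⟨t, ht⟩ := RepSm_gmap h h (n := -1) (-u) (fun i v hv => by
    have h9 : v ∈ Z.gr ((i + -1) + 1) := by rwa [neg_add_cancel_right]
    exact (Z.gr _).neg_mem (h5 _ v h9))
  obtain ⟨t', ht'⟩ := RepSm_gmap h' h' (n := -1) (-u') (fun i v hv => by
    have h9 : v ∈ Z'.gr ((i + -1) + 1) := by rwa [neg_add_cancel_right]
    exact (Z'.gr _).neg_mem (h6 _ v h9))
  refine ⟨?_, ψ, t, t', ?_, ?_, ?_⟩
  · ext m
    obtain ⟨m, rfl⟩ := e.surjective m
    rw [GMap.dd_apply, sg_zero, one_smul, LinearMap.zero_apply, sub_eq_zero, hφ, ← h'.d, ← h.d,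
      hφ, h2]
  · ext m
    obtain ⟨m, rfl⟩ := e'.surjective m
    rw [GMap.dd_apply, sg_zero, one_smul, LinearMap.zero_apply, sub_eq_zero, hψ, ← h'.d, ← h.d,
      hψ, h4]
  · intro m
    obtain ⟨m, rfl⟩ := e.surjective m
    rw [GMap.dd_apply, sg_neg, sg_one, neg_smul, one_smul, sub_neg_eq_add, ht, ← h.d, ← h.d, ht,
      hφ, hψ, ← map_add, ← map_sub, h7]
    congr 1
    simp only [LinearMap.neg_apply, map_neg]
    abel
  · intro m
    obtain ⟨m, rfl⟩ := e'.surjective m
    rw [GMap.dd_apply, sg_neg, sg_one, neg_smul, one_smul, sub_neg_eq_add, ht', ← h'.d, ← h'.d,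
      ht', hψ, hφ, ← map_add, ← map_sub, h8]
    congr 1
    simp only [LinearMap.neg_apply, map_neg]
    abel

private theorem RepSm_of {e : V ≃ₗ[k] M.M} {e' : W ≃ₗ[k] N.M} (h : IsRepC Z M.dg e)
    (h' : IsRepC Z' N.dg e') {f : V →ₗ[k] W} {φ : GMap 0 M N}
    (hφ : ∀ v, φ.f (e v) = e' (f v)) (hf : HtpyEq φ) : IsHtpyEq Z Z' f := by
  obtain ⟨h0, ψ, t, t', h1, h2, h3⟩ := hf
  obtain ⟨g, hg, hg'⟩ := RepSm_lin h' h ψ
  obtain ⟨u, hu, hu'⟩ := RepSm_lin h h t
  obtain ⟨u', hw, hw'⟩ := RepSm_lin h' h' t'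
  refine ⟨?_, ?_, g, -u, -u', ?_, ?_, ?_, ?_, ?_, ?_⟩
  · intro i v hv
    rw [h'.mem, ← hφ]
    have h4 := φ.deg ((h.mem i v).1 hv)
    rwa [add_zero] at h4
  · intro v
    apply e'.injective
    rw [← hφ, h.d, h'.d, ← hφ, GMap.d_f_zero h0]
  · intro i w hw
    have h4 := hg i w hw
    rwa [add_zero] at h4
  · intro w
    apply e.injective
    rw [← hg', h.d, h'.d, ← hg', GMap.d_f_zero h1]
  · intro i v hv
    have h4 := hu (i + 1) v hv
    rw [add_neg_cancel_right] at h4
    exact (Z.gr i).neg_mem h4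
  · intro i v hv
    have h4 := hw (i + 1) v hv
    rw [add_neg_cancel_right] at h4
    exact (Z'.gr i).neg_mem h4
  · intro v
    apply e.injective
    have h4 := h2 (e v)
    rw [GMap.dd_apply, sg_neg, sg_one, neg_smul, one_smul, sub_neg_eq_add, hu', ← h.d, ← h.d, hu',
      hφ, hg', ← map_add, ← map_sub] at h4
    rw [← sub_eq_zero, ← map_sub]
    have h5 := e.injective h4
    have h6 : g (f v) - (v + Z.d ((-u) v) + (-u) (Z.d v)) = 0 := by
      simp only [LinearMap.neg_apply, map_neg]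
      have h7 : g (f v) = v - (Z.d (u v) + u (Z.d v)) := by
        rw [h5]
        abel
      rw [h7]
      abel
    rw [h6, map_zero]
  · intro v
    apply e'.injective
    have h4 := h3 (e' v)
    rw [GMap.dd_apply, sg_neg, sg_one, neg_smul, one_smul, sub_neg_eq_add, hw', ← h'.d, ← h'.d,
      hw', hg', hφ, ← map_add, ← map_sub] at h4
    rw [← sub_eq_zero, ← map_sub]
    have h5 := e'.injective h4
    have h6 : f (g v) - (v + Z'.d ((-u') v) + (-u') (Z'.d v)) = 0 := by
      simp only [LinearMap.neg_apply, map_neg]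
      have h7 : f (g v) = v - (Z'.d (u' v) + u' (Z'.d v)) := by
        rw [h5]
        abel
      rw [h7]
      abel
    rw [h6, map_zero]

end htpy

section ring

variable {k : Type u} [CommRing k] {A M : Type u} [Ring A] [Algebra k A]
  [AddCommGroup M] [Module k M] [Module A M] [Module Aᵐᵒᵖ M]
  {X : DG k A} {A' : DGA k} {r : Rep X A'} {Z : Bm X X M} {M' : Bim A' A'}

/-- `A'` represents the diagonal bimodule. -/
noncomputable def Rep.diag (r : Rep X A') : RepB r r (diag X) (MP_6e5bed_ag_NC.diag A') where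
  e := r.e
  l := fun a m => r.mul a m
  r := fun b m => r.mul m b
  rep := r.rep

theorem IsRes.to (h : IsRes Z) (ρ : RepB r r Z M') :
    MP_6e5bed_ag_NC.Perf M' ∧ ∃ φ : GMap 0 M' (MP_6e5bed_ag_NC.diag A'), RQIso φ := by
  obtain ⟨hZ, f, hf, hf'⟩ := h
  refine ⟨hZ.to ρ, ?_⟩
  obtain ⟨φ, h0, hφ⟩ := ρ.exists_closed (Rep.diag r) hf
  refine ⟨φ, ?_⟩
  exact RepSm_to (M := und M') (N := und (MP_6e5bed_ag_NC.diag A')) (e := ρ.e) (e' := r.e)
    ρ.rep r.rep (φ := GMap.res (DHom.unit A') (DHom.unit A') φ) hφ hf'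

theorem IsRes.of (ρ : RepB r r Z M') (h : MP_6e5bed_ag_NC.Perf M')
    {φ : GMap 0 M' (MP_6e5bed_ag_NC.diag A')} (hφ : RQIso φ) : IsRes Z := by
  refine ⟨Perf.of h ρ, ?_⟩
  obtain ⟨f, hf, hf'⟩ := ρ.exists_isHom (Rep.diag r) φ hφ.closed
  refine ⟨f, hf, ?_⟩
  exact RepSm_of (M := und M') (N := und (MP_6e5bed_ag_NC.diag A')) (e := ρ.e) (e' := r.e)
    ρ.rep r.rep (φ := GMap.res (DHom.unit A') (DHom.unit A') φ) hf' hφ

theorem SmPr.smooth (h : SmPr X) (r : Rep X A') : Smooth A' := by
  obtain ⟨⟨M, _, _, _, _, Z, hZ⟩, -⟩ := h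
  obtain ⟨h1, φ, h2⟩ := hZ.to (Bm.toRepB r r Z)
  exact ⟨_, φ, h1, h2⟩

end ring

section base

variable {k : Type u} [CommRing k]

/-- A complex as a bimodule over the base. -/
noncomputable def RepSmB {V : Type u} [AddCommGroup V] [Module k V] (X : Dg k V) :
    Bim (base k) (base k) where
  M := V
  dg := X
  l := LinearMap.lsmul k V
  r := LinearMap.lsmul k V
  l_one := fun m => one_smul k m
  r_one := fun m => one_smul k m
  l_mul := fun (a a' : k) m => mul_smul a a' m
  r_mul := fun (a a' : k) m => by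
    change (a * a') • m = a' • a • m
    rw [mul_comm, mul_smul]
  l_r := fun (a b : k) m => smul_comm a b m
  l_deg := fun ha hm => base_smul_deg X ha hm
  r_deg := fun hm ha => by
    rw [add_comm]
    exact base_smul_deg X ha hm
  d_l := fun (a : k) m => by
    have h : X.d (a • m) = (0 : k) • m + a • X.d m := by
      rw [map_smul, zero_smul, zero_add]
    have h1 : (base k).dg.s a = a := base_s a
    rw [h1]
    exact h
  d_r := fun (a : k) m => by
    change X.d (a • m) = a • X.d m + (0 : k) • X.s m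
    rw [map_smul, zero_smul, add_zero]

/-- The module `V` in degree `b`. -/
noncomputable def RepSmC (V : Type u) [AddCommGroup V] [Module k V] (b : ℤ) : Dg k V where
  ρ := Finsupp.lsingle b
  sum_ρ := fun v => by
    rw [Finsupp.lsingle_apply, Finsupp.sum_single_index rfl]
  ρ_ρ := fun v n => by
    rw [Finsupp.lsingle_apply, Finsupp.lsingle_apply, Finsupp.single_apply]
    split_ifs with h
    · rw [h]
    · rw [Finsupp.single_zero, Finsupp.single_zero]
  d := 0
  d_d := fun v => rfl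
  ρ_d := fun v n => by simp

variable {U V W : Type u} [AddCommGroup U] [Module k U] [AddCommGroup V] [Module k V]
  [AddCommGroup W] [Module k W]

private theorem RepSmC_deg {b i : ℤ} {v : V} (h : (RepSmC (k := k) V b).IsDeg i v) :
    b = i ∨ v = 0 := by
  change Finsupp.lsingle b v = Finsupp.single i v at h
  rw [Finsupp.lsingle_apply, Finsupp.single_eq_single_iff] at h
  rcases h with ⟨hi, -⟩ | ⟨ha, -⟩
  · exact Or.inl hi
  · exact Or.inr ha

private theorem RepSmC_self (b : ℤ) (v : V) : (RepSmC (k := k) V b).IsDeg b v := rfl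

private theorem RepSmC_map {b i : ℤ} {v : V} (f : V →ₗ[k] W)
    (h : (RepSmC (k := k) V b).IsDeg i v) : (RepSmC (k := k) W b).IsDeg i (f v) := by
  rcases RepSmC_deg h with hi | hv
  · rw [← hi]
    exact RepSmC_self b _
  · rw [hv, map_zero]
    exact Dg.IsDeg.zero i

/-- The map of complexes in degree `b`. -/
private noncomputable def RepSm_m (b : ℤ) (f : V →ₗ[k] W) :
    GMap 0 (RepSmB (RepSmC (k := k) V b)) (RepSmB (RepSmC (k := k) W b)) :=
  GMap.ofBase (V := RepSmB (RepSmC (k := k) V b)) (W := RepSmB (RepSmC (k := k) W b)) f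
    (fun h => by
      rw [add_zero]
      exact RepSmC_map f h)

private theorem RepSm_m_dd (b : ℤ) (f : V →ₗ[k] W) : (RepSm_m b f).dd = 0 := by
  refine LinearMap.ext fun (x : V) => ?_
  change (0 : W) - sg 0 • f (0 : V) = 0
  rw [map_zero, smul_zero, sub_zero]

private theorem RepSm_contr (M : Bim (base k) (base k)) (h : ∀ x : M.M, x = 0) : Contr M := by
  refine ⟨0, LinearMap.ext fun x => ?_⟩
  rw [GMap.dd_zero, LinearMap.id_apply]
  exact (h x).symm

private theorem RepSmC_one (b : ℤ) :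
    MP_6e5bed_ag_NC.Perf (RepSmB (RepSmC (k := k) k b)) := by
  refine BIso.perf (M := (und (MP_6e5bed_ag_NC.diag (base k))).shift (-b)) ?_
    (proper_base.shift (-b))
  refine BIso.symm (BIso.ofBase (V := RepSmB (RepSmC (k := k) k b))
    (W := (und (MP_6e5bed_ag_NC.diag (base k))).shift (-b)) (LinearMap.id : k →ₗ[k] k) ?_ ?_
    Function.bijective_id)
  · intro i v hv
    refine (Dg.shift_deg (base k).dg (n := -b) (i := i) (v := v)).2 ?_
    rcases RepSmC_deg hv with hi | hv
    · rw [hi, add_neg_cancel]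
      exact base_deg (k := k) v
    · have h1 : v = (0 : (base k).A) := hv
      rw [h1]
      exact Dg.IsDeg.zero _
  · intro v
    change sg (-b) • (0 : k) = 0
    rw [smul_zero]

private def RepSm_cons (n : ℕ) : (Fin n → k) →ₗ[k] (Fin (n + 1) → k) where
  toFun x := (Fin.cons 0 x : Fin (n + 1) → k)
  map_add' x y := by
    ext i
    refine Fin.cases ?_ (fun i => ?_) i <;> simp
  map_smul' c x := by
    ext i
    refine Fin.cases ?_ (fun i => ?_) i <;> simp

private theorem RepSm_cons_zero {n : ℕ} (x : Fin n → k) : RepSm_cons n x 0 = 0 := rfl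

private theorem RepSm_cons_succ {n : ℕ} (x : Fin n → k) (i : Fin n) :
    RepSm_cons n x i.succ = x i := rfl

private theorem RepSmC_pi (b : ℤ) (n : ℕ) :
    MP_6e5bed_ag_NC.Perf (RepSmB (RepSmC (k := k) (Fin n → k) b)) := by
  induction n with
  | zero =>
    refine MP_6e5bed_ag_NC.Perf.contr (RepSm_contr _ fun (x : Fin 0 → k) => ?_)
    exact Subsingleton.elim (α := Fin 0 → k) _ _
  | succ n ih =>
    refine MP_6e5bed_ag_NC.Perf.mid (M' := RepSmB (RepSmC (k := k) k b))
      (M'' := RepSmB (RepSmC (k := k) (Fin n → k) b)) ?_ (RepSmC_one b) ih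
    refine ⟨RepSm_m b (LinearMap.single k (fun _ : Fin (n + 1) => k) 0),
      RepSm_m b (LinearMap.funLeft k k Fin.succ), RepSm_m b (LinearMap.proj 0),
      RepSm_m b (RepSm_cons n),
      RepSm_m_dd _ _, RepSm_m_dd _ _, fun (x : k) => ?_, fun (x : Fin n → k) => ?_,
      fun (x : k) => ?_, fun (x : Fin n → k) => ?_, fun (x : Fin (n + 1) → k) => ?_⟩
    · change LinearMap.proj (R := k) 0 (LinearMap.single k (fun _ : Fin (n + 1) => k) 0 x) = x
      simp
    · change LinearMap.funLeft k k Fin.succ (RepSm_cons n x) = x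
      ext i
      rw [LinearMap.funLeft_apply, RepSm_cons_succ]
    · change LinearMap.funLeft k k Fin.succ
        (LinearMap.single k (fun _ : Fin (n + 1) => k) 0 x) = 0
      ext i
      simp [LinearMap.funLeft_apply]
    · exact RepSm_cons_zero x
    · change LinearMap.single k (fun _ : Fin (n + 1) => k) 0 (LinearMap.proj (R := k) 0 x) +
        RepSm_cons n (LinearMap.funLeft k k Fin.succ x) = x
      ext i
      refine Fin.cases ?_ (fun i => ?_) i
      · simp [RepSm_cons_zero]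
      · simp [RepSm_cons_succ, LinearMap.funLeft_apply]

private theorem RepSmC_perf (b : ℤ) (V : Type u) [AddCommGroup V] [Module k V]
    [Module.Finite k V] [Module.Projective k V] :
    MP_6e5bed_ag_NC.Perf (RepSmB (RepSmC (k := k) V b)) := by
  obtain ⟨n, f, g, -, -, hfg⟩ := Module.Finite.exists_comp_eq_id_of_projective k V
  refine MP_6e5bed_ag_NC.Perf.summand (M := RepSmB (RepSmC (k := k) (Fin n → k) b)) ?_
    (RepSmC_pi b n)
  refine ⟨RepSm_m b g, RepSm_m b f, RepSm_m_dd _ _, RepSm_m_dd _ _, fun (x : V) => ?_⟩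
  exact LinearMap.congr_fun hfg x

section quot

variable (X : Dg k V) (b : ℤ) (S : Submodule k V)

private noncomputable def RepSm_r (hS : ∀ v, X.IsDeg b v → v ∈ S) : V →ₗ[k] S :=
  LinearMap.codRestrict S (Finsupp.lapply b ∘ₗ X.ρ) (fun v => hS _ (X.ρ_ρ v b))

private noncomputable def RepSm_s (hS : ∀ v ∈ S, X.IsDeg b v) : (V ⧸ S) →ₗ[k] V :=
  S.liftQ (LinearMap.id - Finsupp.lapply b ∘ₗ X.ρ) (fun v hv => by
    have h1 : X.ρ v = Finsupp.single b v := hS v hv
    rw [LinearMap.mem_ker]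
    change v - X.ρ v b = 0
    rw [h1, Finsupp.single_eq_same, sub_self])

private theorem RepSm_s_apply (hS : ∀ v ∈ S, X.IsDeg b v) (v : V) :
    RepSm_s X b S hS (S.mkQ v) = v - X.ρ v b := rfl

variable {X b S}

private theorem RepSm_r_deg (hS : ∀ v, X.IsDeg b v → v ∈ S) {i : ℤ} {v : V}
    (hv : X.IsDeg i v) : (RepSmC (k := k) S b).IsDeg i (RepSm_r X b S hS v) := by
  have h3 : X.ρ v = Finsupp.single i v := hv
  by_cases hi : i = b
  · rw [hi]
    exact RepSmC_self b _
  · have h4 : RepSm_r X b S hS v = 0 := by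
      refine Subtype.ext ?_
      change X.ρ v b = 0
      rw [h3, Finsupp.single_apply, if_neg hi]
    rw [h4]
    exact Dg.IsDeg.zero i

private theorem RepSm_ext (hS : ∀ v, v ∈ S ↔ X.IsDeg b v) (h0 : ∀ v ∈ S, X.d v = 0)
    (h1 : ∀ v ∈ S, ∀ n, X.ρ v n ∈ S) (h2 : ∀ v ∈ S, X.d v ∈ S) :
    MP_6e5bed_ag_NC.IsExt (RepSmB (RepSmC (k := k) S b)) (RepSmB X)
      (RepSmB (X.quot S h1 h2)) := by
  have hρ : ∀ v ∈ S, X.ρ v b = v := fun v hv => by
    have h3 : X.ρ v = Finsupp.single b v := (hS v).1 hv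
    rw [h3, Finsupp.single_eq_same]
  refine ⟨GMap.ofBase (V := RepSmB (RepSmC (k := k) S b)) (W := RepSmB X) S.subtype ?_,
    GMap.ofBase (V := RepSmB X) (W := RepSmB (X.quot S h1 h2)) S.mkQ ?_,
    GMap.ofBase (V := RepSmB X) (W := RepSmB (RepSmC (k := k) S b))
      (RepSm_r X b S (fun v hv => (hS v).2 hv)) ?_,
    GMap.ofBase (V := RepSmB (X.quot S h1 h2)) (W := RepSmB X)
      (RepSm_s X b S (fun v hv => (hS v).1 hv)) ?_, ?_, ?_, ?_, ?_, ?_, ?_, ?_⟩
  · intro i v hv
    rw [add_zero]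
    rcases RepSmC_deg hv with hi | hv
    · rw [← hi]
      exact (hS _).1 v.2
    · rw [hv]
      exact Dg.IsDeg.zero i
  · intro i v hv
    rw [add_zero]
    exact X.quot_deg (hS := h1) (hd := h2) hv
  · intro i v hv
    rw [add_zero]
    exact RepSm_r_deg (fun v hv => (hS v).2 hv) hv
  · intro i v hv
    refine ((Dg.degMap_iff (X := X.quot S h1 h2) (Y := X) (n := 0)
      (RepSm_s X b S (fun v hv => (hS v).1 hv))).2 ?_) i v hv
    intro v j
    obtain ⟨v, rfl⟩ := S.mkQ_surjective v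
    rw [Dg.quot_ρ, RepSm_s_apply, RepSm_s_apply, add_zero, map_sub, Finsupp.sub_apply, X.ρ_ρ,
      X.ρ_ρ, Finsupp.single_apply, Finsupp.single_apply]
    by_cases hj : b = j
    · rw [if_pos hj, if_pos hj.symm, hj]
    · rw [if_neg hj, if_neg (fun h => hj h.symm)]
  · refine LinearMap.ext fun (v : S) => ?_
    change X.d (v : V) - sg 0 • ((0 : S) : V) = 0
    rw [h0 v v.2, Submodule.coe_zero, smul_zero, sub_zero]
  · refine LinearMap.ext fun (v : V) => ?_
    change (X.quot S h1 h2).d (S.mkQ v) - sg 0 • (S.mkQ (X.d v)) = 0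
    rw [Dg.quot_d, sg_zero, one_smul, sub_self]
  · intro (v : S)
    exact Subtype.ext (hρ v v.2)
  · intro (v : V ⧸ S)
    obtain ⟨v, rfl⟩ := S.mkQ_surjective v
    change S.mkQ (v - X.ρ v b) = S.mkQ v
    rw [map_sub, Submodule.mkQ_apply S (X.ρ v b),
      (Submodule.Quotient.mk_eq_zero S).2 ((hS _).2 (X.ρ_ρ v b)), sub_zero]
  · intro (v : S)
    exact (Submodule.Quotient.mk_eq_zero S).2 v.2
  · intro (v : V ⧸ S)
    obtain ⟨v, rfl⟩ := S.mkQ_surjective v
    refine Subtype.ext ?_
    change X.ρ (v - X.ρ v b) b = 0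
    rw [map_sub, Finsupp.sub_apply, X.ρ_ρ, Finsupp.single_eq_same, sub_self]
  · intro (v : V)
    change X.ρ v b + (v - X.ρ v b) = v
    abel

end quot

private theorem RepSm_perf (n : ℕ) : ∀ (V : Type u) [AddCommGroup V] [Module k V]
    (X : Dg k V), Module.Finite k V → Module.Projective k V → ∀ T : Finset ℤ, T.card = n →
    (∀ v m, m ∉ T → X.ρ v m = 0) → MP_6e5bed_ag_NC.Perf (RepSmB X) := by
  induction n with
  | zero =>
    intro V _ _ X _ _ T hT h
    refine MP_6e5bed_ag_NC.Perf.contr (RepSm_contr _ fun (x : V) => ?_)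
    have h1 : X.ρ x = 0 := by
      ext m
      rw [Finsupp.zero_apply]
      refine h x m ?_
      rw [Finset.card_eq_zero.1 hT]
      exact Finset.notMem_empty m
    have h2 := X.sum_ρ x
    rw [h1, Finsupp.sum_zero_index] at h2
    exact h2.symm
  | succ n ih =>
    intro V _ _ X hfin hproj T hT h
    have hne : T.Nonempty := by
      rw [← Finset.card_pos, hT]
      exact Nat.succ_pos n
    obtain ⟨b, hb, hmax⟩ : ∃ b ∈ T, ∀ c ∈ T, c ≤ b :=
      ⟨T.max' hne, T.max'_mem hne, fun c hc => T.le_max' c hc⟩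
    obtain ⟨S, hS⟩ : ∃ S : Submodule k V, ∀ v, v ∈ S ↔ X.IsDeg b v :=
      ⟨(Cx.ofDg X).gr b, fun v => (Cx.ofDg_rep X).mem b v⟩
    have h0 : ∀ v ∈ S, X.d v = 0 := fun v hv => by
      have h3 : X.IsDeg (b + 1) (X.d v) := ((hS v).1 hv).d
      have h4 : X.ρ (X.d v) = Finsupp.single (b + 1) (X.d v) := h3
      have h5 : b + 1 ∉ T := fun h6 => by
        have h7 := hmax _ h6
        omega
      have h6 := h (X.d v) (b + 1) h5
      rwa [h4, Finsupp.single_eq_same] at h6
    have hρ : ∀ v ∈ S, X.ρ v b = v := fun v hv => by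
      have h3 : X.ρ v = Finsupp.single b v := (hS v).1 hv
      rw [h3, Finsupp.single_eq_same]
    have h1 : ∀ v ∈ S, ∀ n, X.ρ v n ∈ S := fun v hv n => by
      have h3 : X.ρ v = Finsupp.single b v := (hS v).1 hv
      rw [h3, Finsupp.single_apply]
      split_ifs
      · exact hv
      · exact S.zero_mem
    have h2 : ∀ v ∈ S, X.d v ∈ S := fun v hv => by
      rw [h0 v hv]
      exact S.zero_mem
    have hr : RepSm_r X b S (fun v hv => (hS v).2 hv) ∘ₗ S.subtype = LinearMap.id :=
      LinearMap.ext fun v => Subtype.ext (hρ v v.2)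
    have hs : S.mkQ ∘ₗ RepSm_s X b S (fun v hv => (hS v).1 hv) = LinearMap.id := by
      refine LinearMap.ext fun v => ?_
      obtain ⟨v, rfl⟩ := S.mkQ_surjective v
      change S.mkQ (v - X.ρ v b) = S.mkQ v
      rw [map_sub, Submodule.mkQ_apply S (X.ρ v b),
        (Submodule.Quotient.mk_eq_zero S).2 ((hS _).2 (X.ρ_ρ v b)), sub_zero]
    have _ : Module.Finite k S := Module.Finite.of_surjective
      (RepSm_r X b S (fun v hv => (hS v).2 hv))
      (fun v => ⟨v, LinearMap.congr_fun hr v⟩)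
    have _ : Module.Projective k S := Module.Projective.of_split S.subtype
      (RepSm_r X b S (fun v hv => (hS v).2 hv)) hr
    have hQ : Module.Projective k (V ⧸ S) := Module.Projective.of_split
      (RepSm_s X b S (fun v hv => (hS v).1 hv)) S.mkQ hs
    refine MP_6e5bed_ag_NC.Perf.mid (RepSm_ext hS h0 h1 h2) (RepSmC_perf b S)
      (ih (V ⧸ S) (X.quot S h1 h2) inferInstance hQ (T.erase b) ?_ ?_)
    · rw [Finset.card_erase_of_mem hb, hT]
      rfl
    · intro v m hm
      obtain ⟨v, rfl⟩ := S.mkQ_surjective v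
      rw [Dg.quot_ρ]
      by_cases hmb : m = b
      · rw [hmb]
        exact (Submodule.Quotient.mk_eq_zero S).2 ((hS _).2 (X.ρ_ρ v b))
      · rw [h v m (fun h3 => hm (Finset.mem_erase.2 ⟨hmb, h3⟩)), map_zero]

end base

section proper

variable {k : Type u} [CommRing k] {A : Type u} [Ring A] [Algebra k A] {X : DG k A} {A' : DGA k}

/-- A bounded complex of finitely generated projective modules is perfect. -/
theorem perf_of_proj {M : Bim (base k) (base k)} (h : Module.Finite k M.M)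
    (h' : Module.Projective k M.M) : MP_6e5bed_ag_NC.Perf M := by
  classical
  obtain ⟨s, hs⟩ := h
  have h1 : MP_6e5bed_ag_NC.Perf (RepSmB M.dg) := by
    refine RepSm_perf _ M.M M.dg ⟨s, hs⟩ h' (s.biUnion fun v => (M.dg.ρ v).support) rfl ?_
    intro v m hm
    have h2 : v ∈ Submodule.span k (s : Set M.M) := by
      rw [hs]
      exact Submodule.mem_top
    induction h2 using Submodule.span_induction with
    | mem x hx =>
      by_contra h3
      exact hm (Finset.mem_biUnion.2 ⟨x, hx, Finsupp.mem_support_iff.2 h3⟩)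
    | zero => rw [map_zero, Finsupp.zero_apply]
    | add x y _ _ hx hy => rw [map_add, Finsupp.add_apply, hx, hy, add_zero]
    | smul c x _ hx => rw [map_smul, Finsupp.smul_apply, hx, smul_zero]
  exact (BIso.ofBase (V := RepSmB M.dg) (W := M) LinearMap.id (fun h => h) (fun _ => rfl)
    Function.bijective_id).perf h1

theorem SmPr.proper (h : SmPr X) (r : Rep X A') : Proper A' := by
  obtain ⟨-, V, _, _, Z, f, h1, h2, hf⟩ := h
  obtain ⟨φ, hφ⟩ := RepSm_gmap (M := RepSmB Z.toDg) (N := und (MP_6e5bed_ag_NC.diag A'))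
    (e := LinearEquiv.refl k V) (e' := r.e) (Cx.toDg_rep Z) r.rep (n := 0) f (fun i v hv => by
      rw [add_zero]
      exact hf.1 i v hv)
  have h3 : HtpyEq φ := RepSm_to (M := RepSmB Z.toDg) (N := und (MP_6e5bed_ag_NC.diag A'))
    (e := LinearEquiv.refl k V) (e' := r.e) (Cx.toDg_rep Z) r.rep hφ hf
  exact HE.perf ⟨φ, h3⟩ (perf_of_proj (M := RepSmB Z.toDg) h1 h2)

end proper

section field

variable {k : Type u} [Field k] {A : Type u} [Ring A] [Algebra k A] {X : DG k A} {A' : DGA k}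

/-- The vector space with basis `b`, where the degree of the basis vector `q` is `n q`, with zero
differential. -/
private noncomputable def RepSmF (k : Type u) [Field k] {b : Type u} (n : b → ℤ) :
    Dg k (b →₀ k) where
  ρ := Finsupp.lsum k (fun q => (Finsupp.lsingle (n q)).comp (Finsupp.lsingle q))
  sum_ρ := fun v => by
    induction v using Finsupp.induction_linear with
    | zero => rw [map_zero, Finsupp.sum_zero_index]
    | add x y hx hy =>
      rw [map_add, Finsupp.sum_add_index' (fun _ => rfl) (fun _ _ _ => rfl), hx, hy]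
    | single q c =>
      rw [Finsupp.lsum_single, LinearMap.comp_apply, Finsupp.lsingle_apply,
        Finsupp.lsingle_apply, Finsupp.sum_single_index rfl]
  ρ_ρ := fun v i => by
    induction v using Finsupp.induction_linear with
    | zero => simp
    | add x y hx hy =>
      rw [map_add, Finsupp.add_apply, map_add, hx, hy, Finsupp.single_add]
    | single q c =>
      rw [Finsupp.lsum_single, LinearMap.comp_apply, Finsupp.lsingle_apply,
        Finsupp.lsingle_apply, Finsupp.single_apply]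
      split_ifs with h
      · rw [Finsupp.lsum_single, LinearMap.comp_apply, Finsupp.lsingle_apply,
          Finsupp.lsingle_apply, h]
      · rw [map_zero, Finsupp.single_zero]
  d := 0
  d_d := fun v => rfl
  ρ_d := fun v n => by simp

private theorem RepSmF_single {b : Type u} (n : b → ℤ) (q : b) (c : k) :
    (RepSmF k n).ρ (Finsupp.single q c) = Finsupp.single (n q) (Finsupp.single q c) := by
  change Finsupp.lsum k (fun q => (Finsupp.lsingle (n q)).comp (Finsupp.lsingle q))
    (Finsupp.single q c) = _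
  rw [Finsupp.lsum_single]
  rfl

private theorem RepSm_basis {V : Type u} [AddCommGroup V] [Module k V] (Y : Dg k V)
    (hY : Y.FinCoh) : ∃ (b : Type u) (_ : Finite b) (n : b → ℤ) (z : b → V),
      (∀ q, Y.IsDeg (n q) (z q)) ∧ (∀ q, Y.d (z q) = 0) ∧
      (∀ x : b →₀ k, (∃ y, Y.d y = Finsupp.linearCombination k z x) → x = 0) ∧
      ∀ y, Y.d y = 0 → ∃ (x : b →₀ k) (w : V), Y.d w = y - Finsupp.linearCombination k z x := by
  obtain ⟨H, _, _, π, hfin, hker, hsurj⟩ : ∃ (H : Type u) (_ : AddCommGroup H)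
      (_ : Module k H) (π : LinearMap.ker Y.d →ₗ[k] H), Module.Finite k H ∧
      (∀ x, π x = 0 ↔ ∃ y, Y.d y = (x : V)) ∧ Function.Surjective π := by
    refine ⟨_, _, _, ((LinearMap.range Y.d).comap (LinearMap.ker Y.d).subtype).mkQ, hY, ?_,
      Submodule.mkQ_surjective _⟩
    intro x
    rw [Submodule.mkQ_apply, Submodule.Quotient.mk_eq_zero, Submodule.mem_comap,
      LinearMap.mem_range]
    rfl
  obtain ⟨S, hS⟩ : ∃ S : Set H, S = {q | ∃ (n : ℤ) (z : LinearMap.ker Y.d),
    Y.IsDeg n (z : V) ∧ π z = q} := ⟨_, rfl⟩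
  have hspan : Submodule.span k S = ⊤ := by
    rw [eq_top_iff]
    rintro q -
    obtain ⟨x, rfl⟩ := hsurj q
    obtain ⟨v, hv⟩ := x
    have hvd : Y.d v = 0 := hv
    have h1 : ∀ n, Y.ρ v n ∈ LinearMap.ker Y.d := fun n => by
      rw [LinearMap.mem_ker, ← Y.ρ_d, hvd, map_zero, Finsupp.zero_apply]
    have h2 : (⟨v, hv⟩ : LinearMap.ker Y.d) =
        ∑ n ∈ (Y.ρ v).support, ⟨Y.ρ v n, h1 n⟩ := by
      refine Subtype.ext ?_
      rw [AddSubmonoidClass.coe_finsetSum]
      exact (Y.sum_ρ v).symm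
    rw [h2, map_sum]
    refine Submodule.sum_mem _ fun n _ => Submodule.subset_span ?_
    rw [hS]
    exact ⟨n, ⟨Y.ρ v n, h1 n⟩, Y.ρ_ρ v n, rfl⟩
  obtain ⟨b, hb, hbs, hli⟩ := exists_linearIndependent k S
  rw [hspan] at hbs
  have hfb : Finite b := by
    have _ := hfin
    exact hli.finite
  have h3 : ∀ q : b, ∃ (n : ℤ) (z : LinearMap.ker Y.d), Y.IsDeg n (z : V) ∧ π z = q :=
    fun q => by
      have h4 : (q : H) ∈ S := hb q.2
      rw [hS] at h4
      exact h4
  choose n z hn hz using h3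
  have hπ : ∀ x : b →₀ k, ((Finsupp.linearCombination k z x : LinearMap.ker Y.d) : V) =
      Finsupp.linearCombination k (fun q => (z q : V)) x := fun x => by
    rw [Finsupp.linearCombination_apply, Finsupp.linearCombination_apply, Finsupp.sum,
      Finsupp.sum, AddSubmonoidClass.coe_finsetSum]
    rfl
  have hπ' : ∀ x : b →₀ k, π (Finsupp.linearCombination k z x) =
      Finsupp.linearCombination k (fun q : b => (q : H)) x := fun x => by
    rw [Finsupp.linearCombination_apply, Finsupp.linearCombination_apply, Finsupp.sum,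
      Finsupp.sum, map_sum]
    exact Finset.sum_congr rfl fun q _ => by rw [map_smul, hz]
  refine ⟨b, hfb, n, fun q => (z q : V), hn, fun q => (z q).2, ?_, ?_⟩
  · rintro x ⟨y, hy⟩
    rw [← hπ] at hy
    have h5 := (hker _).2 ⟨y, hy⟩
    rw [hπ'] at h5
    exact (linearIndependent_iff.1 hli) x h5
  · intro y hy
    have h5 : π ⟨y, hy⟩ ∈ Submodule.span k b := by
      rw [hbs]
      exact Submodule.mem_top
    obtain ⟨x, hx⟩ := (Finsupp.mem_span_iff_linearCombination k b _).1 h5
    refine ⟨x, ?_⟩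
    have h6 : π (⟨y, hy⟩ - Finsupp.linearCombination k z x) = 0 := by
      rw [map_sub, hπ', ← hx, sub_self]
    obtain ⟨w, hw⟩ := (hker _).1 h6
    refine ⟨w, ?_⟩
    rw [hw, ← hπ]
    rfl

theorem SmPr.of (r : Rep X A') (h : Smooth A') (h' : Proper A') : SmPr X := by
  refine ⟨?_, ?_⟩
  · obtain ⟨P, φ, hP, hφ⟩ := h
    exact ⟨RM r r P, inferInstance, inferInstance, inferInstance, inferInstance, Bm.of r r P,
      IsRes.of (Bm.ofRepB r r P) hP hφ⟩
  · obtain ⟨b, _, n, z, hn, hz, h1, h2⟩ := RepSm_basis A'.dg ((proper_iff A').1 h')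
    have hdeg : ∀ v j, A'.dg.ρ (Finsupp.linearCombination k z v) (j + 0) =
        Finsupp.linearCombination k z ((RepSmF k n).ρ v j) := by
      intro v j
      rw [add_zero]
      induction v using Finsupp.induction_linear with
      | zero => simp only [map_zero, Finsupp.zero_apply]
      | add x y hx hy =>
        rw [map_add, map_add, Finsupp.add_apply, hx, hy, map_add, Finsupp.add_apply, map_add]
      | single q c =>
        have h3 : A'.dg.ρ (z q) = Finsupp.single (n q) (z q) := hn q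
        rw [RepSmF_single, Finsupp.linearCombination_single, map_smul, h3,
          Finsupp.smul_single, Finsupp.single_apply, Finsupp.single_apply]
        split_ifs
        · rw [Finsupp.linearCombination_single]
        · rw [map_zero]
    have hd : ∀ v, A'.dg.d (Finsupp.linearCombination k z v) = 0 := by
      intro v
      induction v using Finsupp.induction_linear with
      | zero => simp only [map_zero]
      | add x y hx hy => rw [map_add, map_add, hx, hy, add_zero]
      | single q c => rw [Finsupp.linearCombination_single, map_smul, hz, smul_zero]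
    obtain ⟨φ, hφ⟩ : ∃ φ : GMap 0 (RepSmB (RepSmF k n)) (und (MP_6e5bed_ag_NC.diag A')),
        ∀ v, φ.f v = Finsupp.linearCombination k z v :=
      ⟨GMap.ofBase (V := RepSmB (RepSmF k n)) (W := und (MP_6e5bed_ag_NC.diag A'))
        (Finsupp.linearCombination k z) (fun {i v} hv =>
          (Dg.degMap_iff (X := RepSmF k n) (Y := A'.dg) (n := 0)
            (Finsupp.linearCombination k z)).2 hdeg i v hv), fun _ => rfl⟩
    have hq : QIso φ := by
      refine ⟨?_, ?_, ?_⟩
      · refine LinearMap.ext fun v => ?_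
        have e1 : (und (MP_6e5bed_ag_NC.diag A')).dg.d (φ.f v) = 0 :=
          (congrArg A'.dg.d (hφ v)).trans (hd v)
        have e2 : φ.f ((RepSmB (RepSmF k n)).dg.d v) = 0 := (hφ _).trans (map_zero _)
        rw [GMap.dd_apply, e1, e2, smul_zero, sub_zero]
        rfl
      · rintro x - ⟨y, hy⟩
        rw [hφ] at hy
        exact ⟨(0 : b →₀ k), (h1 x ⟨y, hy⟩).symm⟩
      · intro y hy
        obtain ⟨x, w, hw⟩ := h2 y hy
        exact ⟨x, rfl, w, hw.trans (congrArg (fun t => y - t) (hφ x).symm)⟩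
    have hr : HtpyEq (GMap.res (DHom.unit (base k)) (DHom.unit (base k)) φ) := (rqiso_iff φ).2 hq
    refine ⟨b →₀ k, inferInstance, inferInstance, Cx.ofDg (RepSmF k n),
      r.e.symm.toLinearMap ∘ₗ Finsupp.linearCombination k z, inferInstance, inferInstance, ?_⟩
    refine RepSm_of (M := und (RepSmB (RepSmF k n)))
      (N := und (und (MP_6e5bed_ag_NC.diag A'))) (e := LinearEquiv.refl k (b →₀ k))
      (e' := r.e) (Cx.ofDg_rep (RepSmF k n)) r.rep
      (φ := GMap.res (DHom.unit (base k)) (DHom.unit (base k)) φ) ?_ hr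
    intro v
    refine (hφ v).trans ?_
    change _ = r.e (r.e.symm (Finsupp.linearCombination k z v))
    rw [LinearEquiv.apply_symm_apply]

end field

end Pool.Agent.MP_6e5bed_ag_SP
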