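import Pool.Agent.Lib.MP_6e5bed_ag_SP.RepC
import Pool.Agent.Lib.MP_6e5bed_ag_NC.CatSym

set_option autoImplicit false

/-!
# Comparison of tensor products of dg algebras
-/

namespace Pool.Agent.MP_6e5bed_ag_SP

open MulOpposite Pool.Agent.MP_6e5bed_ag_NC
open scoped TensorProduct

universe u

section general

variable {k : Type u} [CommRing k] {V V' : Type u} [AddCommGroup V] [Module k V]
  [AddCommGroup V'] [Module k V']

/-- A linear equivalence which maps homogeneous elements to homogeneous elements identifies the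
gradings. -/
theorem repTens_mem_iff (X : Cx k V) (X' : Dg k V') (e : V ≃ₗ[k] V')
    (h : ∀ n v, v ∈ X.gr n → X'.IsDeg n (e v)) (n : ℤ) (v : V) :
    v ∈ X.gr n ↔ X'.IsDeg n (e v) := by
  refine ⟨h n v, fun hv => ?_⟩
  have h1 := (Dg.degMap_iff (X := X.toDg) (Y := X') (n := 0) e.toLinearMap).1
    (fun j v hv => by
      rw [add_zero]
      exact h j v (((Cx.toDg_rep X).mem j v).2 hv))
  refine ((Cx.toDg_rep X).mem n v).2 ?_
  have hv' : X'.ρ (e v) = Finsupp.single n (e v) := hv
  change X.toDg.ρ v = Finsupp.single n v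
  ext j
  apply e.injective
  have h2 : X'.ρ (e v) (j + 0) = e (X.toDg.ρ v j) := h1 v j
  rw [← h2, add_zero, hv', Finsupp.single_apply, Finsupp.single_apply]
  split_ifs
  · rfl
  · rw [map_zero]

/-- A linear equivalence whose inverse maps homogeneous elements to homogeneous elements
identifies the gradings. -/
theorem repTens_mem_iff' (X : Cx k V) (X' : Dg k V') (e : V ≃ₗ[k] V')
    (h : ∀ n v, X'.IsDeg n v → e.symm v ∈ X.gr n) (n : ℤ) (v : V) :
    v ∈ X.gr n ↔ X'.IsDeg n (e v) := by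
  refine ⟨fun hv => ?_, fun hv => ?_⟩
  · have h1 := (Dg.degMap_iff (X := X') (Y := X.toDg) (n := 0) e.symm.toLinearMap).1
      (fun j v hv => by
        rw [add_zero]
        exact ((Cx.toDg_rep X).mem j _).1 (h j v hv))
    have hv' : X.toDg.ρ v = Finsupp.single n v := ((Cx.toDg_rep X).mem n v).1 hv
    change X'.ρ (e v) = Finsupp.single n (e v)
    ext j
    apply e.symm.injective
    have h2 : X.toDg.ρ (e.symm (e v)) (j + 0) = e.symm (X'.ρ (e v) j) := h1 (e v) j
    rw [← h2, add_zero, e.symm_apply_apply, hv', Finsupp.single_apply, Finsupp.single_apply]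
    split_ifs
    · exact (e.symm_apply_apply v).symm
    · rw [map_zero]
  · have h1 := h n (e v) hv
    rwa [e.symm_apply_apply] at h1

theorem repTens_map_smul {F V V' : Type*} [AddCommGroup V] [AddCommGroup V'] [FunLike F V V']
    [AddMonoidHomClass F V V'] (f : F) (u : ℤˣ) (v : V) : f (u • v) = u • f v := by
  rcases Int.units_eq_one_or u with rfl | rfl
  · rw [one_smul, one_smul]
  · rw [Units.neg_smul, one_smul, Units.neg_smul, one_smul, map_neg]

theorem repTens_smul_tmul {k V W : Type*} [CommRing k] [AddCommGroup V] [Module k V]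
    [AddCommGroup W] [Module k W] (u : ℤˣ) (v : V) (w : W) :
    ((u • v) ⊗ₜ[k] w : V ⊗[k] W) = u • (v ⊗ₜ[k] w) := by
  rcases Int.units_eq_one_or u with rfl | rfl
  · rw [one_smul, one_smul]
  · rw [Units.neg_smul, one_smul, Units.neg_smul, one_smul, TensorProduct.neg_tmul]

end general

variable {k : Type u} [CommRing k] {A A' AA : Type u} [Ring A] [Algebra k A] [Ring A']
  [Algebra k A'] [Ring AA] [Algebra k AA] {X : DG k A} {X' : DG k A'} {E : DG k AA}
  {B B' : DGA k}

/-- The Koszul sign of the product in the tensor product of dg algebras. -/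
theorem repTens_kz (B B' : DGA k) {p q : ℤ} {b : B.A} {b' : B'.A} (hb : B.dg.IsDeg p b)
    (hb' : B'.dg.IsDeg q b') (a : B.A) (a' : B'.A) :
    kz B.dg B'.dg B.mul B'.mul (a ⊗ₜ b') (b ⊗ₜ a') =
      (p * q).negOnePow • (B.mul a b ⊗ₜ[k] B'.mul b' a' : B.A ⊗[k] B'.A) := by
  rcases Dg.o_of_parity hb' with ⟨hq, h⟩ | ⟨hq, h⟩
  · rw [kz_even h, Int.negOnePow_even _ (hq.mul_left p), one_smul]
  · rw [kz_odd h]
    rcases Dg.o_of_parity hb with ⟨hp, h'⟩ | ⟨hp, h'⟩
    · rw [Dg.s_of_even h', Int.negOnePow_even _ (hp.mul_right q), one_smul]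
    · rw [Dg.s_of_odd h', Int.negOnePow_odd _ (hp.mul hq), map_neg, TensorProduct.neg_tmul,
        Units.neg_smul, one_smul]

/-- The linear equivalence between a tensor product of dg algebras and the tensor product of the
representations. -/
noncomputable def repTensEquiv {i : A →ₐ[k] AA} {i' : A' →ₐ[k] AA} (T : IsTens X X' E i i')
    (r : Rep X B) (r' : Rep X' B') : AA ≃ₗ[k] (B.A ⊗[k] B'.A : Type u) :=
  (LinearEquiv.ofBijective (LinearMap.mul' k AA ∘ₗ
    TensorProduct.map i.toLinearMap i'.toLinearMap : A ⊗[k] A' →ₗ[k] AA) T.bij).symm ≪≫ₗ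
      TensorProduct.congr r.e r'.e

theorem repTensEquiv_mul {i : A →ₐ[k] AA} {i' : A' →ₐ[k] AA} (T : IsTens X X' E i i')
    (r : Rep X B) (r' : Rep X' B') (a : A) (a' : A') :
    repTensEquiv T r r' (i a * i' a') = (r.e a ⊗ₜ[k] r'.e a' : B.A ⊗[k] B'.A) := by
  have h : (LinearEquiv.ofBijective (LinearMap.mul' k AA ∘ₗ
    TensorProduct.map i.toLinearMap i'.toLinearMap : A ⊗[k] A' →ₗ[k] AA) T.bij) (a ⊗ₜ a') =
      i a * i' a' := by
    simp
  rw [repTensEquiv, LinearEquiv.trans_apply, ← h, LinearEquiv.symm_apply_apply,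
    TensorProduct.congr_tmul]

/-- An additive property of `AA` follows from the case of products of homogeneous elements. -/
theorem repTens_ind {i : A →ₐ[k] AA} {i' : A' →ₐ[k] AA} (T : IsTens X X' E i i')
    (r : Rep X B) (r' : Rep X' B') {P : AA → Prop} (h0 : P 0)
    (hadd : ∀ v w, P v → P w → P (v + w))
    (hdeg : ∀ p q a a', a ∈ X.gr p → a' ∈ X'.gr q → P (i a * i' a')) (x : AA) : P x := by
  obtain ⟨y, rfl⟩ := T.bij.2 x
  induction y using TensorProduct.induction_on with
  | zero => rwa [map_zero]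
  | add y y' hy hy' =>
    rw [map_add]
    exact hadd _ _ hy hy'
  | tmul a a' =>
    have h : (LinearMap.mul' k AA ∘ₗ
      TensorProduct.map i.toLinearMap i'.toLinearMap : A ⊗[k] A' →ₗ[k] AA) (a ⊗ₜ a') =
        i a * i' a' := by
      simp
    rw [h]
    refine r.rep.ind (P := fun a => P (i a * i' a')) (by simpa using h0) ?_ ?_ a
    · intro v w hv hw
      rw [map_add, add_mul]
      exact hadd _ _ hv hw
    · intro p a ha
      refine r'.rep.ind (P := fun a' => P (i a * i' a')) (by simpa using h0) ?_ ?_ a'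
      · intro v w hv hw
        rw [map_add, mul_add]
        exact hadd _ _ hv hw
      · intro q a' ha'
        exact hdeg p q a a' ha ha'

theorem repTensEquiv_mem {i : A →ₐ[k] AA} {i' : A' →ₐ[k] AA} (T : IsTens X X' E i i')
    (r : Rep X B) (r' : Rep X' B') (n : ℤ) (v : AA) :
    v ∈ E.gr n ↔ (B.dg.tensor B'.dg).IsDeg n (repTensEquiv T r r' v) := by
  refine repTens_mem_iff' E.toCx (B.dg.tensor B'.dg) (repTensEquiv T r r') ?_ n v
  intro n v hv
  have h := Dg.tensor_degMap (X := B.dg) (Y := B'.dg) (Z := E.toCx.toDg) (n := 0)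
    (repTensEquiv T r r').symm.toLinearMap (fun p q b b' hb hb' => by
      rw [add_zero]
      refine ((Cx.toDg_rep E.toCx).mem (p + q) _).1 ?_
      obtain ⟨a, rfl⟩ := r.e.surjective b
      obtain ⟨a', rfl⟩ := r'.e.surjective b'
      change (repTensEquiv T r r').symm (r.e a ⊗ₜ r'.e a') ∈ E.gr (p + q)
      rw [← repTensEquiv_mul T r r', LinearEquiv.symm_apply_apply]
      exact E.mul_mem p q _ _ (T.mem p a ((r.rep.mem p a).2 hb))
        (T.mem' q a' ((r'.rep.mem q a').2 hb'))) hv
  rw [add_zero] at h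
  exact ((Cx.toDg_rep E.toCx).mem n _).2 h

theorem repTensEquiv_d {i : A →ₐ[k] AA} {i' : A' →ₐ[k] AA} (T : IsTens X X' E i i')
    (r : Rep X B) (r' : Rep X' B') (v : AA) :
    repTensEquiv T r r' (E.d v) = (B.dg.tensor B'.dg).d (repTensEquiv T r r' v) := by
  refine repTens_ind T r r' (P := fun v => repTensEquiv T r r' (E.d v) =
    (B.dg.tensor B'.dg).d (repTensEquiv T r r' v)) (by simp) ?_ ?_ v
  · intro v w hv hw
    rw [map_add, map_add, map_add, map_add, hv, hw]
  · intro p q a a' ha ha'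
    rw [E.leibniz p _ _ (T.mem p a ha), T.d, T.d', map_add, repTensEquiv_mul,
      repTensEquiv_mul, Dg.tensor_d, r.rep.s ha, r.rep.d, repTens_smul_tmul, repTens_map_smul,
      repTensEquiv_mul, r'.rep.d]

theorem repTensEquiv_mul_mul {i : A →ₐ[k] AA} {i' : A' →ₐ[k] AA} (T : IsTens X X' E i i')
    (r : Rep X B) (r' : Rep X' B') (x y : AA) : repTensEquiv T r r' (x * y) =
      kz B.dg B'.dg B.mul B'.mul (repTensEquiv T r r' x) (repTensEquiv T r r' y) := by
  refine repTens_ind T r r' (P := fun x => repTensEquiv T r r' (x * y) =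
    kz B.dg B'.dg B.mul B'.mul (repTensEquiv T r r' x) (repTensEquiv T r r' y)) (by simp) ?_ ?_ x
  · intro v w hv hw
    rw [add_mul, map_add, map_add, map_add, LinearMap.add_apply, hv, hw]
  · intro p q a a' ha ha'
    refine repTens_ind T r r' (P := fun y => repTensEquiv T r r' (i a * i' a' * y) =
      kz B.dg B'.dg B.mul B'.mul (repTensEquiv T r r' (i a * i' a')) (repTensEquiv T r r' y))
      (by simp) ?_ ?_ y
    · intro v w hv hw
      rw [mul_add, map_add, map_add, map_add, hv, hw]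
    · intro p' q' b b' hb hb'
      have h1 : i a * i' a' * (i b * i' b') =
          (p' * q).negOnePow • (i (a * b) * i' (a' * b')) := by
        have h2 : i a * i' a' * (i b * i' b') = i a * (i' a' * i b) * i' b' := by
          simp only [mul_assoc]
        rw [h2, T.comm p' q b a' hb ha', map_mul, map_mul]
        rcases Int.units_eq_one_or (p' * q).negOnePow with h | h <;> rw [h]
        · simp only [one_smul, mul_assoc]
        · simp only [Units.neg_smul, one_smul, mul_neg, neg_mul, mul_assoc]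
      rw [h1, repTens_map_smul, repTensEquiv_mul, repTensEquiv_mul, repTensEquiv_mul,
        repTens_kz B B' ((r.rep.mem p' b).1 hb) ((r'.rep.mem q a').1 ha'), r.mul, r'.mul]

/-- A tensor product of `X` and `X'` is represented by the tensor product of the
representations. -/
noncomputable def IsTens.rep {i : A →ₐ[k] AA} {i' : A' →ₐ[k] AA} (T : IsTens X X' E i i')
    (r : Rep X B) (r' : Rep X' B') : Rep E (B.tensor B') where
  e := repTensEquiv T r r'
  one := by
    have h := repTensEquiv_mul T r r' 1 1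
    rw [map_one, map_one, mul_one, r.one, r'.one] at h
    exact h
  mul := fun x y => repTensEquiv_mul_mul T r r' x y
  rep := ⟨fun n v => repTensEquiv_mem T r r' n v, fun v => repTensEquiv_d T r r' v⟩

theorem IsTens.rep_e {i : A →ₐ[k] AA} {i' : A' →ₐ[k] AA} (T : IsTens X X' E i i')
    (r : Rep X B) (r' : Rep X' B') (a : A) (a' : A') : (T.rep r r').e (i a * i' a') = (r.e a ⊗ₜ[k] r'.e a' : B.A ⊗[k] B'.A) :=
  repTensEquiv_mul T r r' a a'

/-- Homomorphisms of represented dg algebras. -/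
theorem Rep.exists_algHom {X : DG k A} {X' : DG k A'} (r : Rep X B) (r' : Rep X' B')
    (φ : DHom B B') : ∃ i : A →ₐ[k] A', (∀ a, r'.e (i a) = φ.f (r.e a)) := by
  have h : ∀ a, r'.e ((r'.e.symm.toLinearMap ∘ₗ φ.f ∘ₗ r.e.toLinearMap) a) = φ.f (r.e a) :=
    fun a => r'.e.apply_symm_apply _
  refine ⟨AlgHom.ofLinearMap (r'.e.symm.toLinearMap ∘ₗ φ.f ∘ₗ r.e.toLinearMap) ?_ ?_, fun a => ?_⟩
  · apply r'.e.injective
    rw [h, r.one, φ.one, r'.one]
  · intro a b
    apply r'.e.injective
    rw [h, r.mul, φ.mul, r'.mul, h, h]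
  · rw [AlgHom.ofLinearMap_apply]
    exact h a

/-- The two homomorphisms to a dg algebra which is represented by the tensor product of the
representations. -/
theorem exists_isTens (r : Rep X B) (r' : Rep X' B') (R : Rep E (B.tensor B')) : ∃ (i : A →ₐ[k] AA) (i' : A' →ₐ[k] AA),
    IsTens X X' E i i' ∧ (∀ a, R.e (i a) = (r.e a ⊗ₜ[k] B'.one : B.A ⊗[k] B'.A)) ∧
      ∀ a, R.e (i' a) = (B.one ⊗ₜ[k] r'.e a : B.A ⊗[k] B'.A) := by
  let f : DHom B (B.tensor B') :=
    { f := (TensorProduct.mk k B.A B'.A).flip B'.one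
      deg := fun {i a} ha => by
        have h := Dg.tensor_deg ha B'.one_deg
        rwa [add_zero] at h
      d := fun a => by
        change (B.dg.tensor B'.dg).d (a ⊗ₜ B'.one) = B.dg.d a ⊗ₜ B'.one
        rw [Dg.tensor_d, B'.d_one, TensorProduct.tmul_zero, add_zero]
      one := rfl
      mul := fun a b => by
        change (B.mul a b ⊗ₜ B'.one : B.A ⊗[k] B'.A) =
          kz B.dg B'.dg B.mul B'.mul (a ⊗ₜ B'.one) (b ⊗ₜ B'.one)
        rw [kz_even B'.o_one, B'.one_mul] }
  let g : DHom B' (B.tensor B') :=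
    { f := TensorProduct.mk k B.A B'.A B.one
      deg := fun {i a} ha => by
        have h := Dg.tensor_deg B.one_deg ha
        rwa [zero_add] at h
      d := fun a => by
        change (B.dg.tensor B'.dg).d (B.one ⊗ₜ a) = B.one ⊗ₜ B'.dg.d a
        rw [Dg.tensor_d, B.d_one, TensorProduct.zero_tmul, zero_add, B.s_one]
      one := rfl
      mul := fun a b => by
        change (B.one ⊗ₜ B'.mul a b : B.A ⊗[k] B'.A) =
          kz B.dg B'.dg B.mul B'.mul (B.one ⊗ₜ a) (B.one ⊗ₜ b)
        rw [kz_even' B.o_one, B.one_mul] }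
  obtain ⟨i, hi⟩ := Rep.exists_algHom r R f
  obtain ⟨i', hi'⟩ := Rep.exists_algHom r' R g
  replace hi : ∀ a, R.e (i a) = (r.e a ⊗ₜ[k] B'.one : B.A ⊗[k] B'.A) := hi
  replace hi' : ∀ a, R.e (i' a) = (B.one ⊗ₜ[k] r'.e a : B.A ⊗[k] B'.A) := hi'
  have hii : ∀ a a', R.e (i a * i' a') = (r.e a ⊗ₜ[k] r'.e a' : B.A ⊗[k] B'.A) := fun a a' => by
    rw [R.mul, hi, hi']
    change kz B.dg B'.dg B.mul B'.mul (r.e a ⊗ₜ B'.one) (B.one ⊗ₜ r'.e a') = _
    rw [kz_even B'.o_one, B.mul_one, B'.one_mul]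
  refine ⟨i, i', ⟨?_, ?_, ?_, ?_, ?_, ?_⟩, hi, hi'⟩
  · intro n a ha
    refine (R.rep.mem n (i a)).2 ?_
    rw [hi]
    exact f.deg ((r.rep.mem n a).1 ha)
  · intro n a ha
    refine (R.rep.mem n (i' a)).2 ?_
    rw [hi']
    exact g.deg ((r'.rep.mem n a).1 ha)
  · intro a
    apply R.e.injective
    rw [R.rep.d, hi, hi, r.rep.d]
    exact f.d (r.e a)
  · intro a
    apply R.e.injective
    rw [R.rep.d, hi', hi', r'.rep.d]
    exact g.d (r'.e a)
  · intro p q a a' ha ha'
    apply R.e.injective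
    rw [repTens_map_smul, hii, R.mul, hi, hi']
    change kz B.dg B'.dg B.mul B'.mul (B.one ⊗ₜ r'.e a') (r.e a ⊗ₜ B'.one) = _
    rw [repTens_kz B B' ((r.rep.mem p a).1 ha) ((r'.rep.mem q a').1 ha'), B.one_mul, B'.mul_one]
    rfl
  · have h : (LinearMap.mul' k AA ∘ₗ
      TensorProduct.map i.toLinearMap i'.toLinearMap : A ⊗[k] A' →ₗ[k] AA) =
        (TensorProduct.congr r.e r'.e ≪≫ₗ R.e.symm).toLinearMap := by
      apply TensorProduct.ext'
      intro a a'
      apply R.e.injective
      have h1 : (LinearMap.mul' k AA ∘ₗ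
        TensorProduct.map i.toLinearMap i'.toLinearMap : A ⊗[k] A' →ₗ[k] AA) (a ⊗ₜ a') =
          i a * i' a' := by
        simp
      rw [h1, hii]
      exact (R.e.apply_symm_apply _).symm
    rw [h]
    exact (TensorProduct.congr r.e r'.e ≪≫ₗ R.e.symm).bijective

end Pool.Agent.MP_6e5bed_ag_SP
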